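import Mathlib

/-!
Monotone circuits over arbitrary bottom functions, and the number of non-edges they need.
-/

namespace Pool.Agent.H29.NW.BC

/-- `v Y G` is the value of a bottom function on the graph `G` when only the non-edges in `Y` are
revealed: an arbitrary Boolean function `b` of the adjacencies of the pairs in an arbitrary set
`S`, replaced by false unless every pair in `S` is an edge of `G` or lies in `Y`. -/
def IsBottom {n : ℕ} (v : Set (Sym2 (Fin n)) → SimpleGraph (Fin n) → Prop) : Prop :=
  ∃ (S : Set (Sym2 (Fin n))) (b : SimpleGraph (Fin n) → Prop),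
    (∀ G G', (∀ e ∈ S, e ∈ G.edgeSet ↔ e ∈ G'.edgeSet) → (b G ↔ b G')) ∧
    ∀ Y G, v Y G ↔ S ⊆ G.edgeSet ∪ Y ∧ b G

/-- A circuit with `s` gates on graphs with vertex set `Fin n`, in topological order. `fn i Y G`
is the value of gate `i` on the graph `G` when only the non-edges in `Y` are revealed. Every gate
is a bottom function or the AND or the OR of any set `ins i` of earlier gates. -/
structure Circuit (n s : ℕ) where
  fn : Fin s → Set (Sym2 (Fin n)) → SimpleGraph (Fin n) → Prop
  ins : Fin s → Finset (Fin s)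
  lt : ∀ i, ∀ j ∈ ins i, j < i
  gate : ∀ i, IsBottom (fn i) ∨ (∀ Y G, fn i Y G ↔ ∀ j ∈ ins i, fn j Y G) ∨
    (∀ Y G, fn i Y G ↔ ∃ j ∈ ins i, fn j Y G)

/-- With all non-edges revealed gate `out` accepts exactly the graphs with a clique on `k`
vertices, and each of them is still accepted when only some `w` suitable pairs are revealed. -/
def Circuit.Decides {n s : ℕ} (C : Circuit n s) (out : Fin s) (k w : ℕ) : Prop :=
  (∀ G, C.fn out Set.univ G ↔ ¬ G.CliqueFree k) ∧
  ∀ G : SimpleGraph (Fin n), ¬ G.CliqueFree k →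
    ∃ Y : Finset (Sym2 (Fin n)), Y.card ≤ w ∧ C.fn out (Y : Set (Sym2 (Fin n))) G

/-- revealing more can only increase the values -/
theorem Circuit.fn_mono {n s : ℕ} (C : Circuit n s) {Y Y' : Set (Sym2 (Fin n))}
    {G : SimpleGraph (Fin n)} (hY : Y ⊆ G.edgeSet ∪ Y') (i : Fin s) :
    C.fn i Y G → C.fn i Y' G := by
  induction i using WellFoundedLT.induction with
  | ind i ih =>
    rcases C.gate i with ⟨S, b, -, hv⟩ | hv | hv
    · rw [hv, hv]
      rintro ⟨h1, h2⟩
      refine ⟨fun e he => ?_, h2⟩
      rcases h1 he with h3 | h3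
      · exact Or.inl h3
      · exact hY h3
    · rw [hv, hv]
      exact fun h j hj => ih j (C.lt i j hj) (h j hj)
    · rw [hv, hv]
      rintro ⟨j, hj, h⟩
      exact ⟨j, hj, ih j (C.lt i j hj) h⟩

/-- more edges can only increase the values, when the non-edges involved are not revealed -/
theorem Circuit.fn_mono' {n s : ℕ} (C : Circuit n s) {Y : Set (Sym2 (Fin n))}
    {G G' : SimpleGraph (Fin n)} (hG : G.edgeSet ⊆ G'.edgeSet)
    (hY : ∀ e ∈ Y, e ∈ G'.edgeSet → e ∈ G.edgeSet) (i : Fin s) :
    C.fn i Y G → C.fn i Y G' := by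
  induction i using WellFoundedLT.induction with
  | ind i ih =>
    rcases C.gate i with ⟨S, b, hb, hv⟩ | hv | hv
    · rw [hv, hv]
      rintro ⟨h1, h2⟩
      refine ⟨h1.trans (Set.union_subset_union_left _ hG), ?_⟩
      rw [← hb G G']
      · exact h2
      · intro e he
        refine ⟨fun h => hG h, fun h => ?_⟩
        rcases h1 he with h3 | h3
        · exact h3
        · exact hY e h3 h
    · rw [hv, hv]
      exact fun h j hj => ih j (C.lt i j hj) (h j hj)
    · rw [hv, hv]
      rintro ⟨j, hj, h⟩
      exact ⟨j, hj, ih j (C.lt i j hj) h⟩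

end Pool.Agent.H29.NW.BC
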