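import Mathlib

/-!
A small family of sets of vertices that contains every k-set.
-/

open Finset

namespace Pool.Agent.H29.NW

open Classical in
theorem blocks (k : ℕ) (hk : 1 ≤ k) (n w : ℕ) (hkw : k ^ 2 ≤ w) (hw : w ≤ n ^ 2) :
    ∃ (M : ℕ) (U : Fin M → Finset (Fin n)), (∀ t, #(U t) ≤ Nat.sqrt w) ∧
      (∀ s : Finset (Fin n), #s = k → ∃ t, s ⊆ U t) ∧ 1 ≤ M ∧
      (M : ℝ) ≤ (8 * k * (n / Real.sqrt w)) ^ k := by
  have hwpos : 0 < w := lt_of_lt_of_le (by positivity) hkw
  have hnpos : 0 < n := by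
    rcases Nat.eq_zero_or_pos n with h | h
    · subst h; simp at hw; omega
    · exact h
  set σ := Nat.sqrt w with hσ
  have hσk : k ≤ σ := Nat.le_sqrt'.2 hkw
  have hσn : σ ≤ n := by
    have := Nat.sqrt_le_sqrt hw
    rwa [Nat.sqrt_eq'] at this
  set β := σ / k with hβ
  have hβpos : 0 < β := Nat.div_pos hσk (by omega)
  set g := n / β + 1 with hg
  let U : (Fin k → Fin g) → Finset (Fin n) := fun f =>
    univ.filter (fun v => ∃ i, (v : ℕ) / β = f i)
  have hU : ∀ f, #(U f) ≤ σ := by
    intro f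
    have h1 : U f ⊆ univ.biUnion (fun i : Fin k => univ.filter (fun v : Fin n =>
        (v : ℕ) / β = f i)) := by
      intro v hv
      obtain ⟨i, hi⟩ := (Finset.mem_filter.1 hv).2
      rw [Finset.mem_biUnion]
      exact ⟨i, Finset.mem_univ _, Finset.mem_filter.2 ⟨Finset.mem_univ _, hi⟩⟩
    have h2 : ∀ i : Fin k, #(univ.filter (fun v : Fin n => (v : ℕ) / β = f i)) ≤ β := by
      intro i
      have h3 := Finset.card_le_card_of_injOn (s := univ.filter (fun v : Fin n =>
        (v : ℕ) / β = f i)) (t := Finset.range β) (fun v => (v : ℕ) % β)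
        (fun v _ => by simpa using Nat.mod_lt _ hβpos) (by
          intro v hv v' hv' h
          simp only [Finset.coe_filter, Finset.mem_univ, true_and, Set.mem_ofPred_eq] at hv hv'
          apply Fin.ext
          have e1 := Nat.div_add_mod (v : ℕ) β
          have e2 := Nat.div_add_mod (v' : ℕ) β
          rw [hv] at e1
          rw [hv'] at e2
          simp only at h
          rw [h] at e1
          omega)
      rwa [Finset.card_range] at h3
    calc #(U f) ≤ _ := Finset.card_le_card h1
      _ ≤ ∑ i : Fin k, #(univ.filter (fun v : Fin n => (v : ℕ) / β = f i)) :=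
          Finset.card_biUnion_le
      _ ≤ ∑ i : Fin k, β := Finset.sum_le_sum fun i _ => h2 i
      _ = k * β := by simp
      _ ≤ σ := Nat.mul_div_le _ _
  set M := Fintype.card (Fin k → Fin g) with hM
  let e : Fin M ≃ (Fin k → Fin g) := (Fintype.equivFin _).symm
  have hMg : M = g ^ k := by rw [hM]; simp
  refine ⟨M, fun t => U (e t), fun t => hU _, ?_, ?_, ?_⟩
  · intro s hs
    have hcard : Fintype.card s = k := by rw [Fintype.card_coe]; exact hs
    let en : Fin k ≃ s := (Fintype.equivFinOfCardEq hcard).symm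
    let f : Fin k → Fin g := fun i => ⟨((en i : Fin n) : ℕ) / β, by
      rw [hg]
      exact Nat.lt_succ_of_le (Nat.div_le_div_right (en i : Fin n).2.le)⟩
    refine ⟨e.symm f, ?_⟩
    intro v hv
    simp only [Equiv.apply_symm_apply]
    refine Finset.mem_filter.2 ⟨Finset.mem_univ _, en.symm ⟨v, hv⟩, ?_⟩
    simp [f]
  · rw [hMg]
    exact Nat.one_le_pow _ _ (by rw [hg]; exact Nat.succ_pos _)
  · have hkr : (1 : ℝ) ≤ k := by exact_mod_cast hk
    have hwr : (0 : ℝ) < w := by exact_mod_cast hwpos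
    have hnr : (0 : ℝ) < n := by exact_mod_cast hnpos
    have hgr : (g : ℝ) ≤ 8 * k * (n / Real.sqrt w) := by
      have hσr : Real.sqrt w ≤ 2 * σ := by
        have h1 : w < (σ + 1) * (σ + 1) := Nat.lt_succ_sqrt w
        have h2 : (w : ℝ) ≤ (σ + 1) ^ 2 := by
          have : ((w : ℕ) : ℝ) ≤ (((σ + 1) * (σ + 1) : ℕ) : ℝ) := by exact_mod_cast h1.le
          push_cast at this
          linarith [sq ((σ : ℝ) + 1)]
        have h3 : Real.sqrt w ≤ σ + 1 := Real.sqrt_le_iff.2 ⟨by positivity, h2⟩
        have h4 : (1 : ℝ) ≤ σ := by exact_mod_cast (by omega : 1 ≤ σ)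
        linarith
      have hβr : (σ : ℝ) ≤ 2 * (k * β) := by
        have h1 := Nat.lt_mul_div_succ σ (show 0 < k by omega)
        rw [← hβ] at h1
        have h2 : k * 1 ≤ k * β := Nat.mul_le_mul_left _ hβpos
        have h3 : k * (β + 1) = k * β + k := by ring
        have h4 : σ ≤ 2 * (k * β) := by omega
        exact_mod_cast h4
      have hβ0 : (0 : ℝ) < β := by exact_mod_cast hβpos
      have hβn : β ≤ n := (Nat.div_le_self _ _).trans hσn
      have h5 : (g : ℝ) ≤ 2 * (n / β) := by
        rw [hg]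
        push_cast
        have h6 : ((n / β : ℕ) : ℝ) ≤ n / β := Nat.cast_div_le
        have h7 : (1 : ℝ) ≤ n / β := by
          rw [one_le_div hβ0]
          exact_mod_cast hβn
        linarith
      refine h5.trans ?_
      have hs0 : 0 < Real.sqrt w := Real.sqrt_pos.2 hwr
      rw [← mul_div_assoc, ← mul_div_assoc, div_le_div_iff₀ hβ0 hs0]
      nlinarith
    rw [hMg]
    push_cast
    exact pow_le_pow_left₀ (by positivity) hgr k

end Pool.Agent.H29.NW
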