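import Mathlib

/-!
Monotone real circuits over arbitrary bottom functions, and the number of non-edges they need.
-/

namespace Pool.Agent.H29.NW

open Classical in
/-- `v Y G` is the value of a bottom function on the graph `G` when only the non-edges in `Y` are
revealed: an arbitrary nonnegative real function `b` of the adjacencies of the pairs in an
arbitrary set `S`, replaced by 0 unless every pair in `S` is an edge of `G` or lies in `Y`. -/
def IsBottom {n : ℕ} (v : Set (Sym2 (Fin n)) → SimpleGraph (Fin n) → ℝ) : Prop :=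
  ∃ (S : Set (Sym2 (Fin n))) (b : SimpleGraph (Fin n) → ℝ), (∀ G, 0 ≤ b G) ∧
    (∀ G G', (∀ e ∈ S, e ∈ G.edgeSet ↔ e ∈ G'.edgeSet) → b G = b G') ∧
    ∀ Y G, v Y G = if S ⊆ G.edgeSet ∪ Y then b G else 0

/-- A circuit with gates indexed by `ι` on graphs with vertex set `Fin n`. `val Y G i` is the
value of gate `i` on the graph `G` when only the non-edges in `Y` are revealed. Every gate is a
bottom function or a nondecreasing real function of the values of two gates of smaller rank. -/
structure Circuit (n : ℕ) (ι : Type) where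
  val : Set (Sym2 (Fin n)) → SimpleGraph (Fin n) → ι → ℝ
  rank : ι → ℕ
  out : ι
  gate : ∀ i, IsBottom (fun Y G => val Y G i) ∨
    ∃ j l, rank j < rank i ∧ rank l < rank i ∧ ∃ φ : ℝ → ℝ → ℝ,
      (∀ x x' y y', x ≤ x' → y ≤ y' → φ x y ≤ φ x' y') ∧
      ∀ Y G, val Y G i = φ (val Y G j) (val Y G l)

/-- On the graphs with `a` to `b` edges: with all non-edges revealed the circuit accepts (output at
least 1) exactly the graphs with a clique on `k` vertices, and each of them is still accepted when
only some `w` suitable pairs are revealed. -/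
def Circuit.Decides {n : ℕ} {ι : Type} (C : Circuit n ι) (k w a b : ℕ) : Prop :=
  ∀ G : SimpleGraph (Fin n), a ≤ G.edgeSet.ncard → G.edgeSet.ncard ≤ b →
    (1 ≤ C.val Set.univ G C.out ↔ ¬ G.CliqueFree k) ∧
    (¬ G.CliqueFree k →
      ∃ Y : Finset (Sym2 (Fin n)), Y.card ≤ w ∧ 1 ≤ C.val (Y : Set (Sym2 (Fin n))) G C.out)

/-- revealing more can only increase the values -/
theorem Circuit.val_mono {n : ℕ} {ι : Type} (C : Circuit n ι) {Y Y' : Set (Sym2 (Fin n))}
    {G : SimpleGraph (Fin n)} (hY : Y ⊆ G.edgeSet ∪ Y') (i : ι) :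
    C.val Y G i ≤ C.val Y' G i := by
  classical
  suffices H : ∀ N i, C.rank i < N → C.val Y G i ≤ C.val Y' G i from H _ i (Nat.lt_succ_self _)
  intro N
  induction N with
  | zero => intro i hi; omega
  | succ N ih =>
    intro i hi
    rcases C.gate i with ⟨S, b, hb0, -, hv⟩ | ⟨j, l, hj, hl, φ, hφ, hv⟩
    · have e1 : C.val Y G i = _ := hv Y G
      have e2 : C.val Y' G i = _ := hv Y' G
      rw [e1, e2]
      by_cases h : S ⊆ G.edgeSet ∪ Y
      · rw [if_pos h, if_pos]
        intro e he
        rcases h he with h1 | h1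
        · exact Or.inl h1
        · exact hY h1
      · rw [if_neg h]
        split_ifs
        · exact hb0 G
        · exact le_rfl
    · rw [hv Y G, hv Y' G]
      exact hφ _ _ _ _ (ih j (by omega)) (ih l (by omega))

end Pool.Agent.H29.NW
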