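import Pool.Agent.H29.NW.Dag

/-!
The lower bound for circuits of bounded width, parametric form.
-/

open Finset

namespace Pool.Agent.H29.NW

open Pool.Agent.H29.Lift

section one

variable {n q r m L L' : ℕ} {ι : Type}

/-- everything outside the live edges is revealed -/
def Yh (emb : Vt q r m L L' ↪ Fin n) (h : Sl q m → Fin L × Fin L') : Set (Sym2 (Fin n)) :=
  {e | ∀ s, e ≠ ps emb s (h s)}

/-- the relation at chain position `(c, β)` of a bottom gate that reads `S` with values `b` -/
def FB (emb : Vt q r m L L' ↪ Fin n) (f : Fil emb) (h : Sl q m → Fin L × Fin L')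
    (g : Gd (Fin q × Fin q) m) (ch : Fin q → ZMod 2) (S : Set (Sym2 (Fin n)))
    (b : SimpleGraph (Fin n) → ℝ) (c : ℕ) (β : Bool) (x y : Pt (Fin q × Fin q) m) : Prop :=
  (S ⊆ (Gn emb f h (zx x)).edgeSet ∪ Yh emb h ∧ 0 < b (Gn emb f h (zx x))) ∧
  ∃ s : Sl q m, ps emb s (h s) ∈ S ∧ (if β = true then s.1.val = c else s.1.val < c) ∧
    ¬ zy g ch y s

theorem FB_zero {emb : Vt q r m L L' ↪ Fin n} {f : Fil emb} {h : Sl q m → Fin L × Fin L'}
    {g : Gd (Fin q × Fin q) m} {ch : Fin q → ZMod 2} {S : Set (Sym2 (Fin n))}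
    {b : SimpleGraph (Fin n) → ℝ} {x y : Pt (Fin q × Fin q) m} : ¬ FB emb f h g ch S b 0 false x y := by
  rintro ⟨-, s, -, h, -⟩
  simp at h

theorem FB_succ {emb : Vt q r m L L' ↪ Fin n} {f : Fil emb} {h : Sl q m → Fin L × Fin L'}
    {g : Gd (Fin q × Fin q) m} {ch : Fin q → ZMod 2} {S : Set (Sym2 (Fin n))}
    {b : SimpleGraph (Fin n) → ℝ} {x y : Pt (Fin q × Fin q) m} {c : ℕ}
    (hF : FB emb f h g ch S b (c + 1) false x y) :
    FB emb f h g ch S b c false x y ∨ FB emb f h g ch S b c true x y := by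
  obtain ⟨hα, s, h1, h2, h3⟩ := hF
  simp only [Bool.false_eq_true, if_false] at h2
  rcases Nat.lt_succ_iff_lt_or_eq.1 h2 with h4 | h4
  · left
    exact ⟨hα, s, h1, by simpa using h4, h3⟩
  · right
    exact ⟨hα, s, h1, by simpa using h4, h3⟩

/-- a violated live edge is a violated star -/
theorem FB_leaf {emb : Vt q r m L L' ↪ Fin n} {f : Fil emb} {h : Sl q m → Fin L × Fin L'}
    {g : Gd (Fin q × Fin q) m} {ch : Fin q → ZMod 2} {S : Set (Sym2 (Fin n))}
    {b : SimpleGraph (Fin n) → ℝ} (hq : 2 ≤ q) (c : ℕ) :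
    ∃ K : Finset (Fin q × Fin q), #K ≤ 2 * q ∧ ∀ x y, FB emb f h g ch S b c true x y →
      ¬ TH ch K (gv g x y) := by
  by_cases hc : c < q
  · refine ⟨cut {⟨c, hc⟩}, card_cut_singleton _, ?_⟩
    rintro x y ⟨⟨hα, -⟩, s, h1, h2, h3⟩ hT
    apply h3
    have hs : s.1 = ⟨c, hc⟩ := Fin.ext (by simpa using h2)
    have hz : zx x s := by
      rcases hα h1 with h4 | h4
      · exact (mem_live emb f h (zx x) s).1 h4
      · exact absurd rfl (h4 s)
    have h5 := TH_star hq _ hT
    rw [← hs] at h5
    unfold zy OKc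
    rw [← h5]
    apply Finset.sum_congr rfl
    intro w _
    unfold zx at hz
    rw [hz]
    rfl
  · refine ⟨∅, by simp, ?_⟩
    rintro x y ⟨-, s, -, h2, -⟩
    simp only [if_true] at h2
    exact absurd s.1.2 (by omega)

/-- a bottom gate that distinguishes the two sides reads a violated live edge -/
theorem FB_top {emb : Vt q r m L L' ↪ Fin n} {f : Fil emb} {h : Sl q m → Fin L × Fin L'}
    {g : Gd (Fin q × Fin q) m} {ch : Fin q → ZMod 2} {S : Set (Sym2 (Fin n))}
    {b : SimpleGraph (Fin n) → ℝ} {v : Set (Sym2 (Fin n)) → SimpleGraph (Fin n) → ℝ}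
    (hb0 : ∀ G, 0 ≤ b G)
    (hb : ∀ G G', (∀ e ∈ S, e ∈ G.edgeSet ↔ e ∈ G'.edgeSet) → b G = b G')
    (hv : ∀ Y G, v Y G = open Classical in if S ⊆ G.edgeSet ∪ Y then b G else 0)
    {x y : Pt (Fin q × Fin q) m}
    (hlt : v (Yh emb h) (Gn emb f h (zy g ch y)) < v (Yh emb h) (Gn emb f h (zx x))) :
    FB emb f h g ch S b q false x y := by
  classical
  rw [hv, hv] at hlt
  set P := Gn emb f h (zx x)
  set Q := Gn emb f h (zy g ch y)
  have hP : S ⊆ P.edgeSet ∪ Yh emb h := by
    by_contra hcon
    rw [if_neg hcon] at hlt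
    split_ifs at hlt
    · exact absurd hlt (not_lt.2 (hb0 Q))
    · exact absurd hlt (lt_irrefl _)
  rw [if_pos hP] at hlt
  have hPQ : ∀ e ∈ S, e ∈ Yh emb h → (e ∈ P.edgeSet ↔ e ∈ Q.edgeSet) := by
    intro e _ heY
    exact ⟨mem_dead emb f h _ _ e heY, mem_dead emb f h _ _ e heY⟩
  have hQ : ¬ S ⊆ Q.edgeSet ∪ Yh emb h := by
    intro hQ
    rw [if_pos hQ] at hlt
    have : b P = b Q := by
      apply hb
      intro e he
      by_cases heY : e ∈ Yh emb h
      · exact hPQ e he heY
      · have h1 : e ∈ P.edgeSet := (hP he).resolve_right heY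
        have h2 : e ∈ Q.edgeSet := (hQ he).resolve_right heY
        exact ⟨fun _ => h2, fun _ => h1⟩
    rw [this] at hlt
    exact lt_irrefl _ hlt
  rw [if_neg hQ] at hlt
  rw [Set.subset_def] at hQ
  push Not at hQ
  obtain ⟨e, he, heQ⟩ := hQ
  have heY : e ∉ Yh emb h := fun h' => heQ (Or.inr h')
  have heQ' : e ∉ Q.edgeSet := fun h' => heQ (Or.inl h')
  unfold Yh at heY
  simp only [Set.mem_ofPred_eq] at heY
  push Not at heY
  obtain ⟨s, hs⟩ := heY
  refine ⟨⟨hP, hlt⟩, s, hs ▸ he, by simp, ?_⟩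
  intro hz
  apply heQ'
  rw [hs]
  exact (mem_live emb f h _ s).2 hz

end one

/-- Parametric lower bound. -/
theorem dag (q : ℕ) (hq : 16 ≤ q) : ∃ m₀ : ℕ, 1 ≤ m₀ ∧ ∀ m : ℕ, m₀ ≤ m →
    ∀ (r L L' n n₁ p a b w T : ℕ) (ι : Type) [Fintype ι] (C : Circuit n ι),
      q * m ^ (2 * q) * L + q * L' + r ≤ n₁ → n₁ ^ 2 ≤ a → a ≤ p * p → n₁ + 2 * p ≤ n →
      a + q * m ^ (2 * q) ≤ b → 0 < L * L' → 2 * w ≤ L * L' →
      C.Decides (2 * q + r) w a b → m ^ (q ^ 2) < 2 ^ T →
      (m : ℝ) ^ (((q ^ 2 / 16 : ℕ) : ℝ) + 1 - 1 / 2) ≤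
        ((T * (Fintype.card ι * ((q + 1) * 2)) + (T + 1) : ℕ) : ℝ) := by
  classical
  have hq0 : 0 < q := by omega
  let ch : Fin q → ZMod 2 := fun u => if u = ⟨0, hq0⟩ then 1 else 0
  have hch : ∑ u, ch u = 1 := by simp [ch]
  have hD : 4 * (q ^ 2 / 16) ≤ q ^ 2 / 4 := by omega
  have hDt : 2 * (q ^ 2 / 16) + 2 * q ≤ q ^ 2 / 4 := by
    have h1 : 16 * q ≤ q ^ 2 := by nlinarith
    omega
  have hE : 1 ≤ Fintype.card (Fin q × Fin q) := by
    rw [Fintype.card_prod, Fintype.card_fin]; nlinarith
  obtain ⟨m₀, hm₀, hm⟩ := dag_lower (adv_TH hq0 ch) hD hDt hE (1 / 2) (by norm_num)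
  refine ⟨m₀, hm₀, fun m hmm r L L' n n₁ p a b w T ι _ C hn₁ hn₁a hap hn hab hLL hw hC hT => ?_⟩
  obtain ⟨g, hg⟩ := hm m hmm
  have hm1 : 0 < m := by omega
  -- the embedding
  have hcV : Fintype.card (Vt q r m L L') = q * m ^ (2 * q) * L + q * L' + r := by
    simp only [Fintype.card_prod, Fintype.card_sum, Fintype.card_fun, Fintype.card_fin]
    rw [two_mul, pow_add]; ring
  have hcard : Fintype.card (Vt q r m L L' ⊕ (Fin p ⊕ Fin p)) ≤ Fintype.card (Fin n) := by
    rw [Fintype.card_sum, hcV, Fintype.card_sum, Fintype.card_fin, Fintype.card_fin]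
    omega
  have hL : 0 < L := Nat.pos_of_mul_pos_right hLL
  have hL' : 0 < L' := Nat.pos_of_mul_pos_left hLL
  have hNV : Nonempty (Fin L × Fin L') := ⟨(⟨0, hL⟩, ⟨0, hL'⟩)⟩
  have hNVt : Nonempty (Vt q r m L L' ⊕ (Fin p ⊕ Fin p)) :=
    ⟨Sum.inl (Sum.inr (Sum.inl (⟨0, hq0⟩, ⟨0, hL'⟩)))⟩
  obtain ⟨em⟩ := Function.Embedding.nonempty_of_card_le hcard
  let emb : Vt q r m L L' ↪ Fin n := Function.Embedding.inl.trans em
  obtain ⟨f, hf⟩ := exists_fil emb (Function.Embedding.inr.trans em) (by
      rintro x ⟨y, hy⟩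
      exact absurd (em.injective hy) (by simp)) a (by
      rw [hcV]; exact (Nat.pow_le_pow_left hn₁ 2).trans hn₁a) hap
  have hcS : Fintype.card (Sl q m) = q * m ^ (2 * q) := by
    simp only [Fintype.card_prod, Fintype.card_fun, Fintype.card_fin]
    rw [two_mul, pow_add]
  have hwin : ∀ h z, a ≤ (Gn emb f h z).edgeSet.ncard ∧ (Gn emb f h z).edgeSet.ncard ≤ b := by
    intro h z
    have h1 := Gn_edges emb f a hf h z
    rw [hcS] at h1
    exact ⟨h1.1, h1.2.trans hab⟩
  have hk3 : 3 ≤ 2 * q + r := by omega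
  let X := Pt (Fin q × Fin q) m
  let P : (Sl q m → Fin L × Fin L') → X → SimpleGraph (Fin n) := fun h x => Gn emb f h (zx x)
  let Q : (Sl q m → Fin L × Fin L') → X → SimpleGraph (Fin n) := fun h y => Gn emb f h (zy g ch y)
  have hP : ∀ h x, ¬ (P h x).CliqueFree (2 * q + r) := by
    intro h x hf
    exact pos_clique h x ((Gn_cliqueFree emb f h _ hk3).1 hf)
  have hQ : ∀ h y, (Q h y).CliqueFree (2 * q + r) := by
    intro h y
    exact (Gn_cliqueFree emb f h _ hk3).2 (neg_cliqueFree g ch hch h y hm1)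
  -- certificates
  let certG : SimpleGraph (Fin n) → Finset (Sym2 (Fin n)) := fun G =>
    if hG : ∃ Y : Finset (Sym2 (Fin n)), Y.card ≤ w ∧
      1 ≤ C.val (Y : Set (Sym2 (Fin n))) G C.out then Classical.choose hG else ∅
  have hcertG : ∀ h x, #(certG (P h x)) ≤ w ∧
      1 ≤ C.val (certG (P h x) : Set (Sym2 (Fin n))) (P h x) C.out := by
    intro h x
    have hG := (hC (P h x) (hwin h _).1 (hwin h _).2).2 (hP h x)
    have := Classical.choose_spec hG
    simp only [certG, dif_pos hG]
    exact this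
  obtain ⟨hs, hhs⟩ := hide (ps emb) (ps_injective emb) w
    (by rw [Fintype.card_prod, Fintype.card_fin, Fintype.card_fin]; exact hw)
    (fun x : X => {s | zx x s}) (fun x h => certG (P h x))
    (fun x h => (hcertG h x).1)
    (fun x h h' hh => by
      change certG (P h x) = certG (P h' x)
      congr 1
      exact Gn_congr emb f h h' _ (fun s hs => hh s hs)) T
    (by
      rw [Fintype.card_fun, Fintype.card_prod, Fintype.card_fin, Fintype.card_fin, ← sq]
      exact hT)
  -- good inputs of a copy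
  let good : X → ℕ → Prop := fun x t =>
    1 ≤ C.val (Yh emb (hs t)) (P (hs t) x) C.out
  have hgood : ∀ x, ∃ t < T, good x t := by
    intro x
    obtain ⟨t, ht, h⟩ := hhs x
    refine ⟨t, ht, le_trans (hcertG (hs t) x).2 (C.val_mono ?_ _)⟩
    intro e he
    by_cases heY : e ∈ Yh emb (hs t)
    · exact Or.inr heY
    left
    unfold Yh at heY
    simp only [Set.mem_ofPred_eq] at heY
    push Not at heY
    obtain ⟨s, hse⟩ := heY
    by_cases hz : zx x s
    · rw [hse]
      exact (mem_live emb f (hs t) _ s).2 hz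
    · exfalso
      refine h s hz ?_
      rw [← hse]
      exact Finset.mem_coe.1 he
  have hneg : ∀ t y, C.val (Yh emb (hs t)) (Q (hs t) y) C.out < 1 := by
    intro t y
    have h1 : C.val (Yh emb (hs t)) (Q (hs t) y) C.out ≤
        C.val Set.univ (Q (hs t) y) C.out := C.val_mono (by simp) _
    have h2 : ¬ 1 ≤ C.val Set.univ (Q (hs t) y) C.out := by
      rw [(hC (Q (hs t) y) (hwin (hs t) _).1 (hwin (hs t) _).2).1]
      exact not_not.2 (hQ _ _)
    exact lt_of_le_of_lt h1 (not_le.1 h2)
  -- the dag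
  let isB : ι → Prop := fun i => IsBottom (fun Y G => C.val Y G i)
  let Sb : ι → Set (Sym2 (Fin n)) := fun i => if h : isB i then Classical.choose h else ∅
  have hSb : ∀ i, isB i → ∃ b : SimpleGraph (Fin n) → ℝ, (∀ G, 0 ≤ b G) ∧
      (∀ G G', (∀ e ∈ Sb i, e ∈ G.edgeSet ↔ e ∈ G'.edgeSet) → b G = b G') ∧
      ∀ Y G, C.val Y G i = if Sb i ⊆ G.edgeSet ∪ Y then b G else 0 := by
    intro i hi
    have := Classical.choose_spec hi
    simp only [Sb, dif_pos hi]
    exact this
  choose! bb hbb0 hbb hval using hSb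
  let J := (Fin T × (ι × (Fin (q + 1) × Bool))) ⊕ Fin (T + 1)
  let R : ℕ := (∑ i, C.rank i + 1) * (q + 2)
  let ρ : J → ℕ := fun j => match j with
    | Sum.inl (_, i, c, _) => C.rank i * (q + 2) + c
    | Sum.inr t => R + t
  let F : J → X → X → Prop := fun j => match j with
    | Sum.inl (t, i, c, β) => if isB i then FB emb f (hs t) g ch (Sb i) (bb i) c β else
        fun x y => C.val (Yh emb (hs t)) (Q (hs t) y) i < C.val (Yh emb (hs t)) (P (hs t) x) i
    | Sum.inr t => fun x _ => ∃ t' < (t : ℕ), good x t'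
  have hFtop : ∀ (t : Fin T) (i : ι) (x y : X),
      C.val (Yh emb (hs t)) (Q (hs t) y) i < C.val (Yh emb (hs t)) (P (hs t) x) i →
      F (Sum.inl (t, i, ⟨q, by omega⟩, false)) x y := by
    intro t i x y hlt
    change (if isB i then _ else _ : X → X → Prop) x y
    by_cases hi : isB i
    · rw [if_pos hi]
      exact FB_top (v := fun Y G => C.val Y G i) (hbb0 i hi) (hbb i hi)
        (fun Y G => by rw [hval i hi]) hlt
    · rw [if_neg hi]
      exact hlt
  have hcardJ : Fintype.card J = T * (Fintype.card ι * ((q + 1) * 2)) + (T + 1) := by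
    simp only [J, Fintype.card_sum, Fintype.card_prod, Fintype.card_fin, Fintype.card_bool]
  rw [← hcardJ]
  apply hg J ρ F
  · rintro (⟨t, i, c, β⟩ | t)
    · change Thr (if isB i then _ else _ : X → X → Prop)
      by_cases hi : isB i
      · rw [if_pos hi]
        exact thr_and _ _
      · rw [if_neg hi]
        exact ⟨fun x => -C.val (Yh emb (hs t)) (P (hs t) x) i,
          fun y => -C.val (Yh emb (hs t)) (Q (hs t) y) i, fun x y => neg_lt_neg_iff.symm⟩
    · obtain ⟨a, b, hab⟩ := thr_and (fun x : X => ∃ t' < (t : ℕ), good x t') (fun _ : X => True)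
      refine ⟨a, b, fun x y => ?_⟩
      rw [← hab]
      simp [F]
  · rintro (⟨t, i, c, β⟩ | t)
    · by_cases hi : isB i
      · have hFi : F (Sum.inl (t, i, c, β)) = FB emb f (hs t) g ch (Sb i) (bb i) c β := by
          change (if isB i then _ else _ : X → X → Prop) = _
          rw [if_pos hi]
        rw [hFi]
        cases β with
        | true =>
          left
          exact FB_leaf (by omega) c
        | false =>
          rcases Nat.eq_zero_or_pos (c : ℕ) with hc | hc
          · left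
            refine ⟨∅, by simp, fun x y h => ?_⟩
            rw [hc] at h
            exact absurd h FB_zero
          · right
            have hc' : (c : ℕ) - 1 < q + 1 := by have := c.2; omega
            refine ⟨Sum.inl (t, i, ⟨c - 1, hc'⟩, false), Sum.inl (t, i, ⟨c - 1, hc'⟩, true),
              ?_, ?_, ?_⟩
            · change C.rank i * (q + 2) + ((c : ℕ) - 1) < C.rank i * (q + 2) + c
              omega
            · change C.rank i * (q + 2) + ((c : ℕ) - 1) < C.rank i * (q + 2) + c
              omega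
            · intro x y h
              change (if isB i then _ else _ : X → X → Prop) x y ∨
                (if isB i then _ else _ : X → X → Prop) x y
              rw [if_pos hi, if_pos hi]
              apply FB_succ
              rw [Nat.sub_add_cancel hc]
              exact h
      · rcases C.gate i with hB | ⟨j, l, hj, hl, φ, hφ, hv⟩
        · exact absurd hB hi
        · right
          refine ⟨Sum.inl (t, j, ⟨q, by omega⟩, false), Sum.inl (t, l, ⟨q, by omega⟩, false),
            ?_, ?_, ?_⟩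
          · change C.rank j * (q + 2) + q < C.rank i * (q + 2) + c
            have : (C.rank j + 1) * (q + 2) ≤ C.rank i * (q + 2) := Nat.mul_le_mul_right _ hj
            have h2 : (C.rank j + 1) * (q + 2) = C.rank j * (q + 2) + (q + 2) := by ring
            omega
          · change C.rank l * (q + 2) + q < C.rank i * (q + 2) + c
            have : (C.rank l + 1) * (q + 2) ≤ C.rank i * (q + 2) := Nat.mul_le_mul_right _ hl
            have h2 : (C.rank l + 1) * (q + 2) = C.rank l * (q + 2) + (q + 2) := by ring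
            omega
          · intro x y h
            change (if isB i then _ else _ : X → X → Prop) x y at h
            rw [if_neg hi] at h
            have h' : C.val (Yh emb (hs t)) (Q (hs t) y) i <
              C.val (Yh emb (hs t)) (P (hs t) x) i := h
            by_contra hcon
            push Not at hcon
            have h1 : C.val (Yh emb (hs t)) (P (hs t) x) j ≤
                C.val (Yh emb (hs t)) (Q (hs t) y) j := by
              by_contra hc
              exact hcon.1 (hFtop t j x y (not_le.1 hc))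
            have h2 : C.val (Yh emb (hs t)) (P (hs t) x) l ≤
                C.val (Yh emb (hs t)) (Q (hs t) y) l := by
              by_contra hc
              exact hcon.2 (hFtop t l x y (not_le.1 hc))
            rw [hv, hv] at h'
            exact absurd h' (not_lt.2 (hφ _ _ _ _ h1 h2))
    · rcases Nat.eq_zero_or_pos (t : ℕ) with ht | ht
      · left
        refine ⟨∅, by simp, fun x y h => ?_⟩
        obtain ⟨t', ht', -⟩ := (h : ∃ t' < (t : ℕ), good x t')
        omega
      · right
        have htT : (t : ℕ) - 1 < T := by have := t.2; omega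
        refine ⟨Sum.inr ⟨(t : ℕ) - 1, by omega⟩,
          Sum.inl (⟨(t : ℕ) - 1, htT⟩, C.out, ⟨q, by omega⟩, false), ?_, ?_, ?_⟩
        · change R + ((t : ℕ) - 1) < R + t
          omega
        · change C.rank C.out * (q + 2) + q < R + t
          have h1 : C.rank C.out ≤ ∑ i, C.rank i :=
            Finset.single_le_sum (f := C.rank) (fun i _ => Nat.zero_le _) (Finset.mem_univ _)
          have h2 : (C.rank C.out + 1) * (q + 2) ≤ R := Nat.mul_le_mul_right _ (by omega)
          have h3 : (C.rank C.out + 1) * (q + 2) = C.rank C.out * (q + 2) + (q + 2) := by ring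
          omega
        · intro x y h
          obtain ⟨t', ht', hgt⟩ := (h : ∃ t' < (t : ℕ), good x t')
          rcases Nat.lt_or_ge t' ((t : ℕ) - 1) with h1 | h1
          · left
            exact ⟨t', h1, hgt⟩
          · right
            have h2 : t' = (t : ℕ) - 1 := by omega
            subst h2
            apply hFtop
            exact lt_of_lt_of_le (hneg _ _) hgt
  · refine ⟨Sum.inr (Fin.last T), fun x y => ?_⟩
    obtain ⟨t, ht, h⟩ := hgood x
    exact ⟨t, by simpa using ht, h⟩

end Pool.Agent.H29.NW
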