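import Mathlib

/-!
Hiding live variables at random positions: a small certificate misses them.
-/

open Finset

namespace Pool.Agent.H29.NW

variable {I V E X : Type} [Fintype I] [DecidableEq I] [Fintype V] [DecidableEq E]

/-- swapping a coordinate with a fresh value -/
def swapAt (i : I) : ((I → V) × V) ≃ ((I → V) × V) :=
  Function.Involutive.toPerm (fun p => (Function.update p.1 i p.2, p.1 i)) (by
    intro p
    ext j
    · by_cases hj : j = i
      · subst hj; simp
      · simp [hj]
    · simp)

open Classical in
/-- the placements for which the certificate of `x` hits a hidden position outside `R` -/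
theorem bad_one [Nonempty V] (pos : I → V → E)
    (hpos : Function.Injective (fun p : I × V => pos p.1 p.2)) (w : ℕ)
    (hw : 2 * w ≤ Fintype.card V) (R : Set I) (cert : (I → V) → Finset E)
    (hcard : ∀ h, #(cert h) ≤ w)
    (hdep : ∀ h h' : I → V, (∀ i ∈ R, h i = h' i) → cert h = cert h') :
    2 * #(univ.filter (fun h : I → V => ∃ i, i ∉ R ∧ pos i (h i) ∈ cert h)) ≤
      Fintype.card (I → V) := by
  set N := Fintype.card V with hN
  have hNpos : 0 < N := Fintype.card_pos
  -- one coordinate
  have h1 : ∀ i, i ∉ R → N * #(univ.filter (fun h : I → V => pos i (h i) ∈ cert h)) =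
      ∑ h : I → V, #(univ.filter (fun v : V => pos i v ∈ cert h)) := by
    intro i hi
    have e1 : ∑ p : (I → V) × V, (if pos i (p.1 i) ∈ cert p.1 then 1 else 0) =
        N * #(univ.filter (fun h : I → V => pos i (h i) ∈ cert h)) := by
      rw [Fintype.sum_prod_type, Finset.card_filter, Finset.mul_sum]
      apply Finset.sum_congr rfl
      intro h _
      by_cases hh : pos i (h i) ∈ cert h
      · simp [hh, hN]
      · simp [hh]
    have e2 : ∑ p : (I → V) × V, (if pos i p.2 ∈ cert p.1 then 1 else 0) =
        ∑ h : I → V, #(univ.filter (fun v : V => pos i v ∈ cert h)) := by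
      rw [Fintype.sum_prod_type]
      apply Finset.sum_congr rfl
      intro h _
      rw [Finset.card_filter]
    rw [← e1, ← e2, ← Equiv.sum_comp (swapAt i)]
    apply Finset.sum_congr rfl
    rintro ⟨h, v⟩ _
    have e3 : cert (Function.update h i v) = cert h := by
      apply hdep
      intro j hj
      apply Function.update_of_ne
      rintro rfl
      exact hi hj
    simp only [swapAt, Function.Involutive.coe_toPerm, Function.update_self, e3]
  have h2 : ∀ h : I → V, ∑ i, #(univ.filter (fun v : V => pos i v ∈ cert h)) ≤ w := by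
    intro h
    refine le_trans ?_ (hcard h)
    rw [← Finset.card_sigma]
    apply Finset.card_le_card_of_injOn (fun p : (Σ _ : I, V) => pos p.1 p.2)
    · intro p hp
      simp only [Finset.coe_sigma, Set.mem_sigma_iff, Finset.coe_filter, Set.mem_ofPred_eq,
        Finset.mem_univ, true_and, Finset.coe_univ, Set.mem_univ] at hp
      exact hp
    · rintro ⟨i, v⟩ _ ⟨j, v'⟩ _ h
      have := hpos (a₁ := (i, v)) (a₂ := (j, v')) h
      simp only [Prod.mk.injEq] at this
      obtain ⟨rfl, rfl⟩ := this
      rfl
  have h3 : N * #(univ.filter (fun h : I → V => ∃ i, i ∉ R ∧ pos i (h i) ∈ cert h)) ≤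
      w * Fintype.card (I → V) := by
    calc N * #(univ.filter (fun h : I → V => ∃ i, i ∉ R ∧ pos i (h i) ∈ cert h))
        ≤ N * ∑ i ∈ univ.filter (fun i => i ∉ R),
            #(univ.filter (fun h : I → V => pos i (h i) ∈ cert h)) := by
          apply Nat.mul_le_mul_left
          refine le_trans (Finset.card_le_card ?_) Finset.card_biUnion_le
          intro h hh
          obtain ⟨i, hi, hh⟩ := (Finset.mem_filter.1 hh).2
          rw [Finset.mem_biUnion]
          exact ⟨i, Finset.mem_filter.2 ⟨Finset.mem_univ _, hi⟩,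
            Finset.mem_filter.2 ⟨Finset.mem_univ _, hh⟩⟩
      _ = ∑ i ∈ univ.filter (fun i => i ∉ R),
            ∑ h : I → V, #(univ.filter (fun v : V => pos i v ∈ cert h)) := by
          rw [Finset.mul_sum]
          apply Finset.sum_congr rfl
          intro i hi
          exact h1 i (Finset.mem_filter.1 hi).2
      _ ≤ ∑ i, ∑ h : I → V, #(univ.filter (fun v : V => pos i v ∈ cert h)) :=
          Finset.sum_le_sum_of_subset (Finset.filter_subset _ _)
      _ = ∑ h : I → V, ∑ i, #(univ.filter (fun v : V => pos i v ∈ cert h)) :=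
          Finset.sum_comm
      _ ≤ ∑ h : I → V, w := Finset.sum_le_sum fun h _ => h2 h
      _ = w * Fintype.card (I → V) := by
          rw [Finset.sum_const, Finset.card_univ, smul_eq_mul, mul_comm]
  have h4 : N * (2 * #(univ.filter (fun h : I → V => ∃ i, i ∉ R ∧ pos i (h i) ∈ cert h))) ≤
      N * Fintype.card (I → V) := by
    calc _ = 2 * (N * #(univ.filter (fun h : I → V => ∃ i, i ∉ R ∧ pos i (h i) ∈ cert h))) := by
          ring
      _ ≤ 2 * (w * Fintype.card (I → V)) := Nat.mul_le_mul_left _ h3
      _ = (2 * w) * Fintype.card (I → V) := by ring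
      _ ≤ _ := Nat.mul_le_mul_right _ hw
  exact Nat.le_of_mul_le_mul_left h4 hNpos

omit [DecidableEq I] [DecidableEq E] in
open Classical in
/-- greedy covering: if everybody is satisfied by half of the choices, then few choices satisfy
everybody. -/
theorem greedy {H : Type} [Fintype H] [Nonempty H] (Good : X → H → Prop)
    (hG : ∀ x, 2 * #(univ.filter (fun h : H => ¬ Good x h)) ≤ Fintype.card H) (T : ℕ) :
    ∀ Z : Finset X, #Z < 2 ^ T → ∃ hs : ℕ → H, ∀ x ∈ Z, ∃ t < T, Good x (hs t) := by
  induction T with
  | zero =>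
    intro Z hZ
    have : Z = ∅ := by
      rw [← Finset.card_eq_zero]; omega
    subst this
    exact ⟨fun _ => Classical.arbitrary H, by simp⟩
  | succ T ih =>
    intro Z hZ
    obtain ⟨h, hh⟩ : ∃ h : H, 2 * #(Z.filter (fun x => ¬ Good x h)) ≤ #Z := by
      by_contra hcon
      push Not at hcon
      have e1 : ∑ h : H, #(Z.filter (fun x => ¬ Good x h)) =
          ∑ x ∈ Z, #(univ.filter (fun h : H => ¬ Good x h)) := by
        simp_rw [Finset.card_filter]
        exact Finset.sum_comm
      have e2 : 2 * ∑ x ∈ Z, #(univ.filter (fun h : H => ¬ Good x h)) ≤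
          #Z * Fintype.card H := by
        rw [Finset.mul_sum]
        calc _ ≤ ∑ x ∈ Z, Fintype.card H := Finset.sum_le_sum fun x _ => hG x
          _ = _ := by rw [Finset.sum_const, smul_eq_mul]
      have e3 : #Z * Fintype.card H < 2 * ∑ h : H, #(Z.filter (fun x => ¬ Good x h)) := by
        rw [Finset.mul_sum]
        calc #Z * Fintype.card H = ∑ _h : H, #Z := by
              rw [Finset.sum_const, smul_eq_mul, Finset.card_univ, mul_comm]
          _ < _ := Finset.sum_lt_sum_of_nonempty Finset.univ_nonempty fun h _ => hcon h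
      rw [e1] at e3
      omega
    obtain ⟨hs, hhs⟩ := ih (Z.filter (fun x => ¬ Good x h)) (by
      rw [pow_succ] at hZ; omega)
    refine ⟨fun t => if t = T then h else hs t, fun x hx => ?_⟩
    by_cases hg : Good x h
    · exact ⟨T, by omega, by simpa using hg⟩
    · obtain ⟨t, ht, hgt⟩ := hhs x (Finset.mem_filter.2 ⟨hx, hg⟩)
      refine ⟨t, by omega, ?_⟩
      change Good x (if t = T then h else hs t)
      rw [if_neg (by omega)]
      exact hgt

open Classical in
/-- The hiding lemma. -/
theorem hide [Nonempty V] [Fintype X] (pos : I → V → E)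
    (hpos : Function.Injective (fun p : I × V => pos p.1 p.2)) (w : ℕ)
    (hw : 2 * w ≤ Fintype.card V) (R : X → Set I) (cert : X → (I → V) → Finset E)
    (hcard : ∀ x h, #(cert x h) ≤ w)
    (hdep : ∀ x, ∀ h h' : I → V, (∀ i ∈ R x, h i = h' i) → cert x h = cert x h')
    (T : ℕ) (hT : Fintype.card X < 2 ^ T) :
    ∃ hs : ℕ → I → V, ∀ x, ∃ t < T, ∀ i, i ∉ R x → pos i (hs t i) ∉ cert x (hs t) := by
  obtain ⟨hs, hhs⟩ := greedy (fun (x : X) (h : I → V) => ∀ i, i ∉ R x → pos i (h i) ∉ cert x h)
    (fun x => by
      have := bad_one pos hpos w hw (R x) (cert x) (hcard x) (hdep x)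
      convert this using 5
      push Not
      rfl) T univ (by rwa [Finset.card_univ])
  exact ⟨hs, fun x => hhs x (Finset.mem_univ _)⟩

end Pool.Agent.H29.NW
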