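import Pool.Agent.H29.LiftGraph
import Pool.Agent.H29.NW.Hide

/-!
The test graphs: the live edges join hidden copies of structured vertices.
-/

open Finset

namespace Pool.Agent.H29.NW

open Pool.Agent.H29.Lift

variable {q r m L L' : ℕ}

/-- a block together with the data of its row and column -/
abbrev Sl (q m : ℕ) := Fin q × (Fn q m × Fn q m)

/-- the vertices: copies of slots, plain vertices, and universal vertices -/
abbrev Vt (q r m L L' : ℕ) := (Sl q m × Fin L) ⊕ ((Fin q × Fin L') ⊕ Fin r)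

/-- adjacency: `h` places the live edge of every slot, `z` says whether it is present -/
def ad (h : Sl q m → Fin L × Fin L') (z : Sl q m → Prop) : Vt q r m L L' → Vt q r m L L' → Prop
  | Sum.inl (s, _), Sum.inl (s', _) =>
      s.1 ≠ s'.1 ∧ s.2.1 s'.1 = s'.2.2 s.1 ∧ s.2.2 s'.1 = s'.2.1 s.1
  | Sum.inl (s, i), Sum.inr (Sum.inl (v, j)) => s.1 = v → h s = (i, j) ∧ z s
  | Sum.inr (Sum.inl (v, j)), Sum.inl (s, i) => s.1 = v → h s = (i, j) ∧ z s
  | Sum.inr (Sum.inl (v, _)), Sum.inr (Sum.inl (v', _)) => v ≠ v'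
  | Sum.inr (Sum.inr i), Sum.inr (Sum.inr j) => i ≠ j
  | Sum.inl _, Sum.inr (Sum.inr _) => True
  | Sum.inr (Sum.inr _), Sum.inl _ => True
  | Sum.inr (Sum.inl _), Sum.inr (Sum.inr _) => True
  | Sum.inr (Sum.inr _), Sum.inr (Sum.inl _) => True

def Gt (h : Sl q m → Fin L × Fin L') (z : Sl q m → Prop) : SimpleGraph (Vt q r m L L') where
  Adj := ad h z
  symm := ⟨by
    rintro (⟨s, i⟩ | ⟨v, j⟩ | i) (⟨s', i'⟩ | ⟨v', j'⟩ | i') h <;> simp only [ad] at h ⊢
    · exact ⟨h.1.symm, h.2.2.symm, h.2.1.symm⟩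
    · exact h
    · exact h
    · exact h.symm
    · exact h.symm⟩
  loopless := ⟨by
    rintro (⟨s, i⟩ | ⟨v, j⟩ | i) h <;> simp [ad] at h⟩

/-- the slots of the first input -/
def zx (x : Pt (Fin q × Fin q) m) (s : Sl q m) : Prop :=
  s.2 = (fun w => x (s.1, w), fun w => x (w, s.1))

/-- the slots whose constraint is satisfied with the second input -/
def zy (g : Gd (Fin q × Fin q) m) (c : Fin q → ZMod 2) (y : Pt (Fin q × Fin q) m)
    (s : Sl q m) : Prop :=
  OKc g c s.1 s.2 (fun w => y (s.1, w), fun w => y (w, s.1))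

theorem not_cliqueFree_of_map {V β : Type} [Fintype β] {G : SimpleGraph V} (f : β → V)
    (hf : ∀ b b', b ≠ b' → G.Adj (f b) (f b')) {k : ℕ} (hk : Fintype.card β = k) :
    ¬ G.CliqueFree k := by
  classical
  intro hfree
  have hinj : Function.Injective f := by
    intro b b' hbb
    by_contra hne
    exact (hf b b' hne).ne hbb
  apply hfree (univ.image f)
  constructor
  · intro v hv w hw hvw
    rw [Finset.mem_coe, Finset.mem_image] at hv hw
    obtain ⟨b, -, rfl⟩ := hv
    obtain ⟨b', -, rfl⟩ := hw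
    exact hf b b' (fun h => hvw (by rw [h]))
  · rw [Finset.card_image_of_injective _ hinj, Finset.card_univ, hk]

/-- the graphs of first inputs have a clique -/
theorem pos_clique (h : Sl q m → Fin L × Fin L') (x : Pt (Fin q × Fin q) m) :
    ¬ (Gt (r := r) h (zx x)).CliqueFree (2 * q + r) := by
  let sl : Fin q → Sl q m := fun u => (u, (fun w => x (u, w), fun w => x (w, u)))
  let f : Blk q r → Vt q r m L L' := fun b => match b with
    | Sum.inl (false, u) => Sum.inl (sl u, (h (sl u)).1)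
    | Sum.inl (true, u) => Sum.inr (Sum.inl (u, (h (sl u)).2))
    | Sum.inr i => Sum.inr (Sum.inr i)
  apply not_cliqueFree_of_map f
  · rintro (⟨_ | _, u⟩ | i) (⟨_ | _, u'⟩ | i') hne
    · exact ⟨fun hu => hne (by rw [show u = u' from hu]), rfl, rfl⟩
    · intro hu
      change u = u' at hu
      subst hu
      exact ⟨rfl, rfl⟩
    · trivial
    · intro hu
      change u' = u at hu
      subst hu
      exact ⟨rfl, rfl⟩
    · exact fun hu => hne (by rw [show u = u' from hu])
    · trivial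
    · trivial
    · trivial
    · exact fun hu => hne (by rw [show i = i' from hu])
  · simp only [Fintype.card_sum, Fintype.card_prod, Fintype.card_bool, Fintype.card_fin]

/-- the graphs of second inputs have no clique -/
theorem neg_cliqueFree (g : Gd (Fin q × Fin q) m) (c : Fin q → ZMod 2) (hc : ∑ u, c u = 1)
    (h : Sl q m → Fin L × Fin L') (y : Pt (Fin q × Fin q) m) (hm : 0 < m) :
    (Gt (r := r) h (zy g c y)).CliqueFree (2 * q + r) := by
  classical
  have hNeZero : NeZero m := ⟨by omega⟩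
  by_contra hcon
  rw [SimpleGraph.not_cliqueFree_iff_top_isContained] at hcon
  obtain ⟨f⟩ := hcon
  let φ : Vt q r m L L' → Vx q r m := fun v => match v with
    | Sum.inl (s, _) => (Sum.inl (false, s.1), s.2)
    | Sum.inr (Sum.inl (u, _)) => (Sum.inl (true, u), (fun w => y (u, w), fun w => y (w, u)))
    | Sum.inr (Sum.inr i) => (Sum.inr i, (fun _ => 0, fun _ => 0))
  have hφ : ∀ v w, (Gt h (zy g c y)).Adj v w → (G0 g c).Adj (φ v) (φ w) := by
    rintro (⟨s, i⟩ | ⟨v, j⟩ | i) (⟨s', i'⟩ | ⟨v', j'⟩ | i') had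
    · obtain ⟨h1, h2, h3⟩ := had
      exact ⟨by simpa [φ] using h1, h2, h3⟩
    · refine ⟨by simp [φ], ?_⟩
      intro huv
      subst huv
      exact (had rfl).2
    · exact ⟨by simp [φ], trivial⟩
    · refine ⟨by simp [φ], ?_⟩
      intro huv
      subst huv
      exact (had rfl).2
    · have h1 : v ≠ v' := had
      exact ⟨by simpa [φ] using h1, rfl, rfl⟩
    · exact ⟨by simp [φ], trivial⟩
    · exact ⟨by simp [φ], trivial⟩
    · exact ⟨by simp [φ], trivial⟩
    · have h1 : i ≠ i' := had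
      exact ⟨by simpa [φ] using h1, trivial⟩
  refine not_cliqueFree_of_map (G := G0 (r := r) g c) (fun b => φ (f b)) ?_
    (Fintype.card_fin (2 * q + r)) (cliqueFree g c hc)
  intro b b' hbb
  apply hφ
  exact f.toHom.map_adj (SimpleGraph.top_adj _ _ |>.2 hbb)

/-- the position of a live edge -/
def ps {n : ℕ} (emb : Vt q r m L L' ↪ Fin n) (s : Sl q m) (p : Fin L × Fin L') : Sym2 (Fin n) :=
  s(emb (Sum.inl (s, p.1)), emb (Sum.inr (Sum.inl (s.1, p.2))))

theorem ps_injective {n : ℕ} (emb : Vt q r m L L' ↪ Fin n) :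
    Function.Injective (fun p : Sl q m × (Fin L × Fin L') => ps emb p.1 p.2) := by
  rintro ⟨s, i, j⟩ ⟨s', i', j'⟩ h
  simp only [ps, Sym2.eq_iff, emb.injective.eq_iff, Sum.inl.injEq, Prod.mk.injEq, Sum.inr.injEq,
    reduceCtorEq, and_false, or_false] at h
  obtain ⟨⟨h1, h2⟩, h3, h4⟩ := h
  simp [h1, h2, h4]

/-- the test graph on `Fin n`, without filling -/
def Gm {n : ℕ} (emb : Vt q r m L L' ↪ Fin n) (h : Sl q m → Fin L × Fin L') (z : Sl q m → Prop) :
    SimpleGraph (Fin n) := (Gt h z).map emb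

/-- a filling: a triangle-free graph on the other vertices -/
structure Fil {n : ℕ} (emb : Vt q r m L L' ↪ Fin n) where
  gr : SimpleGraph (Fin n)
  out : ∀ x y, gr.Adj x y → x ∉ Set.range emb
  free : gr.CliqueFree 3

/-- the test graph on `Fin n` -/
def Gn {n : ℕ} (emb : Vt q r m L L' ↪ Fin n) (f : Fil emb) (h : Sl q m → Fin L × Fin L')
    (z : Sl q m → Prop) : SimpleGraph (Fin n) := Gm emb h z ⊔ f.gr

theorem mem_live_m {n : ℕ} (emb : Vt q r m L L' ↪ Fin n) (h : Sl q m → Fin L × Fin L')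
    (z : Sl q m → Prop) (s : Sl q m) : ps emb s (h s) ∈ (Gm emb h z).edgeSet ↔ z s := by
  unfold ps Gm
  rw [SimpleGraph.mem_edgeSet, SimpleGraph.map_adj_apply]
  change (s.1 = s.1 → h s = ((h s).1, (h s).2) ∧ z s) ↔ z s
  simp

theorem mem_live {n : ℕ} (emb : Vt q r m L L' ↪ Fin n) (f : Fil emb)
    (h : Sl q m → Fin L × Fin L')
    (z : Sl q m → Prop) (s : Sl q m) : ps emb s (h s) ∈ (Gn emb f h z).edgeSet ↔ z s := by
  unfold Gn
  rw [SimpleGraph.edgeSet_sup, Set.mem_union, mem_live_m]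
  constructor
  · rintro (h1 | h1)
    · exact h1
    · exfalso
      unfold ps at h1
      rw [SimpleGraph.mem_edgeSet] at h1
      exact f.out _ _ h1 ⟨_, rfl⟩
  · exact Or.inl

theorem mem_dead_m {n : ℕ} (emb : Vt q r m L L' ↪ Fin n) (h : Sl q m → Fin L × Fin L')
    (z z' : Sl q m → Prop) (e : Sym2 (Fin n)) (he : ∀ s, e ≠ ps emb s (h s)) :
    e ∈ (Gm emb h z).edgeSet → e ∈ (Gm emb h z').edgeSet := by
  induction e using Sym2.ind with
  | _ a b =>
    unfold Gm
    rw [SimpleGraph.mem_edgeSet, SimpleGraph.mem_edgeSet, SimpleGraph.map_adj,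
      SimpleGraph.map_adj]
    rintro ⟨v, w, had, rfl, rfl⟩
    refine ⟨v, w, ?_, rfl, rfl⟩
    rcases v with ⟨s, i⟩ | ⟨v, j⟩ | i <;> rcases w with ⟨s', i'⟩ | ⟨v', j'⟩ | i'
    · exact had
    · intro hs
      obtain ⟨h1, h2⟩ := had hs
      exfalso
      apply he s
      change s.1 = v' at hs
      subst hs
      rw [h1]
      rfl
    · trivial
    · intro hs
      obtain ⟨h1, h2⟩ := had hs
      exfalso
      apply he s'
      change s'.1 = v at hs
      subst hs
      rw [h1]
      exact Sym2.eq_swap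
    · exact had
    · trivial
    · trivial
    · trivial
    · exact had

theorem mem_dead {n : ℕ} (emb : Vt q r m L L' ↪ Fin n) (f : Fil emb)
    (h : Sl q m → Fin L × Fin L')
    (z z' : Sl q m → Prop) (e : Sym2 (Fin n)) (he : ∀ s, e ≠ ps emb s (h s)) :
    e ∈ (Gn emb f h z).edgeSet → e ∈ (Gn emb f h z').edgeSet := by
  unfold Gn
  rw [SimpleGraph.edgeSet_sup, SimpleGraph.edgeSet_sup, Set.mem_union, Set.mem_union]
  rintro (h1 | h1)
  · exact Or.inl (mem_dead_m emb h z z' e he h1)
  · exact Or.inr h1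

/-- the graph of a first input depends only on the placement of its own slots -/
theorem Gn_congr {n : ℕ} (emb : Vt q r m L L' ↪ Fin n) (f : Fil emb)
    (h h' : Sl q m → Fin L × Fin L')
    (z : Sl q m → Prop) (hh : ∀ s, z s → h s = h' s) : Gn emb f h z = Gn emb f h' z := by
  have : ∀ h h' : Sl q m → Fin L × Fin L', (∀ s, z s → h s = h' s) →
      ∀ v w : Vt q r m L L', ad h z v w → ad h' z v w := by
    intro h h' hh v w had
    rcases v with ⟨s, i⟩ | ⟨v, j⟩ | i <;> rcases w with ⟨s', i'⟩ | ⟨v', j'⟩ | i'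
    · exact had
    · intro hs
      obtain ⟨h1, h2⟩ := had hs
      exact ⟨(hh s h2) ▸ h1, h2⟩
    · trivial
    · intro hs
      obtain ⟨h1, h2⟩ := had hs
      exact ⟨(hh s' h2) ▸ h1, h2⟩
    · exact had
    · trivial
    · trivial
    · trivial
    · exact had
  unfold Gn Gm
  congr 2
  ext v w
  exact ⟨this h h' hh v w, this h' h (fun s hs => (hh s hs).symm) v w⟩

/-- the filling creates no cliques -/
theorem Gn_cliqueFree {n : ℕ} (emb : Vt q r m L L' ↪ Fin n) (f : Fil emb)
    (h : Sl q m → Fin L × Fin L') (z : Sl q m → Prop) {k : ℕ} (hk : 3 ≤ k) :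
    (Gn emb f h z).CliqueFree k ↔ (Gt (r := r) h z).CliqueFree k := by
  classical
  constructor
  · intro hf
    have h1 : (Gm emb h z).CliqueFree k := hf.anti (le_sup_left)
    by_cases hne : Nonempty (Vt q r m L L')
    · exact SimpleGraph.cliqueFree_map_iff.1 h1
    · intro s hs
      have : s = ∅ := by
        rw [Finset.eq_empty_iff_forall_notMem]
        intro v _
        exact hne ⟨v⟩
      rw [this] at hs
      have := hs.card_eq
      simp at this
      omega
  · intro hf s hs
    have hadj : ∀ v ∈ s, ∀ w ∈ s, v ≠ w → (Gn emb f h z).Adj v w := fun v hv w hw hvw =>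
      hs.isClique (Finset.mem_coe.2 hv) (Finset.mem_coe.2 hw) hvw
    by_cases hall : ∀ v ∈ s, v ∈ Set.range emb
    · -- a clique of the main part
      have hne : Nonempty (Vt q r m L L') := by
        have : s.Nonempty := by
          rw [← Finset.card_pos, hs.card_eq]; omega
        obtain ⟨v, hv⟩ := this
        obtain ⟨v', -⟩ := hall v hv
        exact ⟨v'⟩
      have h1 : (Gm emb h z).CliqueFree k := SimpleGraph.cliqueFree_map_iff.2 hf
      apply h1 s
      refine ⟨?_, hs.card_eq⟩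
      intro v hv w hw hvw
      have h2 := hadj v (Finset.mem_coe.1 hv) w (Finset.mem_coe.1 hw) hvw
      unfold Gn at h2
      rw [SimpleGraph.sup_adj] at h2
      rcases h2 with h2 | h2
      · exact h2
      · exact absurd (hall v (Finset.mem_coe.1 hv)) (f.out _ _ h2)
    · -- a clique of the filling
      push Not at hall
      obtain ⟨v, hv, hvr⟩ := hall
      have hm : ∀ a b, (Gm emb h z).Adj a b → a ∈ Set.range emb ∧ b ∈ Set.range emb := by
        intro a b hab
        unfold Gm at hab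
        rw [SimpleGraph.map_adj] at hab
        obtain ⟨a', b', -, h1, h2⟩ := hab
        exact ⟨⟨a', h1⟩, ⟨b', h2⟩⟩
      have h1 : ∀ w ∈ s, w ∉ Set.range emb := by
        intro w hw
        by_cases hvw : v = w
        · rw [← hvw]; exact hvr
        · have h2 := hadj v hv w hw hvw
          unfold Gn at h2
          rw [SimpleGraph.sup_adj] at h2
          rcases h2 with h2 | h2
          · exact absurd (hm _ _ h2).1 hvr
          · exact f.out _ _ h2.symm
      have h2 : ∀ a ∈ s, ∀ b ∈ s, a ≠ b → f.gr.Adj a b := by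
        intro a ha b hb hab
        have h3 := hadj a ha b hb hab
        unfold Gn at h3
        rw [SimpleGraph.sup_adj] at h3
        rcases h3 with h3 | h3
        · exact absurd (hm _ _ h3).1 (h1 a ha)
        · exact h3
      have h3 : f.gr.CliqueFree k := f.free.mono hk
      exact h3 s ⟨fun a ha b hb hab => h2 a (Finset.mem_coe.1 ha) b (Finset.mem_coe.1 hb) hab,
        hs.card_eq⟩

/-- all test graphs have nearly the same number of edges -/
theorem Gn_edges {n : ℕ} (emb : Vt q r m L L' ↪ Fin n) (f : Fil emb) (a : ℕ)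
    (ha : ∀ h, (Gn emb f h (fun _ => False)).edgeSet.ncard = a)
    (h : Sl q m → Fin L × Fin L') (z : Sl q m → Prop) :
    a ≤ (Gn emb f h z).edgeSet.ncard ∧
    (Gn emb f h z).edgeSet.ncard ≤ a + Fintype.card (Sl q m) := by
  classical
  have hsub1 : (Gn emb f h (fun _ => False)).edgeSet ⊆ (Gn emb f h z).edgeSet := by
    intro e he
    by_cases hh : ∃ s, e = ps emb s (h s)
    · obtain ⟨s, rfl⟩ := hh
      exact absurd ((mem_live emb f h _ s).1 he) (fun h => h)
    · push Not at hh
      exact mem_dead emb f h _ _ e hh he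
  have hsub2 : (Gn emb f h z).edgeSet ⊆ (Gn emb f h (fun _ => False)).edgeSet ∪
      (fun s : Sl q m => ps emb s (h s)) '' Set.univ := by
    intro e he
    by_cases hh : ∃ s, e = ps emb s (h s)
    · obtain ⟨s, rfl⟩ := hh
      exact Or.inr ⟨s, Set.mem_univ _, rfl⟩
    · push Not at hh
      exact Or.inl (mem_dead emb f h _ _ e hh he)
  constructor
  · rw [← ha h]
    exact Set.ncard_le_ncard hsub1 (Set.toFinite _)
  · refine (Set.ncard_le_ncard hsub2 (Set.toFinite _)).trans ((Set.ncard_union_le _ _).trans ?_)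
    rw [ha h]
    refine Nat.add_le_add_left ((Set.ncard_image_le (Set.toFinite _)).trans ?_) _
    rw [Set.ncard_univ, Nat.card_eq_fintype_card]

/-- the number of fixed edges can be prescribed -/
theorem exists_fil {n p : ℕ} (emb : Vt q r m L L' ↪ Fin n) (em : Fin p ⊕ Fin p ↪ Fin n)
    (hdis : ∀ x, em x ∉ Set.range emb) (a : ℕ)
    (h1 : Fintype.card (Vt q r m L L') ^ 2 ≤ a) (h2 : a ≤ p * p) :
    ∃ f : Fil emb, ∀ h, (Gn emb f h (fun _ => False)).edgeSet.ncard = a := by
  classical
  -- the number of edges of the main part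
  by_cases hV : Nonempty (Sl q m → Fin L × Fin L')
  swap
  · refine ⟨⟨⊥, fun x y h => absurd h (by simp), SimpleGraph.cliqueFree_bot (by norm_num)⟩,
      fun h => absurd ⟨h⟩ hV⟩
  obtain ⟨h₀⟩ := hV
  have hindep : ∀ h, Gm emb h (fun _ => False) = Gm emb h₀ (fun _ => False) := by
    intro h
    have h3 := Gn_congr emb ⟨⊥, fun x y h => absurd h (by simp),
      SimpleGraph.cliqueFree_bot (by norm_num)⟩ h h₀ (fun _ => False) (fun s hs => hs.elim)
    unfold Gn at h3
    simpa using h3
  set e₀ := (Gm emb h₀ (fun _ => False)).edgeSet.ncard with he₀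
  have hcore : e₀ ≤ Fintype.card (Vt q r m L L') ^ 2 := by
    have h3 : (Gm emb h₀ (fun _ => False)).edgeSet ⊆
        (fun x : Vt q r m L L' × Vt q r m L L' => s(emb x.1, emb x.2)) '' Set.univ := by
      intro e he
      induction e using Sym2.ind with
      | _ x y =>
        unfold Gm at he
        rw [SimpleGraph.mem_edgeSet, SimpleGraph.map_adj] at he
        obtain ⟨x', y', -, h4, h5⟩ := he
        exact ⟨(x', y'), Set.mem_univ _, by rw [← h4, ← h5]⟩
    refine (Set.ncard_le_ncard h3 (Set.toFinite _)).trans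
      ((Set.ncard_image_le (Set.toFinite _)).trans ?_)
    rw [Set.ncard_univ, Nat.card_eq_fintype_card, Fintype.card_prod, sq]
  have hle : a - e₀ ≤ (univ : Finset (Fin p × Fin p)).card := by
    rw [Finset.card_univ, Fintype.card_prod, Fintype.card_fin]
    omega
  obtain ⟨J, _, hJ⟩ := Finset.exists_subset_card_eq hle
  -- the filling
  let F : SimpleGraph (Fin n) :=
    { Adj := fun x y => ∃ i j, (i, j) ∈ J ∧
        ((x = em (Sum.inl i) ∧ y = em (Sum.inr j)) ∨ (y = em (Sum.inl i) ∧ x = em (Sum.inr j)))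
      symm := ⟨fun x y ⟨i, j, hij, h⟩ => ⟨i, j, hij, h.symm⟩⟩
      loopless := ⟨fun x ⟨i, j, _, h⟩ => by
        rcases h with ⟨h3, h4⟩ | ⟨h3, h4⟩
        · exact absurd (em.injective (h3.symm.trans h4)) (by simp)
        · exact absurd (em.injective (h3.symm.trans h4)) (by simp)⟩ }
  have hFout : ∀ x y, F.Adj x y → x ∉ Set.range emb := by
    rintro x y ⟨i, j, -, ⟨rfl, -⟩ | ⟨-, rfl⟩⟩
    · exact hdis _
    · exact hdis _
  have hFfree : F.CliqueFree 3 := by
    intro s hs
    rw [SimpleGraph.is3Clique_iff] at hs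
    obtain ⟨x, y, z, hxy, hxz, hyz, -⟩ := hs
    obtain ⟨i, j, -, h3⟩ := hxy
    obtain ⟨i', j', -, h4⟩ := hxz
    obtain ⟨i'', j'', -, h5⟩ := hyz
    rcases h3 with ⟨h3, h3'⟩ | ⟨h3, h3'⟩ <;> rcases h4 with ⟨h4, h4'⟩ | ⟨h4, h4'⟩ <;>
      rcases h5 with ⟨h5, h5'⟩ | ⟨h5, h5'⟩ <;>
      simp_all [em.injective.eq_iff]
  have hFcard : F.edgeSet.ncard = #J := by
    have h3 : F.edgeSet = (fun x : Fin p × Fin p => s(em (Sum.inl x.1), em (Sum.inr x.2))) '' J := by
      ext e
      induction e using Sym2.ind with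
      | _ x y =>
        rw [SimpleGraph.mem_edgeSet, Set.mem_image]
        constructor
        · rintro ⟨i, j, hij, ⟨h4, h5⟩ | ⟨h4, h5⟩⟩
          · exact ⟨(i, j), hij, by rw [h4, h5]⟩
          · exact ⟨(i, j), hij, by rw [h4, h5]; exact Sym2.eq_swap⟩
        · rintro ⟨x', hx', h4⟩
          rw [Sym2.eq_iff] at h4
          rcases h4 with ⟨h4, h5⟩ | ⟨h4, h5⟩
          · exact ⟨x'.1, x'.2, hx', Or.inl ⟨h4.symm, h5.symm⟩⟩
          · exact ⟨x'.1, x'.2, hx', Or.inr ⟨h4.symm, h5.symm⟩⟩
    rw [h3, Set.ncard_image_of_injective _ ?_, Set.ncard_coe_finset]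
    intro x x' h
    simp only [Sym2.eq_iff, em.injective.eq_iff, Sum.inl.injEq, Sum.inr.injEq, reduceCtorEq,
      and_false, or_false] at h
    exact Prod.ext h.1 h.2
  refine ⟨⟨F, hFout, hFfree⟩, fun h => ?_⟩
  unfold Gn
  rw [hindep h, SimpleGraph.edgeSet_sup, Set.ncard_union_eq ?_ (Set.toFinite _) (Set.toFinite _),
    ← he₀]
  · change e₀ + F.edgeSet.ncard = a
    rw [hFcard, hJ]
    omega
  · rw [Set.disjoint_left]
    intro e he he'
    induction e using Sym2.ind with
    | _ x y =>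
      unfold Gm at he
      rw [SimpleGraph.mem_edgeSet, SimpleGraph.map_adj] at he
      obtain ⟨x', y', -, h4, h5⟩ := he
      rw [SimpleGraph.mem_edgeSet] at he'
      exact hFout x y he' ⟨x', h4⟩

end Pool.Agent.H29.NW
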