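import Pool.Agent.H29.ChAsymp
import Pool.Agent.H29.NW.Graph
import Pool.Agent.H29.NW.Circuit

/-!
From circuits of bounded width to the dags of the lifting theorem.
-/

open Finset

namespace Pool.Agent.H29.NW

open Pool.Agent.H29.Lift

/-- the relation is a comparison of a number of the first side with one of the second -/
def Thr {X : Type} (F : X → X → Prop) : Prop := ∃ a b : X → ℝ, ∀ x y, F x y ↔ a x < b y

theorem thr_and {X : Type} (α β : X → Prop) : Thr (fun x y => α x ∧ β y) := by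
  classical
  refine ⟨fun x => if α x then 0 else 2, fun y => if β y then 1 else -1, fun x y => ?_⟩
  by_cases h1 : α x <;> by_cases h2 : β y <;> simp [h1, h2] <;> norm_num

/-- enumeration along a rank function -/
theorem exists_enum {J : Type} [Fintype J] (ρ : J → ℕ) :
    ∃ e : J ≃ Fin (Fintype.card J), ∀ j j', ρ j < ρ j' → e j < e j' := by
  let e0 := Fintype.equivFin J
  let f : Fin (Fintype.card J) → ℕ := fun i => ρ (e0.symm i)
  have hmono := Tuple.monotone_sort f
  refine ⟨e0.trans (Tuple.sort f).symm, fun j j' h => ?_⟩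
  by_contra hcon
  have h1 := hmono (not_lt.1 hcon)
  simp [f] at h1
  omega

variable {E : Type} [Fintype E] [DecidableEq E]

/-- the lifting theorem for dags indexed by a finite type with a rank function -/
theorem dag_lower {w t₀ D : ℕ} {H : Finset E → (E → Bool) → Prop} (hH : Adv H w)
    (hD : 4 * D ≤ w) (hDt : 2 * D + t₀ ≤ w) (hE : 1 ≤ Fintype.card E) (ε : ℝ) (hε : 0 < ε) :
    ∃ m₀ : ℕ, 1 ≤ m₀ ∧ ∀ m : ℕ, m₀ ≤ m → ∃ g : Gd E m, ∀ (J : Type) [Fintype J] (ρ : J → ℕ)
      (F : J → Pt E m → Pt E m → Prop), (∀ j, Thr (F j)) →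
      (∀ j, (∃ K : Finset E, #K ≤ t₀ ∧ ∀ x y, F j x y → ¬ H K (gv g x y)) ∨
        (∃ i l, ρ i < ρ j ∧ ρ l < ρ j ∧ ∀ x y, F j x y → (F i x y ∨ F l x y))) →
      (∃ j, ∀ x y, F j x y) →
      (m : ℝ) ^ ((D : ℝ) + 1 - ε) ≤ Fintype.card J := by
  obtain ⟨m₀, hm₀, hm⟩ := Pool.Agent.H29.Ch.lift_asymp hH hD hDt hE ε hε
  refine ⟨m₀, hm₀, fun m hmm => ?_⟩
  obtain ⟨g, hg⟩ := hm m hmm
  refine ⟨g, fun J _ ρ F hthr hnode hroot => ?_⟩
  choose a b hab using hthr
  obtain ⟨e, he⟩ := exists_enum ρ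
  refine hg (Fintype.card J)
    (fun i x => if h : i < Fintype.card J then a (e.symm ⟨i, h⟩) x else 0)
    (fun i y => if h : i < Fintype.card J then b (e.symm ⟨i, h⟩) y else 0) ?_ ?_
  · intro i hi
    rcases hnode (e.symm ⟨i, hi⟩) with ⟨K, hK, h⟩ | ⟨j, l, hj, hl, h⟩
    · left
      refine ⟨K, hK, fun x y hxy => h x y ?_⟩
      rw [hab]
      simpa only [dif_pos hi] using hxy
    · right
      have hj' := he _ _ hj
      have hl' := he _ _ hl
      rw [Equiv.apply_symm_apply] at hj' hl'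
      refine ⟨e j, hj', e l, hl', fun x y hxy => ?_⟩
      simp only [dif_pos hi, Fin.is_lt, dif_pos, Fin.eta, Equiv.symm_apply_apply] at hxy ⊢
      rw [← hab, ← hab]
      apply h
      rw [hab]
      exact hxy
  · obtain ⟨j, hj⟩ := hroot
    refine ⟨e j, (e j).2, fun x y => ?_⟩
    simp only [Fin.is_lt, dif_pos, Fin.eta, Equiv.symm_apply_apply]
    rw [← hab]
    exact hj x y

end Pool.Agent.H29.NW
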