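import Mathlib

/-!
Generic test graphs: the live edges join hidden copies of slots (a block together with data) with
plain vertices of the same block.
-/

open Finset

namespace Pool.Agent.H29.NW.GG

variable {B D : Type} {r L L' n : ℕ}

/-- the vertices: copies of slots, plain vertices, and universal vertices -/
abbrev Vt (B D : Type) (r L L' : ℕ) := ((B × D) × Fin L) ⊕ ((B × Fin L') ⊕ Fin r)

/-- adjacency: `h` places the live edge of every slot, `z` says whether it is present -/
def ad (co : B × D → B × D → Prop) (h : B × D → Fin L × Fin L') (z : B × D → Prop) :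
    Vt B D r L L' → Vt B D r L L' → Prop
  | Sum.inl (s, _), Sum.inl (s', _) => s.1 ≠ s'.1 ∧ co s s' ∧ co s' s
  | Sum.inl (s, i), Sum.inr (Sum.inl (v, j)) => s.1 = v → h s = (i, j) ∧ z s
  | Sum.inr (Sum.inl (v, j)), Sum.inl (s, i) => s.1 = v → h s = (i, j) ∧ z s
  | Sum.inr (Sum.inl (v, _)), Sum.inr (Sum.inl (v', _)) => v ≠ v'
  | Sum.inr (Sum.inr i), Sum.inr (Sum.inr j) => i ≠ j
  | Sum.inl _, Sum.inr (Sum.inr _) => True
  | Sum.inr (Sum.inr _), Sum.inl _ => True
  | Sum.inr (Sum.inl _), Sum.inr (Sum.inr _) => True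
  | Sum.inr (Sum.inr _), Sum.inr (Sum.inl _) => True

def Gt (co : B × D → B × D → Prop) (h : B × D → Fin L × Fin L') (z : B × D → Prop) :
    SimpleGraph (Vt B D r L L') where
  Adj := ad co h z
  symm := ⟨by
    rintro (⟨s, i⟩ | ⟨v, j⟩ | i) (⟨s', i'⟩ | ⟨v', j'⟩ | i') h <;> simp only [ad] at h ⊢
    · exact ⟨h.1.symm, h.2.2, h.2.1⟩
    · exact h
    · exact h
    · exact h.symm
    · exact h.symm⟩
  loopless := ⟨by
    rintro (⟨s, i⟩ | ⟨v, j⟩ | i) h <;> simp [ad] at h⟩

theorem not_cliqueFree_of_map {V β : Type} [Fintype β] {G : SimpleGraph V} (f : β → V)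
    (hf : ∀ b b', b ≠ b' → G.Adj (f b) (f b')) {k : ℕ} (hk : Fintype.card β = k) :
    ¬ G.CliqueFree k := by
  classical
  intro hfree
  have hinj : Function.Injective f := by
    intro b b' hbb
    by_contra hne
    exact (hf b b' hne).ne hbb
  apply hfree (univ.image f)
  constructor
  · intro v hv w hw hvw
    rw [Finset.mem_coe, Finset.mem_image] at hv hw
    obtain ⟨b, -, rfl⟩ := hv
    obtain ⟨b', -, rfl⟩ := hw
    exact hf b b' (fun h => hvw (by rw [h]))
  · rw [Finset.card_image_of_injective _ hinj, Finset.card_univ, hk]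

/-- a consistent choice of present slots gives a clique -/
theorem pos_clique [Fintype B] (co : B × D → B × D → Prop) (h : B × D → Fin L × Fin L')
    (z : B × D → Prop) (σ : B → D) (hσ : ∀ b b', b ≠ b' → co (b, σ b) (b', σ b'))
    (hz : ∀ b, z (b, σ b)) {k : ℕ} (hk : 2 * Fintype.card B + r = k) :
    ¬ (Gt (r := r) co h z).CliqueFree k := by
  let f : (Bool × B) ⊕ Fin r → Vt B D r L L' := fun b => match b with
    | Sum.inl (false, u) => Sum.inl ((u, σ u), (h (u, σ u)).1)
    | Sum.inl (true, u) => Sum.inr (Sum.inl (u, (h (u, σ u)).2))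
    | Sum.inr i => Sum.inr (Sum.inr i)
  apply not_cliqueFree_of_map f
  · rintro (⟨_ | _, u⟩ | i) (⟨_ | _, u'⟩ | i') hne
    · have hu : u ≠ u' := fun hu => hne (by rw [hu])
      exact ⟨hu, hσ _ _ hu, hσ _ _ hu.symm⟩
    · intro hu
      change u = u' at hu
      subst hu
      exact ⟨rfl, hz u⟩
    · trivial
    · intro hu
      change u' = u at hu
      subst hu
      exact ⟨rfl, hz u'⟩
    · exact fun hu => hne (by rw [show u = u' from hu])
    · trivial
    · trivial
    · trivial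
    · exact fun hu => hne (by rw [show i = i' from hu])
  · simp only [Fintype.card_sum, Fintype.card_prod, Fintype.card_bool, Fintype.card_fin]
    exact hk

/-- a clique gives a consistent choice of present slots -/
theorem of_clique [Fintype B] (co : B × D → B × D → Prop) (h : B × D → Fin L × Fin L')
    (z : B × D → Prop) {k : ℕ} (hk : 2 * Fintype.card B + r = k)
    (hc : ¬ (Gt (r := r) co h z).CliqueFree k) :
    ∃ σ : B → D, (∀ b b', b ≠ b' → co (b, σ b) (b', σ b')) ∧ ∀ b, z (b, σ b) := by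
  classical
  unfold SimpleGraph.CliqueFree at hc
  push Not at hc
  obtain ⟨s, hs⟩ := hc
  let bl : Vt B D r L L' → (Bool × B) ⊕ Fin r := fun v => match v with
    | Sum.inl (s, _) => Sum.inl (false, s.1)
    | Sum.inr (Sum.inl (u, _)) => Sum.inl (true, u)
    | Sum.inr (Sum.inr i) => Sum.inr i
  have hadj : ∀ v ∈ s, ∀ w ∈ s, v ≠ w → (Gt (r := r) co h z).Adj v w := fun v hv w hw hvw =>
    hs.isClique (Finset.mem_coe.2 hv) (Finset.mem_coe.2 hw) hvw
  have hblne : ∀ v w, (Gt (r := r) co h z).Adj v w → bl v = bl w → ∃ s i j,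
      (v = Sum.inl (s, i) ∧ w = Sum.inr (Sum.inl (s.1, j))) ∨
      (w = Sum.inl (s, i) ∧ v = Sum.inr (Sum.inl (s.1, j))) := by
    rintro (⟨s, i⟩ | ⟨v, j⟩ | i) (⟨s', i'⟩ | ⟨v', j'⟩ | i') had hbl
    · simp only [bl, Sum.inl.injEq, Prod.mk.injEq, true_and] at hbl
      exact absurd hbl had.1
    · simp [bl] at hbl
    · simp [bl] at hbl
    · simp [bl] at hbl
    · simp only [bl, Sum.inl.injEq, Prod.mk.injEq, true_and] at hbl
      exact absurd hbl had
    · simp [bl] at hbl
    · simp [bl] at hbl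
    · simp [bl] at hbl
    · simp only [bl, Sum.inr.injEq] at hbl
      exact absurd hbl had
  have hinj : Set.InjOn bl (s : Set (Vt B D r L L')) := by
    intro v hv w hw hvw
    by_contra hne
    obtain ⟨s', i, j, h1 | h1⟩ := hblne v w (hadj v hv w hw hne) hvw
    · rw [h1.1, h1.2] at hvw
      simp [bl] at hvw
    · rw [h1.1, h1.2] at hvw
      simp [bl] at hvw
  have himg : s.image bl = univ := by
    apply Finset.eq_univ_of_card
    rw [Finset.card_image_of_injOn hinj, hs.card_eq, ← hk]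
    simp [Fintype.card_sum, Fintype.card_prod]
  have hA : ∀ u : B, ∃ (d : D) (i : Fin L), (Sum.inl ((u, d), i) : Vt B D r L L') ∈ s := by
    intro u
    have h1 : (Sum.inl (false, u) : (Bool × B) ⊕ Fin r) ∈ s.image bl := by
      rw [himg]; exact Finset.mem_univ _
    rw [Finset.mem_image] at h1
    obtain ⟨v, hv, h2⟩ := h1
    rcases v with ⟨⟨u', d⟩, i⟩ | ⟨v, j⟩ | i
    · simp only [bl, Sum.inl.injEq, Prod.mk.injEq, true_and] at h2
      subst h2
      exact ⟨d, i, hv⟩
    · simp [bl] at h2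
    · simp [bl] at h2
  have hB : ∀ u : B, ∃ j : Fin L', (Sum.inr (Sum.inl (u, j)) : Vt B D r L L') ∈ s := by
    intro u
    have h1 : (Sum.inl (true, u) : (Bool × B) ⊕ Fin r) ∈ s.image bl := by
      rw [himg]; exact Finset.mem_univ _
    rw [Finset.mem_image] at h1
    obtain ⟨v, hv, h2⟩ := h1
    rcases v with ⟨⟨u', d⟩, i⟩ | ⟨v, j⟩ | i
    · simp [bl] at h2
    · simp only [bl, Sum.inl.injEq, Prod.mk.injEq, true_and] at h2
      subst h2
      exact ⟨j, hv⟩
    · simp [bl] at h2
  choose σ ι hσ using hA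
  choose j hj using hB
  refine ⟨σ, fun b b' hbb => ?_, fun b => ?_⟩
  · exact (hadj _ (hσ b) _ (hσ b') (fun h => hbb (by
      simp only [Sum.inl.injEq, Prod.mk.injEq] at h
      exact h.1.1))).2.1
  · exact ((hadj _ (hσ b) _ (hj b) (by simp)) rfl).2

/-- the position of a live edge -/
def ps (emb : Vt B D r L L' ↪ Fin n) (s : B × D) (p : Fin L × Fin L') : Sym2 (Fin n) :=
  s(emb (Sum.inl (s, p.1)), emb (Sum.inr (Sum.inl (s.1, p.2))))

theorem ps_injective (emb : Vt B D r L L' ↪ Fin n) :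
    Function.Injective (fun p : (B × D) × (Fin L × Fin L') => ps emb p.1 p.2) := by
  rintro ⟨s, i, j⟩ ⟨s', i', j'⟩ h
  simp only [ps, Sym2.eq_iff, emb.injective.eq_iff, Sum.inl.injEq, Prod.mk.injEq, Sum.inr.injEq,
    reduceCtorEq, and_false, or_false] at h
  obtain ⟨⟨h1, h2⟩, h3, h4⟩ := h
  simp [h1, h2, h4]

/-- the test graph on `Fin n` -/
def Gn (co : B × D → B × D → Prop) (emb : Vt B D r L L' ↪ Fin n) (h : B × D → Fin L × Fin L')
    (z : B × D → Prop) : SimpleGraph (Fin n) := (Gt co h z).map emb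

theorem mem_live (co : B × D → B × D → Prop) (emb : Vt B D r L L' ↪ Fin n)
    (h : B × D → Fin L × Fin L') (z : B × D → Prop) (s : B × D) :
    ps emb s (h s) ∈ (Gn co emb h z).edgeSet ↔ z s := by
  unfold ps Gn
  rw [SimpleGraph.mem_edgeSet, SimpleGraph.map_adj_apply]
  change (s.1 = s.1 → h s = ((h s).1, (h s).2) ∧ z s) ↔ z s
  simp

theorem mem_dead (co : B × D → B × D → Prop) (emb : Vt B D r L L' ↪ Fin n)
    (h : B × D → Fin L × Fin L') (z z' : B × D → Prop) (e : Sym2 (Fin n))
    (he : ∀ s, e ≠ ps emb s (h s)) :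
    e ∈ (Gn co emb h z).edgeSet → e ∈ (Gn co emb h z').edgeSet := by
  induction e using Sym2.ind with
  | _ a b =>
    unfold Gn
    rw [SimpleGraph.mem_edgeSet, SimpleGraph.mem_edgeSet, SimpleGraph.map_adj,
      SimpleGraph.map_adj]
    rintro ⟨v, w, had, rfl, rfl⟩
    refine ⟨v, w, ?_, rfl, rfl⟩
    rcases v with ⟨s, i⟩ | ⟨v, j⟩ | i <;> rcases w with ⟨s', i'⟩ | ⟨v', j'⟩ | i'
    · exact had
    · intro hs
      obtain ⟨h1, h2⟩ := had hs
      exfalso
      apply he s
      change s.1 = v' at hs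
      subst hs
      rw [h1]
      rfl
    · trivial
    · intro hs
      obtain ⟨h1, h2⟩ := had hs
      exfalso
      apply he s'
      change s'.1 = v at hs
      subst hs
      rw [h1]
      exact Sym2.eq_swap
    · exact had
    · trivial
    · trivial
    · trivial
    · exact had

theorem Gn_mono (co : B × D → B × D → Prop) (emb : Vt B D r L L' ↪ Fin n)
    (h : B × D → Fin L × Fin L') {z z' : B × D → Prop} (hz : ∀ s, z s → z' s) :
    (Gn co emb h z).edgeSet ⊆ (Gn co emb h z').edgeSet := by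
  intro e he
  by_cases hd : ∀ s, e ≠ ps emb s (h s)
  · exact mem_dead co emb h z z' e hd he
  · push Not at hd
    obtain ⟨s, rfl⟩ := hd
    rw [mem_live] at he ⊢
    exact hz s he

theorem Gn_congr (co : B × D → B × D → Prop) (emb : Vt B D r L L' ↪ Fin n)
    (h h' : B × D → Fin L × Fin L') (z : B × D → Prop) (hh : ∀ s, z s → h s = h' s) :
    Gn co emb h z = Gn co emb h' z := by
  have : ∀ h h' : B × D → Fin L × Fin L', (∀ s, z s → h s = h' s) →
      ∀ v w : Vt B D r L L', ad co h z v w → ad co h' z v w := by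
    intro h h' hh v w had
    rcases v with ⟨s, i⟩ | ⟨v, j⟩ | i <;> rcases w with ⟨s', i'⟩ | ⟨v', j'⟩ | i'
    · exact had
    · intro hs
      obtain ⟨h1, h2⟩ := had hs
      exact ⟨(hh s h2) ▸ h1, h2⟩
    · trivial
    · intro hs
      obtain ⟨h1, h2⟩ := had hs
      exact ⟨(hh s' h2) ▸ h1, h2⟩
    · exact had
    · trivial
    · trivial
    · trivial
    · exact had
  unfold Gn
  congr 1
  ext v w
  exact ⟨this h h' hh v w, this h' h (fun s hs => (hh s hs).symm) v w⟩

/-- everything outside the live edges is revealed -/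
def Yh (emb : Vt B D r L L' ↪ Fin n) (h : B × D → Fin L × Fin L') : Set (Sym2 (Fin n)) :=
  {e | ∀ s, e ≠ ps emb s (h s)}

theorem not_mem_Yh {emb : Vt B D r L L' ↪ Fin n} {h : B × D → Fin L × Fin L'}
    {e : Sym2 (Fin n)} (he : e ∉ Yh emb h) : ∃ s, e = ps emb s (h s) := by
  unfold Yh at he
  simp only [Set.mem_ofPred_eq] at he
  push Not at he
  exact he

end Pool.Agent.H29.NW.GG
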