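import Pool.Agent.H29.NW.Core

/-!
The lower bound in closed form.
-/

open Finset

namespace Pool.Agent.H29.NW

/-- the number of copies is negligible -/
theorem copies (q : ℕ) (hq : 16 ≤ q) : ∃ m₁ : ℕ, ∀ m : ℕ, m₁ ≤ m → 1 ≤ m →
    (((q ^ 2 * (Nat.log 2 m + 1) + 1) * (2 * q + 4) : ℕ) : ℝ) ≤ (m : ℝ) ^ ((1 : ℝ) / 4) := by
  refine ⟨(18 * q ^ 2 * (2 * q + 4)) ^ 8, fun m hm hm1 => ?_⟩
  have hmr : (1 : ℝ) ≤ m := by exact_mod_cast hm1
  have hm0 : (0 : ℝ) < m := by linarith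
  set y : ℝ := (m : ℝ) ^ ((1 : ℝ) / 8) with hy
  have hy1 : 1 ≤ y := Real.one_le_rpow hmr (by norm_num)
  have h1 : ((18 * q ^ 2 * (2 * q + 4) : ℕ) : ℝ) ≤ y := by
    have h2 : (((18 * q ^ 2 * (2 * q + 4) : ℕ) : ℝ) ^ (8 : ℕ)) ^ ((1 : ℝ) / 8) ≤ y := by
      apply Real.rpow_le_rpow (by positivity) _ (by norm_num)
      exact_mod_cast hm
    rw [← Real.rpow_natCast, ← Real.rpow_mul (by positivity)] at h2
    norm_num at h2 ⊢
    exact h2
  have h3 : (Nat.log 2 m : ℝ) ≤ 16 * y := by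
    have e1 : (Nat.log 2 m : ℝ) ≤ Real.logb 2 m := Real.natLog_le_logb m 2
    have e2 : Real.logb 2 m ≤ 2 * Real.log m := by
      unfold Real.logb
      rw [div_le_iff₀ (Real.log_pos (by norm_num))]
      have : 0 ≤ Real.log m := Real.log_nonneg hmr
      nlinarith [Real.log_two_gt_d9]
    have e3 : Real.log m ≤ (m : ℝ) ^ ((1 : ℝ) / 8) / (1 / 8) :=
      Real.log_le_rpow_div hm0.le (by norm_num)
    rw [← hy] at e3
    linarith
  have hqr : (16 : ℝ) ≤ q := by exact_mod_cast hq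
  have h4 : (((q ^ 2 * (Nat.log 2 m + 1) + 1) : ℕ) : ℝ) ≤ 18 * q ^ 2 * y := by
    push_cast
    have h5 : (q : ℝ) ^ 2 * (Nat.log 2 m + 1) ≤ q ^ 2 * (17 * y) := by
      apply mul_le_mul_of_nonneg_left _ (by positivity)
      linarith
    nlinarith
  have h6 : (m : ℝ) ^ ((1 : ℝ) / 4) = y * y := by
    rw [hy, ← Real.rpow_add hm0]; norm_num
  rw [h6]
  push_cast at h1 h4 ⊢
  calc ((q : ℝ) ^ 2 * (Nat.log 2 m + 1) + 1) * (2 * q + 4) ≤ (18 * q ^ 2 * y) * (2 * q + 4) :=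
        mul_le_mul_of_nonneg_right h4 (by positivity)
    _ = (18 * q ^ 2 * (2 * q + 4)) * y := by ring
    _ ≤ y * y := mul_le_mul_of_nonneg_right h1 (by linarith)

/-- The lower bound. -/
theorem lower (k : ℕ) (hk : 32 ≤ k) : ∃ K : ℝ, 0 < K ∧ ∀ n w a b : ℕ, a ≤ w ^ 2 →
    K * a ≤ (n : ℝ) ^ 2 → a + a / w ≤ b →
    ∀ (ι : Type) [Fintype ι] (C : Circuit n ι), C.Decides k w a b →
      ((a : ℝ) / (K * w)) ^ ((k : ℝ) / 70) ≤ Fintype.card ι := by
  obtain ⟨q, r, hkq, hr, hq⟩ : ∃ q r, 2 * q + r = k ∧ r ≤ 1 ∧ 16 ≤ q :=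
    ⟨k / 2, k % 2, by omega, by omega, by omega⟩
  obtain ⟨m₀, hm₀, hdag⟩ := dag q hq
  obtain ⟨m₁, hcop⟩ := copies q hq
  set m₂ := max m₀ m₁ with hm₂
  have hm₂1 : 1 ≤ m₂ := hm₀.trans (le_max_left _ _)
  refine ⟨((4 * (128 * q ^ 2 * (4 * m₂) ^ (2 * q)) : ℕ) : ℝ), by positivity, ?_⟩
  intro n' w e b hew hen heb ι _ C hC
  set K₀ : ℕ := 128 * q ^ 2 * (4 * m₂) ^ (2 * q) with hK₀
  have hι : 1 ≤ Fintype.card ι := Fintype.card_pos_iff.2 ⟨C.out⟩
  have hιr : (1 : ℝ) ≤ Fintype.card ι := by exact_mod_cast hι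
  have hKpos : 0 < K₀ := by positivity
  have hK25 : 25 ≤ 4 * K₀ := by
    have h1 : 0 < (4 * m₂) ^ (2 * q) := by positivity
    have h2 : 1 ≤ q ^ 2 * (4 * m₂) ^ (2 * q) := Nat.mul_pos (by positivity) h1
    have h3 : K₀ = 128 * (q ^ 2 * (4 * m₂) ^ (2 * q)) := by rw [hK₀]; ring
    omega
  rcases Nat.eq_zero_or_pos e with he0 | hepos
  · subst he0
    have : ((0 : ℕ) : ℝ) / (((4 * K₀ : ℕ) : ℝ) * w) = 0 := by norm_num
    rw [this, Real.zero_rpow (by positivity)]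
    linarith
  set n := Nat.sqrt e with hn
  have hn1 : n * n ≤ e := Nat.sqrt_le e
  have hn2 : e < (n + 1) * (n + 1) := Nat.lt_succ_sqrt e
  have hnpos : 0 < n := Nat.sqrt_pos.2 hepos
  have he4 : e ≤ 4 * n ^ 2 := by nlinarith
  have hnw : n ≤ w := by
    have h1 := Nat.sqrt_le_sqrt hew
    rwa [Nat.sqrt_eq'] at h1
  have hwpos : 0 < w := lt_of_lt_of_le hnpos hnw
  have hn5 : 5 * n ≤ n' := by
    have h1 : 4 * K₀ * e ≤ n' ^ 2 := by exact_mod_cast hen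
    have h2 : (5 * n) ^ 2 ≤ n' ^ 2 := by
      calc (5 * n) ^ 2 = 25 * (n * n) := by ring
        _ ≤ 25 * e := Nat.mul_le_mul_left _ hn1
        _ ≤ 4 * K₀ * e := Nat.mul_le_mul_right _ hK25
        _ ≤ n' ^ 2 := h1
    exact (Nat.pow_le_pow_iff_left (by norm_num)).1 h2
  by_cases hsmall : e < 4 * K₀ * w
  · refine le_trans ?_ hιr
    apply Real.rpow_le_one (by positivity) _ (by positivity)
    rw [div_le_one (by positivity)]
    have : ((e : ℕ) : ℝ) ≤ ((4 * K₀ * w : ℕ) : ℝ) := by exact_mod_cast hsmall.le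
    push_cast at this
    push_cast
    exact this
  push Not at hsmall
  -- choice of m
  let P : ℕ → Prop := fun m => 128 * q ^ 2 * m ^ (2 * q) * w ≤ n ^ 2
  set m := Nat.findGreatest P (n ^ 2) with hm
  have hPm₂ : P m₂ := by
    change 128 * q ^ 2 * m₂ ^ (2 * q) * w ≤ n ^ 2
    have h1 : 128 * q ^ 2 * m₂ ^ (2 * q) * w ≤ K₀ * w := by
      apply Nat.mul_le_mul_right
      rw [hK₀]
      apply Nat.mul_le_mul_left
      apply Nat.pow_le_pow_left
      omega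
    have h2 : 4 * (K₀ * w) ≤ 4 * n ^ 2 := by
      calc 4 * (K₀ * w) = 4 * K₀ * w := by ring
        _ ≤ e := hsmall
        _ ≤ _ := he4
    omega
  have hle : ∀ a, 1 ≤ a → P a → a ≤ n ^ 2 := by
    intro a ha hPa
    have h1 : a ≤ a ^ (2 * q) := Nat.le_self_pow (by omega) _
    have h2 : a ^ (2 * q) ≤ 128 * q ^ 2 * a ^ (2 * q) := Nat.le_mul_of_pos_left _ (by positivity)
    have h3 : 128 * q ^ 2 * a ^ (2 * q) ≤ 128 * q ^ 2 * a ^ (2 * q) * w :=
      Nat.le_mul_of_pos_right _ hwpos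
    exact h1.trans (h2.trans (h3.trans hPa))
  have hm₂m : m₂ ≤ m := Nat.le_findGreatest (hle m₂ hm₂1 hPm₂) hPm₂
  have hPm : 128 * q ^ 2 * m ^ (2 * q) * w ≤ n ^ 2 := by
    have : P m := Nat.findGreatest_spec (P := P) (m := m₂) (n := n ^ 2) (hle m₂ hm₂1 hPm₂) hPm₂
    exact this
  have hm1 : 1 ≤ m := hm₂1.trans hm₂m
  have hupper : n ^ 2 ≤ 128 * q ^ 2 * (2 * m) ^ (2 * q) * w := by
    by_contra hcon
    push Not at hcon
    have h2 : P (m + 1) := by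
      change 128 * q ^ 2 * (m + 1) ^ (2 * q) * w ≤ n ^ 2
      refine le_trans ?_ hcon.le
      apply Nat.mul_le_mul_right
      apply Nat.mul_le_mul_left
      apply Nat.pow_le_pow_left
      omega
    have h4 : m + 1 ≤ Nat.findGreatest P (n ^ 2) :=
      Nat.le_findGreatest (hle _ (by omega) h2) h2
    omega
  -- the block sizes
  have hqm : 0 < q * m ^ (2 * q) := by positivity
  have hbig : 128 * q ^ 2 * m ^ (2 * q) ≤ n := by
    have h1 : 128 * q ^ 2 * m ^ (2 * q) * n ≤ n * n := by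
      calc 128 * q ^ 2 * m ^ (2 * q) * n ≤ 128 * q ^ 2 * m ^ (2 * q) * w :=
            Nat.mul_le_mul_left _ hnw
        _ ≤ n ^ 2 := hPm
        _ = n * n := sq n
    exact Nat.le_of_mul_le_mul_right h1 hnpos
  set a := 4 * (q * m ^ (2 * q)) with ha
  set L := n / a with hL
  set L' := n / (4 * q) with hL'
  have hapos : 0 < a := by positivity
  have han : a ≤ n := by
    refine le_trans ?_ hbig
    rw [ha]
    have : 4 * (q * m ^ (2 * q)) = (4 * q) * m ^ (2 * q) := by ring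
    rw [this]
    apply Nat.mul_le_mul_right
    nlinarith
  have h4q : 4 * q ≤ a := by
    rw [ha]
    have : 1 ≤ m ^ (2 * q) := Nat.one_le_pow _ _ (by omega)
    nlinarith
  have hLa : n ≤ 2 * (a * L) := by
    have h1 := Nat.lt_mul_div_succ n hapos
    have h2 : 1 ≤ L := Nat.div_pos han hapos
    have h3 : a * 1 ≤ a * L := Nat.mul_le_mul_left _ h2
    rw [← hL] at h1
    have h4 : a * (L + 1) = a * L + a := by ring
    omega
  have hL'a : n ≤ 2 * ((4 * q) * L') := by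
    have h1 := Nat.lt_mul_div_succ n (show 0 < 4 * q by omega)
    have h2 : 1 ≤ L' := Nat.div_pos (h4q.trans han) (by omega)
    have h3 : (4 * q) * 1 ≤ (4 * q) * L' := Nat.mul_le_mul_left _ h2
    rw [← hL'] at h1
    have h4 : (4 * q) * (L' + 1) = (4 * q) * L' + (4 * q) := by ring
    omega
  have hLpos : 0 < L := Nat.div_pos han hapos
  have hL'pos : 0 < L' := Nat.div_pos (h4q.trans han) (by omega)
  have hLL : 2 * w ≤ L * L' := by
    have h1 : n * n ≤ (2 * (a * L)) * (2 * ((4 * q) * L')) := Nat.mul_le_mul hLa hL'a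
    have h2 : (2 * (a * L)) * (2 * ((4 * q) * L')) = (64 * q ^ 2 * m ^ (2 * q)) * (L * L') := by
      rw [ha]; ring
    have h3 : (64 * q ^ 2 * m ^ (2 * q)) * (2 * w) ≤ (64 * q ^ 2 * m ^ (2 * q)) * (L * L') := by
      calc (64 * q ^ 2 * m ^ (2 * q)) * (2 * w) = 128 * q ^ 2 * m ^ (2 * q) * w := by ring
        _ ≤ n ^ 2 := hPm
        _ = n * n := sq n
        _ ≤ _ := by rw [← h2]; exact h1
    exact Nat.le_of_mul_le_mul_left h3 (by positivity)
  have hsize : q * m ^ (2 * q) * L + q * L' + r ≤ n := by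
    have h1 : a * L ≤ n := Nat.mul_div_le _ _
    have h2 : (4 * q) * L' ≤ n := Nat.mul_div_le _ _
    have h3 : a * L = 4 * (q * m ^ (2 * q) * L) := by rw [ha]; ring
    have h4 : (4 * q) * L' = 4 * (q * L') := by ring
    have h5 : 4 ≤ n := by
      have : 4 * 1 ≤ a := Nat.mul_le_mul_left _ hqm
      omega
    omega
  have hwin : e + q * m ^ (2 * q) ≤ b := by
    refine le_trans ?_ heb
    have h1 : q * m ^ (2 * q) ≤ e / w := by
      rw [Nat.le_div_iff_mul_le hwpos]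
      have h2 : q * m ^ (2 * q) ≤ 128 * q ^ 2 * m ^ (2 * q) := by
        apply Nat.mul_le_mul_right
        nlinarith
      calc q * m ^ (2 * q) * w ≤ 128 * q ^ 2 * m ^ (2 * q) * w := Nat.mul_le_mul_right _ h2
        _ ≤ n ^ 2 := hPm
        _ = n * n := sq n
        _ ≤ e := hn1
    omega
  set T := q ^ 2 * (Nat.log 2 m + 1) + 1 with hT
  have hTm : m ^ (q ^ 2) < 2 ^ T := by
    have h1 : m < 2 ^ (Nat.log 2 m + 1) := Nat.lt_pow_succ_log_self (by norm_num) m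
    calc m ^ (q ^ 2) ≤ (2 ^ (Nat.log 2 m + 1)) ^ (q ^ 2) := Nat.pow_le_pow_left h1.le _
      _ = 2 ^ (q ^ 2 * (Nat.log 2 m + 1)) := by rw [← pow_mul, mul_comm]
      _ < 2 ^ T := Nat.pow_lt_pow_right (by norm_num) (by omega)
  have hlow := hdag m ((le_max_left _ _).trans hm₂m) r L L' n' n (n + 1) e b w T ι C hsize
    (by rw [sq]; exact hn1) hn2.le (by omega) hwin
    (Nat.mul_pos hLpos hL'pos) hLL (by rw [hkq]; exact hC) hTm
  have hc := hcop m ((le_max_right _ _).trans hm₂m) hm1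
  rw [← hT] at hc
  -- conclusion
  have hmr : (1 : ℝ) ≤ m := by exact_mod_cast hm1
  have hm0 : (0 : ℝ) < m := by linarith
  have h1 : ((T * (Fintype.card ι * ((q + 1) * 2)) + (T + 1) : ℕ) : ℝ) ≤
      (m : ℝ) ^ ((1 : ℝ) / 4) * Fintype.card ι := by
    have h2 : T * (Fintype.card ι * ((q + 1) * 2)) + (T + 1) ≤
        (T * (2 * q + 4)) * Fintype.card ι := by
      have h3 : 1 ≤ T := by omega
      have h4 : T + 1 ≤ 2 * T * Fintype.card ι := by nlinarith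
      calc T * (Fintype.card ι * ((q + 1) * 2)) + (T + 1)
          ≤ T * (Fintype.card ι * ((q + 1) * 2)) + 2 * T * Fintype.card ι := by omega
        _ = _ := by ring
    calc _ ≤ (((T * (2 * q + 4)) * Fintype.card ι : ℕ) : ℝ) := by exact_mod_cast h2
      _ = ((T * (2 * q + 4) : ℕ) : ℝ) * Fintype.card ι := by push_cast; ring
      _ ≤ _ := mul_le_mul_of_nonneg_right hc (by positivity)
  have h2 : (m : ℝ) ^ (((q ^ 2 / 16 : ℕ) : ℝ) + 1 / 4) ≤ Fintype.card ι := by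
    have h3 : (m : ℝ) ^ (((q ^ 2 / 16 : ℕ) : ℝ) + 1 - 1 / 2) =
        (m : ℝ) ^ ((1 : ℝ) / 4) * (m : ℝ) ^ (((q ^ 2 / 16 : ℕ) : ℝ) + 1 / 4) := by
      rw [← Real.rpow_add hm0]; congr 1; ring
    rw [h3] at hlow
    have h4 := hlow.trans h1
    exact le_of_mul_le_mul_left h4 (by positivity)
  refine le_trans ?_ h2
  have h3 : (e : ℝ) / ((4 * K₀ : ℕ) * w) ≤ (m : ℝ) ^ ((2 * q : ℕ) : ℝ) := by
    rw [div_le_iff₀ (by positivity), Real.rpow_natCast]
    have h4 : e ≤ m ^ (2 * q) * (4 * K₀ * w) := by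
      have h0 : n ^ 2 ≤ m ^ (2 * q) * (K₀ * w) := by
        refine hupper.trans ?_
        have h5 : 128 * q ^ 2 * (2 * m) ^ (2 * q) * w =
            128 * q ^ 2 * 2 ^ (2 * q) * m ^ (2 * q) * w := by
          rw [mul_pow]; ring
        rw [h5, hK₀]
        have h6 : (2 : ℕ) ^ (2 * q) ≤ (4 * m₂) ^ (2 * q) := Nat.pow_le_pow_left (by omega) _
        calc 128 * q ^ 2 * 2 ^ (2 * q) * m ^ (2 * q) * w
            = 2 ^ (2 * q) * (128 * q ^ 2 * m ^ (2 * q) * w) := by ring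
          _ ≤ (4 * m₂) ^ (2 * q) * (128 * q ^ 2 * m ^ (2 * q) * w) := Nat.mul_le_mul_right _ h6
          _ = _ := by ring
      calc e ≤ 4 * n ^ 2 := he4
        _ ≤ 4 * (m ^ (2 * q) * (K₀ * w)) := Nat.mul_le_mul_left _ h0
        _ = _ := by ring
    exact_mod_cast h4
  calc ((e : ℝ) / ((4 * K₀ : ℕ) * w)) ^ ((k : ℝ) / 70)
      ≤ ((m : ℝ) ^ ((2 * q : ℕ) : ℝ)) ^ ((k : ℝ) / 70) :=
        Real.rpow_le_rpow (by positivity) h3 (by positivity)
    _ = (m : ℝ) ^ (((2 * q : ℕ) : ℝ) * ((k : ℝ) / 70)) := (Real.rpow_mul hm0.le _ _).symm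
    _ ≤ _ := by
      apply Real.rpow_le_rpow_of_exponent_le hmr
      have h4 : (q : ℝ) ^ 2 - 15 ≤ 16 * ((q ^ 2 / 16 : ℕ) : ℝ) := by
        have h5 : q ^ 2 ≤ 16 * (q ^ 2 / 16) + 15 := by omega
        have h6 : ((q ^ 2 : ℕ) : ℝ) ≤ ((16 * (q ^ 2 / 16) + 15 : ℕ) : ℝ) := by exact_mod_cast h5
        push_cast at h6
        linarith
      have h7 : (k : ℝ) ≤ 2 * q + 1 := by
        have : k ≤ 2 * q + 1 := by omega
        exact_mod_cast this
      have h8 : (16 : ℝ) ≤ q := by exact_mod_cast hq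
      push_cast
      nlinarith

end Pool.Agent.H29.NW
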