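import Pool.Agent.H29.NW.PMain
import Pool.Agent.H29.NW.Blocks

/-!
The bounds for clique circuits of bounded width with AND and OR gates.
-/

open Finset

namespace Pool.Agent.H29.NW.PM

open Pool.Agent.H29.NW

/-- The lower bound. -/
theorem lower {n l L k w s : ℕ} (hL : 1 ≤ L) (hLl : L < l) (hlL : 2 ^ 37 * l ^ 8 * L ^ 4 ≤ 2 ^ L)
    (hk : 2 ^ 14 * l ^ 4 * L ^ 2 ≤ k) (hkn : 2 * k ≤ n) (hn : 2 ^ 106 * l ^ 24 * L ^ 12 ≤ n)
    (hw : 2 ^ 106 * l ^ 24 * L ^ 12 * w ≤ n ^ 2) (C : BC.Circuit n s) (out : Fin s)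
    (hC : C.Decides out k w) : 2 ^ l < s := by
  by_contra hs
  push Not at hs
  have hl : 1 ≤ l := by omega
  set m := 2 ^ 37 * l ^ 8 * L ^ 4 with hm
  set K := 68 * l ^ 2 * L with hK
  have hm0 : 0 < m := by positivity
  have hK0 : 0 < K := by positivity
  have hK2 : 2 ≤ K := by
    have h1 : 1 ≤ l ^ 2 * L := Nat.mul_pos (by positivity) hL
    rw [hK]; nlinarith
  have hKK : 2 * (K * K) ≤ k := by
    refine le_trans ?_ hk
    calc 2 * (K * K) = 9248 * (l ^ 4 * L ^ 2) := by rw [hK]; ring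
      _ ≤ 16384 * (l ^ 4 * L ^ 2) := Nat.mul_le_mul_right _ (by norm_num)
      _ = _ := by ring
  obtain ⟨r, hr⟩ := Nat.exists_eq_add_of_le hKK
  set c := 4 * (K * K) with hc
  set a := c * (m * m) with ha
  have hc0 : 0 < c := by positivity
  have ha0 : 0 < a := by positivity
  have hlL1 : 1 ≤ l ^ 4 * L ^ 2 := Nat.mul_pos (by positivity) (by positivity)
  have han : a ≤ n := by
    refine le_trans ?_ hn
    calc a = 18496 * 2 ^ 74 * (l ^ 20 * L ^ 10) := by rw [ha, hc, hK, hm]; ring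
      _ ≤ 2 ^ 106 * (l ^ 20 * L ^ 10) := Nat.mul_le_mul_right _ (by norm_num)
      _ ≤ 2 ^ 106 * (l ^ 20 * L ^ 10) * (l ^ 4 * L ^ 2) := Nat.le_mul_of_pos_right _ hlL1
      _ = _ := by ring
  have hca : c ≤ a := Nat.le_mul_of_pos_right _ (by positivity)
  have hcn : c ≤ n := hca.trans han
  set LA := n / a with hLA
  set LB := n / c with hLB
  have hLA1 : 1 ≤ LA := Nat.div_pos han ha0
  have hLB1 : 1 ≤ LB := Nat.div_pos hcn hc0
  have hA : n ≤ 2 * (a * LA) := by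
    have h1 := Nat.lt_mul_div_succ n ha0
    rw [← hLA] at h1
    have h3 : a * 1 ≤ a * LA := Nat.mul_le_mul_left _ hLA1
    have h4 : a * (LA + 1) = a * LA + a := by ring
    omega
  have hB : n ≤ 2 * (c * LB) := by
    have h1 := Nat.lt_mul_div_succ n hc0
    rw [← hLB] at h1
    have h3 : c * 1 ≤ c * LB := Nat.mul_le_mul_left _ hLB1
    have h4 : c * (LB + 1) = c * LB + c := by ring
    omega
  have h2w : 2 * w ≤ LA * LB := by
    have h1 : n * n ≤ (2 * (a * LA)) * (2 * (c * LB)) := Nat.mul_le_mul hA hB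
    have h2 : (2 * (a * LA)) * (2 * (c * LB)) = (4 * (a * c)) * (LA * LB) := by ring
    have h3 : 4 * (a * c) * 2 ≤ 2 ^ 106 * l ^ 24 * L ^ 12 := by
      calc 4 * (a * c) * 2 = 2 * 64 * 21381376 * 2 ^ 74 * (l ^ 24 * L ^ 12) := by
            rw [ha, hc, hK, hm]; ring
        _ ≤ 2 ^ 106 * (l ^ 24 * L ^ 12) := Nat.mul_le_mul_right _ (by norm_num)
        _ = _ := by ring
    have h4 : (4 * (a * c)) * (2 * w) ≤ (4 * (a * c)) * (LA * LB) := by
      calc (4 * (a * c)) * (2 * w) = 4 * (a * c) * 2 * w := by ring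
        _ ≤ 2 ^ 106 * l ^ 24 * L ^ 12 * w := Nat.mul_le_mul_right _ h3
        _ ≤ n ^ 2 := hw
        _ = n * n := sq n
        _ ≤ _ := by rw [← h2]; exact h1
    exact Nat.le_of_mul_le_mul_left h4 (by positivity)
  have hsize : K * K * (m * m) * LA + K * K * LB + r ≤ n := by
    have h1 : a * LA ≤ n := Nat.mul_div_le _ _
    have h2 : c * LB ≤ n := Nat.mul_div_le _ _
    have h3 : a * LA = 4 * (K * K * (m * m) * LA) := by rw [ha, hc]; ring
    have h4 : c * LB = 4 * (K * K * LB) := by rw [hc]; ring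
    omega
  set T := L * K + 1 with hT
  have hmL : m ≤ 2 ^ L := hlL
  have hTm : m ^ K < 2 ^ T := by
    calc m ^ K ≤ (2 ^ L) ^ K := Nat.pow_le_pow_left hmL _
      _ = 2 ^ (L * K) := by rw [← pow_mul]
      _ < 2 ^ T := Nat.pow_lt_pow_right (by norm_num) (by omega)
  obtain ⟨C', out', hsp, hC'⟩ := reduce C out hK2 hm0 hr.symm hsize
    (Nat.mul_pos hLA1 hLB1) h2w hC hTm
  -- the number of gates
  have hml : 2 * m ≤ 2 ^ l := by
    calc 2 * m ≤ 2 * 2 ^ L := Nat.mul_le_mul_left _ hmL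
      _ = 2 ^ (L + 1) := by rw [pow_succ]; ring
      _ ≤ 2 ^ l := Nat.pow_le_pow_right (by norm_num) hLl
  have hTl : 4 * T ≤ m := by
    have h1 : 1 ≤ l ^ 2 * L ^ 2 := Nat.mul_pos (by positivity) (by positivity)
    have h2 : 1 ≤ l ^ 6 * L ^ 2 := Nat.mul_pos (by positivity) (by positivity)
    calc 4 * T = 272 * (l ^ 2 * L ^ 2) + 4 := by rw [hT, hK]; ring
      _ ≤ 2 ^ 37 * (l ^ 2 * L ^ 2) := by omega
      _ ≤ 2 ^ 37 * (l ^ 2 * L ^ 2) * (l ^ 6 * L ^ 2) := Nat.le_mul_of_pos_right _ h2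
      _ = m := by rw [hm]; ring
  have hsize' : m * m + (T * s + 1) ≤ 2 ^ (2 * l) := by
    have h1 : (2 * m) * (2 * m) ≤ 2 ^ l * 2 ^ l := Nat.mul_le_mul hml hml
    have h2 : (8 * T) * s ≤ 2 ^ l * 2 ^ l := Nat.mul_le_mul (by omega) hs
    have h3 : 2 ^ (2 * l) = 2 ^ l * 2 ^ l := by rw [two_mul, pow_add]
    have h4 : 2 ≤ 2 ^ l := by
      calc 2 = 2 ^ 1 := by norm_num
        _ ≤ 2 ^ l := Nat.pow_le_pow_right (by norm_num) hl
    have h5 : 4 ≤ 2 ^ l * 2 ^ l := by nlinarith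
    have h6 : (2 * m) * (2 * m) = 4 * (m * m) := by ring
    have h7 : (8 * T) * s = 8 * (T * s) := by ring
    rw [h3]
    omega
  obtain ⟨A, hA', y, -, hy⟩ := Pool.Agent.H25.NP.main (l := 2 * l) hL (by omega) hmL
    (k := K) (by rw [hK]; apply le_of_eq; ring) (by
      have h2 : 1 ≤ l ^ 6 * L ^ 3 := Nat.mul_pos (by positivity) (by positivity)
      calc 2 * K = 136 * (l ^ 2 * L) := by rw [hK]; ring
        _ ≤ 2 ^ 37 * (l ^ 2 * L) := Nat.mul_le_mul_right _ (by norm_num)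
        _ ≤ 2 ^ 37 * (l ^ 2 * L) * (l ^ 6 * L ^ 3) := Nat.le_mul_of_pos_right _ h2
        _ = m := by rw [hm]; ring)
    (by rw [hm]; apply le_of_eq; ring) hsize' C' out' (Or.inl hC')
  have hA0 : A = 0 := by
    by_contra hne
    obtain ⟨i, hi, -⟩ := hy 0 (Nat.pos_of_ne_zero hne)
    rw [Pool.Agent.H25.NP.Circuit.watched, hsp] at hi
    simp at hi
  rw [hA0, mul_zero] at hA'
  have : 0 < m ^ 2 := by positivity
  omega

/-- The upper bound. -/
theorem upper (k : ℕ) (hk : 1 ≤ k) (n w : ℕ) (hkw : k ^ 2 ≤ w) (hw : w ≤ n ^ 2) :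
    ∃ (s : ℕ) (C : BC.Circuit n s) (out : Fin s), C.Decides out k w ∧
      (s : ℝ) ≤ ((16 * k : ℝ) ^ 2 * n ^ 2 / w) ^ ((k : ℝ) / 2) := by
  classical
  obtain ⟨M, U, hU, hcov, hM1, hM⟩ := blocks k hk n w hkw hw
  have hwpos : 0 < w := lt_of_lt_of_le (by positivity) hkw
  let p : Fin M → SimpleGraph (Fin n) → Prop := fun t G => ∃ s ⊆ U t, G.IsNClique k s
  have hp : ∀ t G G', (∀ e ∈ ((U t).sym2 : Set (Sym2 (Fin n))), e ∈ G.edgeSet ↔ e ∈ G'.edgeSet) →
      (p t G ↔ p t G') := by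
    intro t G G' h
    have key : ∀ G G' : SimpleGraph (Fin n),
        (∀ a ∈ U t, ∀ b ∈ U t, G.Adj a b → G'.Adj a b) → p t G → p t G' := by
      rintro G G' h ⟨s, hs, hcl⟩
      refine ⟨s, hs, ⟨?_, hcl.card_eq⟩⟩
      intro a ha b hb hab
      exact h a (hs ha) b (hs hb) (hcl.isClique ha hb hab)
    have h' : ∀ a ∈ U t, ∀ b ∈ U t, (G.Adj a b ↔ G'.Adj a b) := by
      intro a ha b hb
      exact h s(a, b) (by rw [Finset.mem_coe, Finset.mk_mem_sym2_iff]; exact ⟨ha, hb⟩)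
    exact ⟨key G G' (fun a ha b hb => (h' a ha b hb).1),
      key G' G (fun a ha b hb => (h' a ha b hb).2)⟩
  have hex : ∀ G : SimpleGraph (Fin n), ¬ G.CliqueFree k → ∃ t, p t G := by
    intro G hG
    unfold SimpleGraph.CliqueFree at hG
    push Not at hG
    obtain ⟨s, hs⟩ := hG
    obtain ⟨t, ht⟩ := hcov s hs.card_eq
    exact ⟨t, s, ht, hs⟩
  let v : Fin M → Set (Sym2 (Fin n)) → SimpleGraph (Fin n) → Prop := fun t Y G =>
    ((U t).sym2 : Set (Sym2 (Fin n))) ⊆ G.edgeSet ∪ Y ∧ p t G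
  let C : BC.Circuit n (M + 1) :=
    { fn := fun i Y G => if h : (i : ℕ) < M then v ⟨i, h⟩ Y G else ∃ t, v t Y G
      ins := fun i => if (i : ℕ) < M then ∅ else univ.map Fin.castSuccEmb
      lt := by
        intro i j hj
        by_cases h : (i : ℕ) < M
        · simp [h] at hj
        · simp only [h, if_false, Finset.mem_map] at hj
          obtain ⟨t, -, rfl⟩ := hj
          have h1 := t.2
          change (t : ℕ) < i
          omega
      gate := by
        intro i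
        by_cases h : (i : ℕ) < M
        · left
          refine ⟨((U ⟨i, h⟩).sym2 : Set (Sym2 (Fin n))), p ⟨i, h⟩, hp _, fun Y G => ?_⟩
          simp only [dif_pos h]
          rfl
        · right; right
          intro Y G
          simp only [dif_neg h, if_neg h, Finset.mem_map]
          constructor
          · rintro ⟨t, ht⟩
            refine ⟨_, ⟨t, Finset.mem_univ _, rfl⟩, ?_⟩
            have h1 : ((Fin.castSuccEmb t : Fin (M + 1)) : ℕ) < M := t.2
            simp only [dif_pos h1]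
            exact ht
          · rintro ⟨j, ⟨t, -, rfl⟩, hj⟩
            have h1 : ((Fin.castSuccEmb t : Fin (M + 1)) : ℕ) < M := t.2
            simp only [dif_pos h1] at hj
            exact ⟨t, hj⟩ }
  have hout : ∀ Y G, C.fn (Fin.last M) Y G ↔ ∃ t, v t Y G := by
    intro Y G
    change (if h : ((Fin.last M : Fin (M + 1)) : ℕ) < M then _ else _) ↔ _
    rw [dif_neg (by simp)]
  refine ⟨M + 1, C, Fin.last M, ⟨?_, ?_⟩, ?_⟩
  · intro G
    rw [hout]
    constructor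
    · rintro ⟨t, -, s, -, hs⟩ hfree
      exact hfree s hs
    · intro hG
      obtain ⟨t, ht⟩ := hex G hG
      exact ⟨t, by simp, ht⟩
  · intro G hG
    obtain ⟨t, ht⟩ := hex G hG
    refine ⟨(U t).sym2, ?_, (hout _ _).2 ⟨t, by simp, ht⟩⟩
    rw [Finset.card_sym2]
    have h1 := hU t
    have h2 : (#(U t) + 1).choose 2 ≤ #(U t) * #(U t) := by
      rw [Nat.choose_two_right]
      rcases Nat.eq_zero_or_pos #(U t) with h3 | h3
      · rw [h3]
      · apply Nat.div_le_of_le_mul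
        simp only [Nat.add_sub_cancel]
        nlinarith
    exact h2.trans ((Nat.mul_le_mul h1 h1).trans (Nat.sqrt_le w))
  · have hwr : (0 : ℝ) < w := by exact_mod_cast hwpos
    have h1 : ((16 * k : ℝ) ^ 2 * n ^ 2 / w) ^ ((k : ℝ) / 2) =
        (16 * k * (n / Real.sqrt w)) ^ k := by
      have h2 : (16 * k : ℝ) ^ 2 * n ^ 2 / w = (16 * k * (n / Real.sqrt w)) ^ (2 : ℝ) := by
        rw [Real.rpow_two, mul_pow (16 * (k : ℝ)), div_pow, Real.sq_sqrt hwr.le]
        ring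
      rw [h2, ← Real.rpow_mul (by positivity), ← Real.rpow_natCast]
      congr 1
      ring
    rw [h1]
    have h5 : (16 * k * (n / Real.sqrt w)) ^ k = 2 ^ k * (8 * k * (n / Real.sqrt w)) ^ k := by
      rw [← mul_pow]; congr 1; ring
    have h6 : (2 : ℝ) ≤ 2 ^ k := by
      calc (2 : ℝ) = 2 ^ 1 := by norm_num
        _ ≤ 2 ^ k := pow_le_pow_right₀ (by norm_num) hk
    have h7 : (1 : ℝ) ≤ M := by exact_mod_cast hM1
    rw [h5]
    push_cast
    nlinarith

end Pool.Agent.H29.NW.PM
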