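import Pool.Agent.H25.NP.Main
import Pool.Agent.H29.NW.Hide
import Pool.Agent.H29.NW.GGraph
import Pool.Agent.H29.NW.BCircuit

/-!
Superpolynomial lower bounds for clique circuits of bounded width: reduction to monotone circuits
on a small number of vertices.
-/

open Finset

namespace Pool.Agent.H29.NW.PM

open Pool.Agent.H29.NW Pool.Agent.H29.NW.GG

/-- circuits indexed by a finite type with a rank function -/
theorem to_circuit {m : ℕ} (J : Type) [Fintype J] [DecidableEq J] (ρ : J → ℕ)
    (f : J → SimpleGraph (Fin m) → Prop) (ins : J → Finset J)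
    (hlt : ∀ i, ∀ j ∈ ins i, ρ j < ρ i)
    (hg : ∀ i, (∃ u v, ∀ G, f i G ↔ G.Adj u v) ∨ (∀ G, f i G ↔ ∀ j ∈ ins i, f j G) ∨
      (∀ G, f i G ↔ ∃ j ∈ ins i, f j G)) (o : J) :
    ∃ (C : Pool.Agent.H25.NP.Circuit m (Fintype.card J)) (out : Fin (Fintype.card J)),
      C.special = ∅ ∧ ∀ G, C.fn out G ↔ f o G := by
  let e0 := Fintype.equivFin J
  let τ : Fin (Fintype.card J) → ℕ := fun i => ρ (e0.symm i)
  let e : J ≃ Fin (Fintype.card J) := e0.trans (Tuple.sort τ).symm
  have he : ∀ j j', ρ j < ρ j' → e j < e j' := by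
    intro j j' h
    by_contra hcon
    have h1 := Tuple.monotone_sort τ (not_lt.1 hcon)
    simp [τ, e] at h1
    omega
  refine ⟨⟨fun i => f (e.symm i), fun i => (ins (e.symm i)).map e.toEmbedding, ∅, ?_, ?_⟩, e o,
    rfl, fun G => by simp⟩
  · intro i j hj
    rw [Finset.mem_map] at hj
    obtain ⟨j', hj', rfl⟩ := hj
    have := he _ _ (hlt _ _ hj')
    simpa using this
  · intro i
    rcases hg (e.symm i) with h | h | h
    · exact Or.inl h
    · right; left
      intro G
      rw [h]
      constructor
      · intro h1 j hj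
        rw [Finset.mem_map] at hj
        obtain ⟨j', hj', rfl⟩ := hj
        simpa using h1 j' hj'
      · intro h1 j hj
        have := h1 (e j) (Finset.mem_map_of_mem e.toEmbedding hj)
        simpa using this
    · right; right; left
      intro G
      rw [h]
      constructor
      · rintro ⟨j, hj, h1⟩
        exact ⟨e j, Finset.mem_map_of_mem e.toEmbedding hj, by simpa using h1⟩
      · rintro ⟨j, hj, h1⟩
        rw [Finset.mem_map] at hj
        obtain ⟨j', hj', rfl⟩ := hj
        exact ⟨j', hj', by simpa using h1⟩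

section one

variable {K m : ℕ}

abbrev Bk (K : ℕ) := Fin K × Fin K

abbrev Da (m : ℕ) := Fin m × Fin m

/-- consistency of the data: the same vertex at the same index -/
def co (s s' : Bk K × Da m) : Prop :=
  (s.1.1 = s'.1.1 → s.2.1 = s'.2.1) ∧ (s.1.1 = s'.1.2 → s.2.1 = s'.2.2) ∧
  (s.1.2 = s'.1.1 → s.2.2 = s'.2.1) ∧ (s.1.2 = s'.1.2 → s.2.2 = s'.2.2)

/-- the live edges present for a graph -/
def zH (H : SimpleGraph (Fin m)) (s : Bk K × Da m) : Prop := s.1.1 ≠ s.1.2 → H.Adj s.2.1 s.2.2

/-- the live edges present for a sequence of vertices -/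
def zf (f : Fin K → Fin m) (s : Bk K × Da m) : Prop := s.2 = (f s.1.1, f s.1.2)

/-- a consistent family of present slots is a clique -/
theorem clique_of (H : SimpleGraph (Fin m)) (hK : 2 ≤ K) (σ : Bk K → Da m)
    (hσ : ∀ b b', b ≠ b' → co (b, σ b) (b', σ b')) (hz : ∀ b, zH H (b, σ b)) :
    ¬ H.CliqueFree K := by
  have h1 : ∀ i j : Fin K, i ≠ j → (σ (i, j)).1 = (σ (i, i)).1 := by
    intro i j hij
    exact (hσ (i, j) (i, i) (by simpa using hij.symm)).1 rfl
  have h2 : ∀ i j : Fin K, i ≠ j → (σ (i, j)).2 = (σ (j, j)).1 := by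
    intro i j hij
    exact (hσ (i, j) (j, j) (by simpa using hij)).2.2.1 rfl
  apply not_cliqueFree_of_map (fun i : Fin K => (σ (i, i)).1) _ (Fintype.card_fin K)
  intro i j hij
  have h3 := hz (i, j) hij
  rw [h1 i j hij, h2 i j hij] at h3
  exact h3

end one

/-- The reduction. -/
theorem reduce {n s K m r L L' w T k : ℕ} (C : BC.Circuit n s) (out : Fin s) (hK : 2 ≤ K)
    (hm : 0 < m) (hk : 2 * (K * K) + r = k)
    (hn : K * K * (m * m) * L + K * K * L' + r ≤ n) (hLL : 0 < L * L') (hw : 2 * w ≤ L * L')
    (hC : C.Decides out k w) (hT : m ^ K < 2 ^ T) :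
    ∃ (C' : Pool.Agent.H25.NP.Circuit m (m * m + (T * s + 1))) (out' : Fin _),
      C'.special = ∅ ∧ ∀ H : SimpleGraph (Fin m), C'.fn out' H ↔ ¬ H.CliqueFree K := by
  classical
  have hL : 0 < L := Nat.pos_of_mul_pos_right hLL
  have hL' : 0 < L' := Nat.pos_of_mul_pos_left hLL
  have hcB : Fintype.card (Bk K) = K * K := by simp
  have hkB : 2 * Fintype.card (Bk K) + r = k := by rw [hcB]; exact hk
  have hcard : Fintype.card (Vt (Bk K) (Da m) r L L') ≤ Fintype.card (Fin n) := by
    simp only [Fintype.card_prod, Fintype.card_sum, Fintype.card_fin]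
    refine le_trans (le_of_eq ?_) hn
    ring
  have hNV : Nonempty (Fin L × Fin L') := ⟨(⟨0, hL⟩, ⟨0, hL'⟩)⟩
  have hNVt : Nonempty (Vt (Bk K) (Da m) r L L') :=
    ⟨Sum.inr (Sum.inl ((⟨0, by omega⟩, ⟨0, by omega⟩), ⟨0, hL'⟩))⟩
  obtain ⟨emb⟩ := Function.Embedding.nonempty_of_card_le hcard
  let G : (Bk K × Da m → Fin L × Fin L') → (Bk K × Da m → Prop) → SimpleGraph (Fin n) :=
    fun h z => Gn co emb h z
  have hpos : ∀ h (f : Fin K → Fin m), ¬ (G h (zf f)).CliqueFree k := by
    intro h f hf
    refine pos_clique co h (zf f) (fun b => (f b.1, f b.2)) ?_ (fun b => rfl) hkB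
      (SimpleGraph.cliqueFree_map_iff.1 hf)
    intro b b' _
    refine ⟨fun h => ?_, fun h => ?_, fun h => ?_, fun h => ?_⟩ <;> simp only at h ⊢ <;> rw [h]
  have hneg : ∀ h (H : SimpleGraph (Fin m)), ¬ (G h (zH H)).CliqueFree k → ¬ H.CliqueFree K := by
    intro h H hG
    obtain ⟨σ, h1, h2⟩ := of_clique co h (zH H) hkB (fun hf => hG (by
      exact SimpleGraph.cliqueFree_map_iff.2 hf))
    exact clique_of H hK σ h1 h2
  -- certificates
  let certG : SimpleGraph (Fin n) → Finset (Sym2 (Fin n)) := fun G =>
    if hG : ¬ G.CliqueFree k then Classical.choose (hC.2 G hG) else ∅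
  have hcertG : ∀ G, ¬ G.CliqueFree k → #(certG G) ≤ w ∧
      C.fn out (certG G : Set (Sym2 (Fin n))) G := by
    intro G hG
    have := Classical.choose_spec (hC.2 G hG)
    simp only [certG, dif_pos hG]
    exact this
  obtain ⟨hs, hhs⟩ := hide (ps emb) (ps_injective emb) w
    (by rw [Fintype.card_prod, Fintype.card_fin, Fintype.card_fin]; exact hw)
    (fun f : Fin K → Fin m => {s | zf f s}) (fun f h => certG (G h (zf f)))
    (fun f h => (hcertG _ (hpos h f)).1)
    (fun f h h' hh => by
      have : G h (zf f) = G h' (zf f) := Gn_congr co emb h h' _ (fun s hs => hh s hs)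
      rw [this]) T
    (by rw [Fintype.card_fun, Fintype.card_fin, Fintype.card_fin]; exact hT)
  have hgood : ∀ f : Fin K → Fin m, ∃ t < T, C.fn out (Yh emb (hs t)) (G (hs t) (zf f)) := by
    intro f
    obtain ⟨t, ht, h⟩ := hhs f
    refine ⟨t, ht, C.fn_mono ?_ _ (hcertG _ (hpos (hs t) f)).2⟩
    intro e he
    by_cases heY : e ∈ Yh emb (hs t)
    · exact Or.inr heY
    left
    obtain ⟨s, hse⟩ := not_mem_Yh heY
    by_cases hz : zf f s
    · rw [hse]
      exact (mem_live co emb (hs t) _ s).2 hz
    · exfalso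
      refine h s hz ?_
      rw [← hse]
      exact Finset.mem_coe.1 he
  -- the monotone circuit
  let isB : Fin s → Prop := fun i => BC.IsBottom (C.fn i)
  let Sb : Fin s → Set (Sym2 (Fin n)) := fun i => if h : isB i then Classical.choose h else ∅
  have hSb : ∀ i, isB i → ∃ b : SimpleGraph (Fin n) → Prop,
      (∀ G G', (∀ e ∈ Sb i, e ∈ G.edgeSet ↔ e ∈ G'.edgeSet) → (b G ↔ b G')) ∧
      ∀ Y G, C.fn i Y G ↔ Sb i ⊆ G.edgeSet ∪ Y ∧ b G := by
    intro i hi
    have := Classical.choose_spec hi
    simp only [Sb, dif_pos hi]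
    exact this
  choose! bb hbb hval using hSb
  let J := (Fin m × Fin m) ⊕ ((Fin T × Fin s) ⊕ Unit)
  let ρ : J → ℕ := fun j => match j with
    | Sum.inl _ => 0
    | Sum.inr (Sum.inl (_, i)) => i + 1
    | Sum.inr (Sum.inr _) => s + 1
  let f : J → SimpleGraph (Fin m) → Prop := fun j H => match j with
    | Sum.inl (a, b) => H.Adj a b
    | Sum.inr (Sum.inl (t, i)) => C.fn i (Yh emb (hs t)) (G (hs t) (zH H))
    | Sum.inr (Sum.inr _) => ∃ t : Fin T, C.fn out (Yh emb (hs t)) (G (hs t) (zH H))
  let ins : J → Finset J := fun j => match j with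
    | Sum.inl _ => ∅
    | Sum.inr (Sum.inl (t, i)) =>
      if isB i then
        (if bb i (G (hs t) (fun _ => True)) then
          (univ.filter (fun p : Fin m × Fin m => ∃ b : Bk K, b.1 ≠ b.2 ∧
            ps emb (b, p) (hs t (b, p)) ∈ Sb i)).map Function.Embedding.inl
        else ∅)
      else (C.ins i).map ⟨fun j => Sum.inr (Sum.inl (t, j)),
        fun a b h => (Prod.mk.inj (Sum.inl.inj (Sum.inr.inj h))).2⟩
    | Sum.inr (Sum.inr _) => univ.map ⟨fun t : Fin T => Sum.inr (Sum.inl (t, out)),
        fun a b h => (Prod.mk.inj (Sum.inl.inj (Sum.inr.inj h))).1⟩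
  obtain ⟨C', out', hsp, hC'⟩ := to_circuit J ρ f ins (by
    rintro (p | ⟨t, i⟩ | u) j hj
    · simp [ins] at hj
    · by_cases hi : isB i
      · by_cases hb : bb i (G (hs t) (fun _ => True))
        · simp only [ins, if_pos hi, if_pos hb, Finset.mem_map] at hj
          obtain ⟨p, -, rfl⟩ := hj
          change 0 < (i : ℕ) + 1
          omega
        · simp only [ins, if_pos hi, if_neg hb] at hj
          simp at hj
      · simp only [ins, if_neg hi, Finset.mem_map] at hj
        obtain ⟨j', hj', rfl⟩ := hj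
        change (j' : ℕ) + 1 < i + 1
        have := C.lt i j' hj'
        omega
    · simp only [ins, Finset.mem_map] at hj
      obtain ⟨t, -, rfl⟩ := hj
      change (out : ℕ) + 1 < s + 1
      have := out.2
      omega) (by
    rintro (⟨a, b⟩ | ⟨t, i⟩ | u)
    · exact Or.inl ⟨a, b, fun H => Iff.rfl⟩
    · right
      by_cases hi : isB i
      · have key : ∀ H, C.fn i (Yh emb (hs t)) (G (hs t) (zH H)) ↔
            (∀ s, ps emb s (hs t s) ∈ Sb i → zH H s) ∧ bb i (G (hs t) (fun _ => True)) := by
          intro H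
          rw [hval i hi]
          have h1 : Sb i ⊆ (G (hs t) (zH H)).edgeSet ∪ Yh emb (hs t) ↔
              ∀ s, ps emb s (hs t s) ∈ Sb i → zH H s := by
            constructor
            · intro h s hs'
              rcases h hs' with h2 | h2
              · exact (mem_live co emb (hs t) _ s).1 h2
              · exact absurd rfl (h2 s)
            · intro h e he
              by_cases heY : e ∈ Yh emb (hs t)
              · exact Or.inr heY
              · left
                obtain ⟨s, rfl⟩ := not_mem_Yh heY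
                exact (mem_live co emb (hs t) _ s).2 (h s he)
          rw [h1]
          constructor
          · rintro ⟨h2, h3⟩
            refine ⟨h2, (hbb i hi _ _ ?_).1 h3⟩
            intro e he
            by_cases heY : e ∈ Yh emb (hs t)
            · exact ⟨mem_dead co emb _ _ _ e heY, mem_dead co emb _ _ _ e heY⟩
            · obtain ⟨s, rfl⟩ := not_mem_Yh heY
              rw [mem_live, mem_live]
              exact ⟨fun _ => trivial, fun _ => h2 s he⟩
          · rintro ⟨h2, h3⟩
            refine ⟨h2, (hbb i hi _ _ ?_).2 h3⟩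
            intro e he
            by_cases heY : e ∈ Yh emb (hs t)
            · exact ⟨mem_dead co emb _ _ _ e heY, mem_dead co emb _ _ _ e heY⟩
            · obtain ⟨s, rfl⟩ := not_mem_Yh heY
              rw [mem_live, mem_live]
              exact ⟨fun _ => trivial, fun _ => h2 s he⟩
        by_cases hb : bb i (G (hs t) (fun _ => True))
        · left
          intro H
          change C.fn i (Yh emb (hs t)) (G (hs t) (zH H)) ↔ _
          rw [key]
          simp only [ins, if_pos hi, if_pos hb]
          constructor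
          · rintro ⟨h1, -⟩ j hj
            rw [Finset.mem_map] at hj
            obtain ⟨p, hp, rfl⟩ := hj
            obtain ⟨b, hb1, hb2⟩ := (Finset.mem_filter.1 hp).2
            exact h1 (b, p) hb2 hb1
          · intro h
            refine ⟨?_, hb⟩
            rintro ⟨b, p⟩ hp hne
            exact h (Sum.inl p) (Finset.mem_map_of_mem _ (Finset.mem_filter.2
              ⟨Finset.mem_univ _, b, hne, hp⟩))
        · right
          intro H
          change C.fn i (Yh emb (hs t)) (G (hs t) (zH H)) ↔ _
          rw [key]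
          simp only [ins, if_pos hi, if_neg hb]
          constructor
          · rintro ⟨-, h⟩
            exact absurd h hb
          · rintro ⟨j, hj, -⟩
            exact absurd hj (Finset.notMem_empty _)
      · rcases C.gate i with hB | hv | hv
        · exact absurd hB hi
        · left
          intro H
          change C.fn i (Yh emb (hs t)) (G (hs t) (zH H)) ↔ _
          rw [hv]
          simp only [ins, if_neg hi, Finset.mem_map]
          constructor
          · rintro h j ⟨j', hj', rfl⟩
            exact h j' hj'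
          · intro h j hj
            exact h _ ⟨j, hj, rfl⟩
        · right
          intro H
          change C.fn i (Yh emb (hs t)) (G (hs t) (zH H)) ↔ _
          rw [hv]
          simp only [ins, if_neg hi, Finset.mem_map]
          constructor
          · rintro ⟨j, hj, h⟩
            exact ⟨_, ⟨j, hj, rfl⟩, h⟩
          · rintro ⟨j, ⟨j', hj', rfl⟩, h⟩
            exact ⟨j', hj', h⟩
    · right; right
      intro H
      simp only [ins, Finset.mem_map]
      constructor
      · rintro ⟨t, h⟩
        exact ⟨_, ⟨t, Finset.mem_univ _, rfl⟩, h⟩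
      · rintro ⟨j, ⟨t, -, rfl⟩, h⟩
        exact ⟨t, h⟩) (Sum.inr (Sum.inr ()))
  have hcJ : Fintype.card J = m * m + (T * s + 1) := by
    simp only [J, Fintype.card_sum, Fintype.card_prod, Fintype.card_fin, Fintype.card_unit]
  rw [← hcJ]
  refine ⟨C', out', hsp, fun H => ?_⟩
  rw [hC']
  change (∃ t : Fin T, C.fn out (Yh emb (hs t)) (G (hs t) (zH H))) ↔ _
  constructor
  · rintro ⟨t, h⟩
    apply hneg (hs t) H
    rw [← hC.1]
    exact C.fn_mono (by simp) _ h
  · intro hH
    unfold SimpleGraph.CliqueFree at hH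
    push Not at hH
    obtain ⟨c, hc⟩ := hH
    have hcc : Fintype.card c = K := by rw [Fintype.card_coe]; exact hc.card_eq
    let en : Fin K ≃ c := (Fintype.equivFinOfCardEq hcc).symm
    obtain ⟨t, ht, h⟩ := hgood (fun i => (en i : Fin m))
    refine ⟨⟨t, ht⟩, C.fn_mono' ?_ ?_ _ h⟩
    · apply Gn_mono
      rintro ⟨⟨i, j⟩, p⟩ hp hij
      unfold zf at hp
      simp only at hp hij ⊢
      rw [hp]
      apply hc.isClique (en i).2 (en j).2
      intro hcon
      exact hij (en.injective (Subtype.ext hcon))
    · intro e heY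
      exact mem_dead co emb _ _ _ e heY

end Pool.Agent.H29.NW.PM
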