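import Mathlib

/-!
Circuits with arbitrary tests whose input is a finite set, and the absent elements used by their
proofs.
-/

namespace Pool.Agent.H29.NW.SC

/-- A circuit with `s` gates, in topological order, whose input is a finite set of elements of
`Y`. The gates in `leaf` are arbitrary tests: `test i` may be any property of the input set `F`
that depends only on which elements of `reads i` belong to `F`. The other gates are conjunctions
(if they are in `conj`) or disjunctions of the earlier gates in `ins i`, of any fan-in. -/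
structure Circuit (Y : Type) (s : ℕ) where
  leaf : Finset (Fin s)
  conj : Finset (Fin s)
  reads : Fin s → Finset Y
  test : Fin s → Finset Y → Prop
  ins : Fin s → Finset (Fin s)
  test_of_eq : ∀ i, ∀ F F' : Finset Y,
    (∀ e ∈ reads i, e ∈ F ↔ e ∈ F') → test i F → test i F'
  ins_lt : ∀ i, ∀ j ∈ ins i, j < i

/-- `C.Proof F N i`: gate `i` has a proof that it is true for the input set `F` in which all
elements read by the tests belong to `F` or to `N`. A test is proved if it is true and reads only
such elements, a conjunction if all its inputs are proved, a disjunction if some input is proved.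
Gate `i` is true for `F` if it has a proof for `N = univ`. -/
inductive Circuit.Proof {Y : Type} {s : ℕ} (C : Circuit Y s) (F N : Finset Y) : Fin s → Prop
  | leaf {i : Fin s} : i ∈ C.leaf → C.test i F → (∀ e ∈ C.reads i, e ∈ F ∨ e ∈ N) →
      C.Proof F N i
  | conj {i : Fin s} : i ∉ C.leaf → i ∈ C.conj → (∀ j ∈ C.ins i, C.Proof F N j) →
      C.Proof F N i
  | disj {i j : Fin s} : i ∉ C.leaf → i ∉ C.conj → j ∈ C.ins i → C.Proof F N j →
      C.Proof F N i

variable {Y : Type} {s : ℕ} {C : Circuit Y s} {F N : Finset Y} {i : Fin s}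

theorem Circuit.proof_leaf (hi : i ∈ C.leaf) :
    C.Proof F N i ↔ C.test i F ∧ ∀ e ∈ C.reads i, e ∈ F ∨ e ∈ N := by
  constructor
  · rintro (⟨-, h1, h2⟩ | ⟨h, -, -⟩ | ⟨h, -, -, -⟩)
    · exact ⟨h1, h2⟩
    · exact absurd hi h
    · exact absurd hi h
  · rintro ⟨h1, h2⟩
    exact Circuit.Proof.leaf hi h1 h2

theorem Circuit.proof_conj (hi : i ∉ C.leaf) (hc : i ∈ C.conj) :
    C.Proof F N i ↔ ∀ j ∈ C.ins i, C.Proof F N j := by
  constructor
  · rintro (⟨h, -, -⟩ | ⟨-, -, h⟩ | ⟨-, h, -, -⟩)
    · exact absurd h hi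
    · exact h
    · exact absurd hc h
  · exact Circuit.Proof.conj hi hc

theorem Circuit.proof_disj (hi : i ∉ C.leaf) (hc : i ∉ C.conj) :
    C.Proof F N i ↔ ∃ j ∈ C.ins i, C.Proof F N j := by
  constructor
  · rintro (⟨h, -, -⟩ | ⟨-, h, -⟩ | ⟨-, -, h1, h2⟩)
    · exact absurd h hi
    · exact absurd h hc
    · exact ⟨_, h1, h2⟩
  · rintro ⟨j, h1, h2⟩
    exact Circuit.Proof.disj hi hc h1 h2

theorem Circuit.Proof.mono {N' : Finset Y} (hN : ∀ e ∈ N, e ∈ F ∨ e ∈ N') (h : C.Proof F N i) :
    C.Proof F N' i := by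
  induction h with
  | leaf h1 h2 h3 =>
    refine Circuit.Proof.leaf h1 h2 fun e he => ?_
    rcases h3 e he with h | h
    · exact Or.inl h
    · exact hN e h
  | conj h1 h2 _ ih => exact Circuit.Proof.conj h1 h2 ih
  | disj h1 h2 h3 _ ih => exact Circuit.Proof.disj h1 h2 h3 ih

end Pool.Agent.H29.NW.SC
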