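import Pool.Agent.H29.NW.SSat
import Pool.Agent.H25.NA.Main

/-!
The choice of the parameters for satisfiability.
-/

open Finset Filter Topology

namespace Pool.Agent.H29.NW.SC

open H13

theorem card_clause_le (m d : ℕ) : Fintype.card (Clause m d) ≤ (2 * m + 1) ^ d := by
  classical
  have h1 : Function.Injective (fun D : Clause m d => word D) := by
    intro D D' h
    have h2 : ∀ D D' : Clause m d, word D = word D' → D.1 ⊆ D'.1 := by
      intro D D' h l hl
      obtain ⟨i, hi⟩ := word_mem hl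
      rw [h] at hi
      exact mem_of_word hi
    exact Subtype.ext (Finset.Subset.antisymm (h2 D D' h) (h2 D' D h.symm))
  have h2 := Fintype.card_le_of_injective _ h1
  rw [Fintype.card_fun, Fintype.card_option, Fintype.card_prod, Fintype.card_fin,
    Fintype.card_bool, Fintype.card_fin, mul_comm m 2] at h2
  exact h2

/-- the asymptotic comparison -/
theorem growth (ν E E₂ δ : ℝ) (hE₂ : 0 < E₂) (hE : E < E₂) (hν : 0 < ν) (hδ : 0 < δ) :
    ∀ᶠ n : ℕ in atTop, 2 + ν * Real.logb 2 n + (n : ℝ) ^ E ≤ δ * (n : ℝ) ^ E₂ := by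
  have hcast : Tendsto (fun n : ℕ => (n : ℝ)) atTop atTop := tendsto_natCast_atTop_atTop
  have t1 : Tendsto (fun n : ℕ => (n : ℝ) ^ (-(E₂ - E))) atTop (𝓝 0) :=
    (tendsto_rpow_neg_atTop (by linarith)).comp hcast
  have t2 : Tendsto (fun n : ℕ => (n : ℝ) ^ (-E₂)) atTop (𝓝 0) :=
    (tendsto_rpow_neg_atTop hE₂).comp hcast
  have t3 : Tendsto (fun n : ℕ => (n : ℝ) ^ (-(E₂ / 2))) atTop (𝓝 0) :=
    (tendsto_rpow_neg_atTop (by linarith)).comp hcast
  have e1 := t1.eventually (gt_mem_nhds (show (0 : ℝ) < δ / 3 by positivity))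
  have e2 := t2.eventually (gt_mem_nhds (show (0 : ℝ) < δ / 6 by positivity))
  have e3 := t3.eventually (gt_mem_nhds (show (0 : ℝ) < δ / 3 / (ν * (2 * (2 / E₂))) by positivity))
  filter_upwards [e1, e2, e3, eventually_ge_atTop 1] with n h1 h2 h3 hn
  have hn1 : (1 : ℝ) ≤ n := by exact_mod_cast hn
  have hn0 : (0 : ℝ) < n := by linarith
  have hp : 0 < (n : ℝ) ^ E₂ := Real.rpow_pos_of_pos hn0 _
  have g1 : (n : ℝ) ^ E ≤ δ / 3 * (n : ℝ) ^ E₂ := by
    have : (n : ℝ) ^ E = (n : ℝ) ^ (-(E₂ - E)) * (n : ℝ) ^ E₂ := by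
      rw [← Real.rpow_add hn0]; congr 1; ring
    rw [this]
    exact mul_le_mul_of_nonneg_right h1.le hp.le
  have g2 : 2 ≤ δ / 3 * (n : ℝ) ^ E₂ := by
    have h4 : (n : ℝ) ^ (-E₂) * (n : ℝ) ^ E₂ = 1 := by
      rw [← Real.rpow_add hn0]; simp
    have h5 : (n : ℝ) ^ (-E₂) * (n : ℝ) ^ E₂ ≤ δ / 6 * (n : ℝ) ^ E₂ :=
      mul_le_mul_of_nonneg_right h2.le hp.le
    rw [h4] at h5
    linarith
  have g3 : ν * Real.logb 2 n ≤ δ / 3 * (n : ℝ) ^ E₂ := by
    have h4 : Real.logb 2 n ≤ 2 * Real.log n := by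
      unfold Real.logb
      rw [div_le_iff₀ (Real.log_pos (by norm_num))]
      have : 0 ≤ Real.log n := Real.log_nonneg hn1
      nlinarith [Real.log_two_gt_d9]
    have h5 : Real.log n ≤ (n : ℝ) ^ (E₂ / 2) / (E₂ / 2) :=
      Real.log_le_rpow_div hn0.le (by linarith)
    have h6 : (n : ℝ) ^ (E₂ / 2) = (n : ℝ) ^ (-(E₂ / 2)) * (n : ℝ) ^ E₂ := by
      rw [← Real.rpow_add hn0]; congr 1; ring
    have h7 : (n : ℝ) ^ (E₂ / 2) ≤ δ / 3 / (ν * (2 * (2 / E₂))) * (n : ℝ) ^ E₂ := by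
      rw [h6]
      exact mul_le_mul_of_nonneg_right h3.le hp.le
    have h8 : ν * Real.logb 2 n ≤ (ν * (2 * (2 / E₂))) * (n : ℝ) ^ (E₂ / 2) := by
      calc ν * Real.logb 2 n ≤ ν * (2 * ((n : ℝ) ^ (E₂ / 2) / (E₂ / 2))) := by
            apply mul_le_mul_of_nonneg_left _ hν.le
            linarith
        _ = _ := by
            field_simp
    refine h8.trans ?_
    calc (ν * (2 * (2 / E₂))) * (n : ℝ) ^ (E₂ / 2)
        ≤ (ν * (2 * (2 / E₂))) * (δ / 3 / (ν * (2 * (2 / E₂))) * (n : ℝ) ^ E₂) :=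
          mul_le_mul_of_nonneg_left h7 (by positivity)
      _ = _ := by field_simp
  linarith

/-- Main theorem. -/
theorem main (k d : ℕ) (hd : 3 ≤ d) (hdk : d ≤ k) (ν E : ℝ) (hν0 : 0 < ν) (hνd : ν ≤ d)
    (hE : E < ν / d * (1 - 1 / (d : ℝ))) :
    ∃ n₀ : ℕ, ∀ n ≥ n₀, ∀ a w s : ℕ, n ^ 2 ≤ a → (a : ℝ) ≤ ((n : ℝ) / (5 * k)) ^ k →
      (w : ℝ) ≤ (n : ℝ) ^ ((k : ℝ) - ν) → ∀ (C : Circuit (Clause n k) s) (out : Fin s),
      (∀ F : Finset (Clause n k), a ≤ #F → (#F : ℝ) ≤ a + (n : ℝ) ^ ν → Satisfiable F →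
        ¬ C.Proof F Finset.univ out) →
      (∀ F : Finset (Clause n k), a ≤ #F → (#F : ℝ) ≤ a + (n : ℝ) ^ ν → ¬ Satisfiable F →
        ∃ N : Finset (Clause n k), #N ≤ w ∧ C.Proof F N out) →
      (2 : ℝ) ^ ((n : ℝ) ^ E) < s := by
  classical
  have hk3 : 3 ≤ k := hd.trans hdk
  have hd0 : (0 : ℝ) < d := by
    have : 0 < d := by omega
    exact_mod_cast this
  have hk0 : (0 : ℝ) < k := by
    have : 0 < k := by omega
    exact_mod_cast this
  have hk1 : (1 : ℝ) ≤ k := by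
    have : 1 ≤ k := by omega
    exact_mod_cast this
  -- the exponent of the small formula
  have hgap : max (E * (d / ν)) 0 < 1 - 1 / (d : ℝ) := by
    rw [max_lt_iff]
    constructor
    · have h1 : E * (d / ν) < ν / d * (1 - 1 / (d : ℝ)) * (d / ν) :=
        mul_lt_mul_of_pos_right hE (by positivity)
      have h2 : ν / d * (1 - 1 / (d : ℝ)) * (d / ν) = 1 - 1 / (d : ℝ) := by
        field_simp
      rwa [h2] at h1
    · have h3 : (3 : ℝ) ≤ d := by exact_mod_cast hd
      rw [sub_pos, div_lt_one hd0]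
      linarith
  obtain ⟨E₁, hE₁, hE₁'⟩ := exists_between hgap
  have hE₁0 : 0 < E₁ := lt_of_le_of_lt (le_max_right _ _) hE₁
  have hEE₁ : E < ν / d * E₁ := by
    have h1 : E * (d / ν) < E₁ := lt_of_le_of_lt (le_max_left _ _) hE₁
    have h2 : E * (d / ν) * (ν / d) < E₁ * (ν / d) := mul_lt_mul_of_pos_right h1 (by positivity)
    have h3 : E * (d / ν) * (ν / d) = E := by field_simp
    rw [h3] at h2
    linarith
  obtain ⟨m₀, hm₀⟩ := Pool.Agent.H25.NA.main d d hd le_rfl d E₁ hd0 le_rfl (by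
    rw [div_self hd0.ne', one_mul]; exact hE₁')
  -- the constant
  set c : ℝ := 1 / (10 * k) ^ k with hc
  have hc0 : 0 < c := by positivity
  have hc1 : c ≤ 1 / 10 := by
    rw [hc]
    apply one_div_le_one_div_of_le (by norm_num)
    calc (10 : ℝ) ≤ 10 * k := by linarith
      _ = (10 * k) ^ 1 := (pow_one _).symm
      _ ≤ (10 * k) ^ k := pow_le_pow_right₀ (by linarith) (by omega)
  have hβ : 0 < ν / d := by positivity
  have hβ1 : ν / d ≤ 1 := by rw [div_le_one hd0]; exact hνd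
  have hcast : Tendsto (fun n : ℕ => (n : ℝ)) atTop atTop := tendsto_natCast_atTop_atTop
  have t1 : Tendsto (fun n : ℕ => (n : ℝ) ^ (ν / d)) atTop atTop :=
    (tendsto_rpow_atTop hβ).comp hcast
  have e1 := t1.eventually (eventually_ge_atTop ((2 * (max m₀ d + 1) : ℝ) / c))
  have e2 := growth ν E (ν / d * E₁) ((c / 2) ^ E₁) (by positivity) hEE₁ hν0 (by positivity)
  obtain ⟨n₀, hn₀⟩ := eventually_atTop.1 (e1.and e2)
  refine ⟨max n₀ (20 * k + 20), fun n hn a w s han hak hw C out hrej hacc => ?_⟩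
  obtain ⟨hA, hB⟩ := hn₀ n (le_trans (le_max_left _ _) hn)
  have hn20 : 20 * k + 20 ≤ n := le_trans (le_max_right _ _) hn
  have hnpos : 0 < n := by omega
  have hn1 : (1 : ℝ) ≤ n := by exact_mod_cast hnpos
  have hn0 : (0 : ℝ) < n := by linarith
  set x : ℝ := (n : ℝ) ^ (ν / d) with hx
  have hxn : x ≤ n := by
    calc x ≤ (n : ℝ) ^ (1 : ℝ) := Real.rpow_le_rpow_of_exponent_le hn1 hβ1
      _ = n := Real.rpow_one _
  have hx0 : 0 < x := Real.rpow_pos_of_pos hn0 _
  set m : ℕ := ⌊c * x⌋₊ with hm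
  have hmle : (m : ℝ) ≤ c * x := Nat.floor_le (by positivity)
  have hmlt : c * x < m + 1 := Nat.lt_floor_add_one _
  have hcx : 2 * ((max m₀ d : ℕ) + 1 : ℝ) ≤ c * x := by
    rw [div_le_iff₀ hc0] at hA
    linarith
  have hmax : max m₀ d + 1 ≤ m := by
    have h1 : ((max m₀ d : ℕ) + 1 : ℝ) < m + 1 := by
      have h2 : (0 : ℝ) ≤ ((max m₀ d : ℕ) : ℝ) := by positivity
      linarith
    have h2 : ((max m₀ d + 1 : ℕ) : ℝ) < ((m + 1 : ℕ) : ℝ) := by push_cast; push_cast at h1; linarith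
    have h3 : max m₀ d + 1 < m + 1 := by exact_mod_cast h2
    omega
  have hm0m : m₀ ≤ m := by
    have := le_max_left m₀ d
    omega
  have hdm : d ≤ m := by
    have := le_max_right m₀ d
    omega
  have hm1 : 1 ≤ m := by omega
  have hmr1 : (1 : ℝ) ≤ m := by exact_mod_cast hm1
  have hmhalf : c / 2 * x ≤ m := by linarith
  have hmn : 20 * (m : ℝ) ≤ 2 * n := by
    have : c * x ≤ 1 / 10 * n := mul_le_mul hc1 hxn hx0.le (by norm_num)
    linarith
  -- the block sizes
  set q := n / (4 * m) with hq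
  set p := n / (4 * k) with hp
  have hq5 : (n : ℝ) / (5 * m) ≤ 2 * q := by
    have h1 : (n : ℝ) / (4 * m) < q + 1 := by
      have := Nat.lt_floor_add_one ((n : ℝ) / (4 * m))
      have h2 : ⌊(n : ℝ) / (4 * m)⌋₊ = q := by
        rw [hq]
        have := Nat.floor_div_eq_div (K := ℝ) n (4 * m)
        push_cast at this
        exact this
      rwa [h2] at this
    have h2 : (2 : ℝ) ≤ n / (4 * m) := by
      rw [le_div_iff₀ (by positivity)]
      linarith
    have h3 : (n : ℝ) / (5 * m) ≤ n / (4 * m) := by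
      apply div_le_div_of_nonneg_left hn0.le (by positivity)
      linarith
    linarith
  have hp5 : (n : ℝ) / (5 * k) ≤ p := by
    have h1 : (n : ℝ) / (4 * k) < p + 1 := by
      have := Nat.lt_floor_add_one ((n : ℝ) / (4 * k))
      have h2 : ⌊(n : ℝ) / (4 * k)⌋₊ = p := by
        rw [hp]
        have := Nat.floor_div_eq_div (K := ℝ) n (4 * k)
        push_cast at this
        exact this
      rwa [h2] at this
    have h2 : (n : ℝ) / (4 * k) - n / (5 * k) = n / (20 * k) := by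
      field_simp; norm_num
    have h3 : (1 : ℝ) ≤ n / (20 * k) := by
      rw [one_le_div (by positivity)]
      have : ((20 * k : ℕ) : ℝ) ≤ n := by exact_mod_cast (by omega : 20 * k ≤ n)
      push_cast at this
      linarith
    linarith
  have hqpos : 0 < q := by
    by_contra h
    have h0 : q = 0 := Nat.eq_zero_of_not_pos h
    rw [h0] at hq5
    have : 0 < (n : ℝ) / (5 * m) := by positivity
    simp at hq5
    linarith
  have hppos : 0 < p := by
    by_contra h
    have h0 : p = 0 := Nat.eq_zero_of_not_pos h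
    rw [h0] at hp5
    have : 0 < (n : ℝ) / (5 * k) := by positivity
    simp at hp5
    linarith
  have h4mq : 4 * (m * q) ≤ n := by
    have := Nat.mul_div_le n (4 * m)
    rw [← hq] at this
    calc 4 * (m * q) = 4 * m * q := by ring
      _ ≤ n := this
  have h4kp : 4 * (k * p) ≤ n := by
    have := Nat.mul_div_le n (4 * k)
    rw [← hp] at this
    calc 4 * (k * p) = 4 * k * p := by ring
      _ ≤ n := this
  have hdq : d * q ≤ m * q := Nat.mul_le_mul_right _ hdm
  have hkdp : (k - d) * p ≤ k * p := Nat.mul_le_mul_right _ (Nat.sub_le _ _)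
  have hcard : Fintype.card (Vr m d k q p p) ≤ Fintype.card (Fin n) := by
    simp only [Fintype.card_sum, Fintype.card_prod, Fintype.card_fin]
    omega
  have hNe : Nonempty (Vr m d k q p p) := ⟨Sum.inl (⟨0, hm1⟩, ⟨0, hqpos⟩)⟩
  obtain ⟨emb⟩ := Function.Embedding.nonempty_of_card_le hcard
  obtain ⟨Fx, hFx, hFa⟩ := exists_frame emb hk3 hppos a (by
    refine le_trans ?_ han
    have h1 : m * q * q ≤ m * q * n := Nat.mul_le_mul_left _ (by
      rw [hq]; exact Nat.div_le_self _ _)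
    have h2 : 4 * (m * q * n) ≤ n * n := by
      calc 4 * (m * q * n) = 4 * (m * q) * n := by ring
        _ ≤ n * n := Nat.mul_le_mul_right _ h4mq
    have h3 : n * 20 ≤ n * n := Nat.mul_le_mul_left _ (by omega)
    have h4 : n ^ 2 = n * n := sq n
    omega) (by
    have h1 : (a : ℝ) ≤ (p : ℝ) ^ k :=
      hak.trans (pow_le_pow_left₀ (by positivity) hp5 k)
    exact_mod_cast h1)
  -- the number of slots
  have hslots : (Fintype.card (Clause m d) : ℝ) ≤ (n : ℝ) ^ ν := by
    have h1 : (Fintype.card (Clause m d) : ℝ) ≤ ((2 * m + 1 : ℕ) : ℝ) ^ d := by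
      exact_mod_cast card_clause_le m d
    have h2 : ((2 * m + 1 : ℕ) : ℝ) ≤ x := by
      push_cast
      nlinarith
    calc (Fintype.card (Clause m d) : ℝ) ≤ ((2 * m + 1 : ℕ) : ℝ) ^ d := h1
      _ ≤ x ^ d := pow_le_pow_left₀ (by positivity) h2 d
      _ = (n : ℝ) ^ ν := by
        rw [hx, ← Real.rpow_natCast, ← Real.rpow_mul hn0.le]
        congr 1
        field_simp
  have hwin : ∀ (h : Clause m d → (Fin d → Fin q) × (Fin (k - d) → Fin p))
      (z : Finset (Clause m d)), a ≤ #(Fz Fx (cp emb hdk) h z) ∧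
      (#(Fz Fx (cp emb hdk) h z) : ℝ) ≤ a + (n : ℝ) ^ ν := by
    intro h z
    constructor
    · rw [← hFa]
      exact Finset.card_le_card Finset.subset_union_left
    · have h1 : #(Fz Fx (cp emb hdk) h z) ≤ a + Fintype.card (Clause m d) := by
        refine (Finset.card_union_le _ _).trans ?_
        rw [hFa]
        have h2 : #(z.image (fun i => cp emb hdk i (h i))) ≤ #z := Finset.card_image_le
        have h3 : #z ≤ Fintype.card (Clause m d) := Finset.card_le_univ z
        omega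
      have h2 : (#(Fz Fx (cp emb hdk) h z) : ℝ) ≤ a + Fintype.card (Clause m d) := by
        exact_mod_cast h1
      linarith
  -- the width
  have hwV : 2 * w ≤ Fintype.card ((Fin d → Fin q) × (Fin (k - d) → Fin p)) := by
    rw [Fintype.card_prod, Fintype.card_fun, Fintype.card_fun, Fintype.card_fin,
      Fintype.card_fin, Fintype.card_fin, Fintype.card_fin]
    have h1 : 2 * (n : ℝ) ^ ((k : ℝ) - ν) ≤ (q : ℝ) ^ d * (p : ℝ) ^ (k - d) := by
      have h2 : (n : ℝ) / (10 * m) ≤ q := by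
        have : (n : ℝ) / (10 * m) = n / (5 * m) / 2 := by field_simp; norm_num
        rw [this]; linarith
      have h3 : ((n : ℝ) / (10 * m)) ^ d * ((n : ℝ) / (5 * k)) ^ (k - d) ≤
          (q : ℝ) ^ d * (p : ℝ) ^ (k - d) :=
        mul_le_mul (pow_le_pow_left₀ (by positivity) h2 d)
          (pow_le_pow_left₀ (by positivity) hp5 _) (by positivity) (by positivity)
      refine le_trans ?_ h3
      have h4 : (n : ℝ) / (10 * k) ≤ n / (5 * k) := by
        apply div_le_div_of_nonneg_left hn0.le (by positivity)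
        linarith
      have h5 : ((n : ℝ) / (10 * m)) ^ d * ((n : ℝ) / (10 * k)) ^ (k - d) ≤
          ((n : ℝ) / (10 * m)) ^ d * ((n : ℝ) / (5 * k)) ^ (k - d) :=
        mul_le_mul_of_nonneg_left (pow_le_pow_left₀ (by positivity) h4 _) (by positivity)
      refine le_trans ?_ h5
      -- compare with n ^ k / (c' n ^ ν)
      have h6 : (m : ℝ) ^ d ≤ c ^ d * (n : ℝ) ^ ν := by
        calc (m : ℝ) ^ d ≤ (c * x) ^ d := pow_le_pow_left₀ (by positivity) hmle d
          _ = c ^ d * x ^ d := mul_pow _ _ _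
          _ = c ^ d * (n : ℝ) ^ ν := by
            congr 1
            rw [hx, ← Real.rpow_natCast, ← Real.rpow_mul hn0.le]
            congr 1
            field_simp
      have h7 : c ^ d ≤ c / 100 := by
        have h8 : c ^ d ≤ c ^ 3 := pow_le_pow_of_le_one hc0.le (by linarith) hd
        have h9 : c ^ 3 = c * (c * c) := by ring
        have h10 : c * c ≤ 1 / 100 := by nlinarith
        rw [h9] at h8
        nlinarith
      have h8 : ((n : ℝ) / (10 * m)) ^ d * ((n : ℝ) / (10 * k)) ^ (k - d) =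
          (n : ℝ) ^ k / ((10 : ℝ) ^ k * ((m : ℝ) ^ d * (k : ℝ) ^ (k - d))) := by
        rw [div_pow, div_pow, mul_pow, mul_pow, div_mul_div_comm]
        obtain ⟨b, hb⟩ := Nat.exists_eq_add_of_le hdk
        have h9 : k - d = b := by omega
        rw [h9, ← pow_add, ← hb]
        congr 1
        rw [hb, pow_add]
        push_cast
        ring
      rw [h8, le_div_iff₀ (by positivity)]
      have h9 : (n : ℝ) ^ ((k : ℝ) - ν) * (n : ℝ) ^ ν = (n : ℝ) ^ k := by
        rw [← Real.rpow_add hn0, sub_add_cancel, Real.rpow_natCast]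
      have h10 : (k : ℝ) ^ (k - d) ≤ (k : ℝ) ^ k :=
        pow_le_pow_right₀ hk1 (Nat.sub_le _ _)
      have h11 : (10 : ℝ) ^ k * ((m : ℝ) ^ d * (k : ℝ) ^ (k - d)) ≤ 1 / 100 * (n : ℝ) ^ ν := by
        calc (10 : ℝ) ^ k * ((m : ℝ) ^ d * (k : ℝ) ^ (k - d))
            ≤ (10 : ℝ) ^ k * ((c / 100 * (n : ℝ) ^ ν) * (k : ℝ) ^ k) := by
              apply mul_le_mul_of_nonneg_left _ (by positivity)
              apply mul_le_mul _ h10 (by positivity) (by positivity)
              refine h6.trans ?_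
              exact mul_le_mul_of_nonneg_right h7 (by positivity)
          _ = (c * (10 * k) ^ k) * (1 / 100 * (n : ℝ) ^ ν) := by rw [mul_pow]; ring
          _ = 1 / 100 * (n : ℝ) ^ ν := by
              rw [hc, one_div, inv_mul_cancel₀ (by positivity), one_mul]
      calc 2 * (n : ℝ) ^ ((k : ℝ) - ν) * ((10 : ℝ) ^ k * ((m : ℝ) ^ d * (k : ℝ) ^ (k - d)))
          ≤ 2 * (n : ℝ) ^ ((k : ℝ) - ν) * (1 / 100 * (n : ℝ) ^ ν) :=
            mul_le_mul_of_nonneg_left h11 (by positivity)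
        _ = 1 / 50 * ((n : ℝ) ^ ((k : ℝ) - ν) * (n : ℝ) ^ ν) := by ring
        _ = 1 / 50 * (n : ℝ) ^ k := by rw [h9]
        _ ≤ (n : ℝ) ^ k := by
            have : (0 : ℝ) < (n : ℝ) ^ k := by positivity
            linarith
    have h2 : (2 * (w : ℝ)) ≤ (q : ℝ) ^ d * (p : ℝ) ^ (k - d) := by linarith
    exact_mod_cast h2
  have hNV : Nonempty ((Fin d → Fin q) × (Fin (k - d) → Fin p)) :=
    ⟨(fun _ => ⟨0, hqpos⟩, fun _ => ⟨0, hppos⟩)⟩
  obtain ⟨C', out', hC'⟩ := reduce (T := Fintype.card (Clause m d) + 1) C out (cp emb hdk)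
    (cp_injective hdk) Fx (fun D b => hFx.notMem hdk D b) hwV
    (fun z => ¬ Satisfiable z)
    (fun h z hz => by
      rw [not_not] at hz
      exact hrej _ (hwin h z).1 (hwin h z).2 ((hFx.satisfiable_iff hdk hqpos h z).2 hz))
    (fun h z hz => hacc _ (hwin h z).1 (hwin h z).2
      (fun hs => hz ((hFx.satisfiable_iff hdk hqpos h z).1 hs))) (by omega)
  have hbase := hm₀ m hm0m _ 0 0 (by simp) C' out' (Or.inr hC')
  -- conclusion
  by_contra hs
  push Not at hs
  set M : ℝ := (n : ℝ) ^ ν with hM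
  have hM1 : 1 ≤ M := Real.one_le_rpow hn1 hν0.le
  have hS : (1 : ℝ) ≤ (2 : ℝ) ^ ((n : ℝ) ^ E) :=
    Real.one_le_rpow (by norm_num) (by positivity)
  have h1 : ((Fintype.card (Clause m d) + ((Fintype.card (Clause m d) + 1) * s + 1) : ℕ) : ℝ) ≤
      4 * M * (2 : ℝ) ^ ((n : ℝ) ^ E) := by
    push_cast
    set S := (2 : ℝ) ^ ((n : ℝ) ^ E)
    set B := (Fintype.card (Clause m d) : ℝ)
    have hB0 : 0 ≤ B := by positivity
    have hs0 : (0 : ℝ) ≤ s := by positivity
    calc B + ((B + 1) * s + 1) ≤ M + ((M + 1) * S + 1) := by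
          have : (B + 1) * s ≤ (M + 1) * S := mul_le_mul (by linarith) hs hs0 (by linarith)
          linarith
      _ ≤ 4 * M * S := by nlinarith
  have h2 : 4 * M * (2 : ℝ) ^ ((n : ℝ) ^ E) ≤ (2 : ℝ) ^ ((m : ℝ) ^ E₁) := by
    have h3 : (4 : ℝ) = 2 ^ (2 : ℝ) := by norm_num
    have h4 : M = (2 : ℝ) ^ (ν * Real.logb 2 n) := by
      rw [mul_comm, Real.rpow_mul (by norm_num), Real.rpow_logb (by norm_num) (by norm_num) hn0]
    rw [h3, h4, ← Real.rpow_add (by norm_num), ← Real.rpow_add (by norm_num)]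
    apply Real.rpow_le_rpow_of_exponent_le (by norm_num)
    refine hB.trans ?_
    calc (c / 2) ^ E₁ * (n : ℝ) ^ (ν / d * E₁) = (c / 2 * x) ^ E₁ := by
          rw [Real.mul_rpow (by positivity) hx0.le, hx, ← Real.rpow_mul hn0.le]
      _ ≤ (m : ℝ) ^ E₁ := Real.rpow_le_rpow (by positivity) hmhalf hE₁0.le
  linarith

end Pool.Agent.H29.NW.SC
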