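import Pool.Agent.H29.NW.Hide
import Pool.Agent.H29.NW.SCircuit
import Pool.Agent.H25.NS.Circuit

/-!
From circuits whose proofs use few absent elements to monotone circuits on the slots.
-/

open Finset

namespace Pool.Agent.H29.NW.SC

open Pool.Agent.H29.NW

/-- circuits indexed by a finite type with a rank function -/
theorem to_circuit {I : Type} (J : Type) [Fintype J] [DecidableEq J] (ρ : J → ℕ)
    (f : J → Finset I → Prop) (ins : J → Finset J)
    (hlt : ∀ i, ∀ j ∈ ins i, ρ j < ρ i)
    (hg : ∀ i, (∃ c, ∀ z, f i z ↔ c ∈ z) ∨ (∀ z, f i z ↔ ∀ j ∈ ins i, f j z) ∨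
      (∀ z, f i z ↔ ∃ j ∈ ins i, f j z)) (o : J) :
    ∃ (C : Pool.Agent.H25.NS.Circuit I (Fintype.card J) 0 0) (out : Fin (Fintype.card J)),
      ∀ z, C.fn out z ↔ f o z := by
  let e0 := Fintype.equivFin J
  let τ : Fin (Fintype.card J) → ℕ := fun i => ρ (e0.symm i)
  let e : J ≃ Fin (Fintype.card J) := e0.trans (Tuple.sort τ).symm
  have he : ∀ j j', ρ j < ρ j' → e j < e j' := by
    intro j j' h
    by_contra hcon
    have h1 := Tuple.monotone_sort τ (not_lt.1 hcon)
    simp [τ, e] at h1
    omega
  have hlt' : ∀ i, ∀ j ∈ (ins (e.symm i)).map e.toEmbedding, j < i := by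
    intro i j hj
    rw [Finset.mem_map] at hj
    obtain ⟨j', hj', rfl⟩ := hj
    have := he _ _ (hlt _ _ hj')
    simpa using this
  refine ⟨⟨fun i => f (e.symm i), ∅, by simp, ?_⟩, e o, fun z => by simp⟩
  intro i
  rcases hg (e.symm i) with h | h | h
  · exact Or.inl h
  · right; left
    refine ⟨(ins (e.symm i)).map e.toEmbedding, hlt' i, fun z => ?_⟩
    rw [h]
    constructor
    · intro h1 j hj
      rw [Finset.mem_map] at hj
      obtain ⟨j', hj', rfl⟩ := hj
      simpa using h1 j' hj'
    · intro h1 j hj
      have := h1 (e j) (Finset.mem_map_of_mem e.toEmbedding hj)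
      simpa using this
  · right; right; left
    refine ⟨(ins (e.symm i)).map e.toEmbedding, hlt' i, fun z => ?_⟩
    rw [h]
    constructor
    · rintro ⟨j, hj, h1⟩
      exact ⟨e j, Finset.mem_map_of_mem e.toEmbedding hj, by simpa using h1⟩
    · rintro ⟨j, hj, h1⟩
      rw [Finset.mem_map] at hj
      obtain ⟨j', hj', rfl⟩ := hj
      exact ⟨j', hj', by simpa using h1⟩

variable {I V Y : Type} [Fintype I] [DecidableEq I] [Fintype V] [Fintype Y] [DecidableEq Y]

/-- the test sets: fixed elements together with the hidden copies of the slots in `z` -/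
def Fz (Fx : Finset Y) (pos : I → V → Y) (h : I → V) (z : Finset I) : Finset Y :=
  Fx ∪ z.image (fun i => pos i (h i))

/-- The reduction. -/
theorem reduce {s w T : ℕ} (C : Circuit Y s) (out : Fin s) [Nonempty V] (pos : I → V → Y)
    (hpos : Function.Injective (fun p : I × V => pos p.1 p.2)) (Fx : Finset Y)
    (hFx : ∀ i v, pos i v ∉ Fx) (hw : 2 * w ≤ Fintype.card V) (f : Finset I → Prop)
    (hrej : ∀ h z, ¬ f z → ¬ C.Proof (Fz Fx pos h z) Finset.univ out)
    (hacc : ∀ h z, f z → ∃ N : Finset Y, #N ≤ w ∧ C.Proof (Fz Fx pos h z) N out)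
    (hT : Fintype.card I < T) :
    ∃ (C' : Pool.Agent.H25.NS.Circuit I (Fintype.card I + (T * s + 1)) 0 0) (out' : Fin _),
      ∀ z : Finset I, C'.fn out' z ↔ f z := by
  classical
  -- membership in the test sets
  have hlive : ∀ h z i, pos i (h i) ∈ Fz Fx pos h z ↔ i ∈ z := by
    intro h z i
    unfold Fz
    rw [Finset.mem_union, Finset.mem_image]
    constructor
    · rintro (h1 | ⟨j, hj, h1⟩)
      · exact absurd h1 (hFx _ _)
      · have := hpos (a₁ := (j, h j)) (a₂ := (i, h i)) h1
        rw [Prod.mk.injEq] at this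
        rw [← this.1]; exact hj
    · intro hi
      exact Or.inr ⟨i, hi, rfl⟩
  let Nh : (I → V) → Finset Y := fun h => univ.filter (fun e => ∀ i, e ≠ pos i (h i))
  have hdead : ∀ h z e, e ∈ Nh h → (e ∈ Fz Fx pos h z ↔ e ∈ Fx) := by
    intro h z e he
    unfold Fz
    rw [Finset.mem_union, Finset.mem_image]
    constructor
    · rintro (h1 | ⟨j, hj, h1⟩)
      · exact h1
      · exact absurd h1.symm ((Finset.mem_filter.1 he).2 j)
    · exact Or.inl
  have hNh : ∀ h e, e ∉ Nh h → ∃ i, e = pos i (h i) := by
    intro h e he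
    by_contra hcon
    push Not at hcon
    exact he (Finset.mem_filter.2 ⟨Finset.mem_univ _, hcon⟩)
  -- certificates
  let cert : Finset Y → Finset Y := fun F =>
    if hF : ∃ N : Finset Y, #N ≤ w ∧ C.Proof F N out then Classical.choose hF else ∅
  have hcert0 : ∀ F, #(cert F) ≤ w := by
    intro F
    by_cases hF : ∃ N : Finset Y, #N ≤ w ∧ C.Proof F N out
    · have := Classical.choose_spec hF
      simp only [cert, dif_pos hF]
      exact this.1
    · simp only [cert, dif_neg hF]
      simp
  have hcert : ∀ h z, f z → C.Proof (Fz Fx pos h z) (cert (Fz Fx pos h z)) out := by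
    intro h z hz
    have hF := hacc h z hz
    have := Classical.choose_spec hF
    simp only [cert, dif_pos hF]
    exact this.2
  obtain ⟨hs, hhs⟩ := hide (X := Finset I) pos hpos w hw (fun z => {i | i ∈ z})
    (fun z h => cert (Fz Fx pos h z)) (fun z h => hcert0 _)
    (fun z h h' hh => by
      have : Fz Fx pos h z = Fz Fx pos h' z := by
        unfold Fz
        congr 1
        apply Finset.image_congr
        intro i hi
        simp only
        rw [hh i (Finset.mem_coe.1 hi)]
      rw [this]) T
    (by
      rw [Fintype.card_finset]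
      exact Nat.pow_lt_pow_right (by norm_num) hT)
  have hgood : ∀ z, f z → ∃ t < T, C.Proof (Fz Fx pos (hs t) z) (Nh (hs t)) out := by
    intro z hz
    obtain ⟨t, ht, h⟩ := hhs z
    refine ⟨t, ht, (hcert (hs t) z hz).mono ?_⟩
    intro e he
    by_cases heN : e ∈ Nh (hs t)
    · exact Or.inr heN
    left
    obtain ⟨i, rfl⟩ := hNh _ _ heN
    by_cases hi : i ∈ z
    · exact (hlive _ _ _).2 hi
    · exact absurd he (h i hi)
  let J := I ⊕ ((Fin T × Fin s) ⊕ Unit)
  let ρ : J → ℕ := fun j => match j with
    | Sum.inl _ => 0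
    | Sum.inr (Sum.inl (_, i)) => i + 1
    | Sum.inr (Sum.inr _) => s + 1
  let g : J → Finset I → Prop := fun j z => match j with
    | Sum.inl i => i ∈ z
    | Sum.inr (Sum.inl (t, i)) => C.Proof (Fz Fx pos (hs t) z) (Nh (hs t)) i
    | Sum.inr (Sum.inr _) => ∃ t : Fin T, C.Proof (Fz Fx pos (hs t) z) (Nh (hs t)) out
  let ins : J → Finset J := fun j => match j with
    | Sum.inl _ => ∅
    | Sum.inr (Sum.inl (t, i)) =>
      if i ∈ C.leaf then
        (if C.test i (Fz Fx pos (hs t) univ) then
          (univ.filter (fun a : I => pos a (hs t a) ∈ C.reads i)).map Function.Embedding.inl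
        else ∅)
      else (C.ins i).map ⟨fun j => Sum.inr (Sum.inl (t, j)),
        fun a b h => (Prod.mk.inj (Sum.inl.inj (Sum.inr.inj h))).2⟩
    | Sum.inr (Sum.inr _) => univ.map ⟨fun t : Fin T => Sum.inr (Sum.inl (t, out)),
        fun a b h => (Prod.mk.inj (Sum.inl.inj (Sum.inr.inj h))).1⟩
  obtain ⟨C', out', hC'⟩ := to_circuit J ρ g ins (by
    rintro (p | ⟨t, i⟩ | u) j hj
    · exact absurd hj (Finset.notMem_empty _)
    · by_cases hi : i ∈ C.leaf
      · by_cases hb : C.test i (Fz Fx pos (hs t) univ)
        · simp only [ins, if_pos hi, if_pos hb, Finset.mem_map] at hj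
          obtain ⟨p, -, rfl⟩ := hj
          change 0 < (i : ℕ) + 1
          omega
        · simp only [ins, if_pos hi, if_neg hb] at hj
          exact absurd hj (Finset.notMem_empty _)
      · simp only [ins, if_neg hi, Finset.mem_map] at hj
        obtain ⟨j', hj', rfl⟩ := hj
        change (j' : ℕ) + 1 < i + 1
        have := C.ins_lt i j' hj'
        omega
    · simp only [ins, Finset.mem_map] at hj
      obtain ⟨t, -, rfl⟩ := hj
      change (out : ℕ) + 1 < s + 1
      have := out.2
      omega) (by
    rintro (a | ⟨t, i⟩ | u)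
    · exact Or.inl ⟨a, fun z => Iff.rfl⟩
    · right
      by_cases hi : i ∈ C.leaf
      · have key : ∀ z, C.Proof (Fz Fx pos (hs t) z) (Nh (hs t)) i ↔
            (∀ a, pos a (hs t a) ∈ C.reads i → a ∈ z) ∧ C.test i (Fz Fx pos (hs t) univ) := by
          intro z
          rw [Circuit.proof_leaf hi]
          have h1 : (∀ e ∈ C.reads i, e ∈ Fz Fx pos (hs t) z ∨ e ∈ Nh (hs t)) ↔
              ∀ a, pos a (hs t a) ∈ C.reads i → a ∈ z := by
            constructor
            · intro h a ha
              rcases h _ ha with h2 | h2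
              · exact (hlive _ _ _).1 h2
              · exact absurd rfl ((Finset.mem_filter.1 h2).2 a)
            · intro h e he
              by_cases heN : e ∈ Nh (hs t)
              · exact Or.inr heN
              · left
                obtain ⟨a, rfl⟩ := hNh _ _ heN
                exact (hlive _ _ _).2 (h a he)
          rw [h1]
          have h2 : (∀ a, pos a (hs t a) ∈ C.reads i → a ∈ z) →
              ∀ e ∈ C.reads i, e ∈ Fz Fx pos (hs t) z ↔ e ∈ Fz Fx pos (hs t) univ := by
            intro h e he
            by_cases heN : e ∈ Nh (hs t)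
            · rw [hdead _ _ _ heN, hdead _ _ _ heN]
            · obtain ⟨a, rfl⟩ := hNh _ _ heN
              rw [hlive, hlive]
              exact ⟨fun _ => Finset.mem_univ _, fun _ => h a he⟩
          constructor
          · rintro ⟨h3, h4⟩
            exact ⟨h4, C.test_of_eq i _ _ (h2 h4) h3⟩
          · rintro ⟨h3, h4⟩
            exact ⟨C.test_of_eq i _ _ (fun e he => (h2 h3 e he).symm) h4, h3⟩
        by_cases hb : C.test i (Fz Fx pos (hs t) univ)
        · left
          intro z
          change C.Proof (Fz Fx pos (hs t) z) (Nh (hs t)) i ↔ _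
          rw [key]
          simp only [ins, if_pos hi, if_pos hb]
          constructor
          · rintro ⟨h1, -⟩ j hj
            rw [Finset.mem_map] at hj
            obtain ⟨a, ha, rfl⟩ := hj
            exact h1 a (Finset.mem_filter.1 ha).2
          · intro h
            refine ⟨fun a ha => ?_, hb⟩
            exact h (Sum.inl a) (Finset.mem_map_of_mem _ (Finset.mem_filter.2
              ⟨Finset.mem_univ _, ha⟩))
        · right
          intro z
          change C.Proof (Fz Fx pos (hs t) z) (Nh (hs t)) i ↔ _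
          rw [key]
          simp only [ins, if_pos hi, if_neg hb]
          constructor
          · rintro ⟨-, h⟩
            exact absurd h hb
          · rintro ⟨j, hj, -⟩
            exact absurd hj (Finset.notMem_empty _)
      · by_cases hc : i ∈ C.conj
        · left
          intro z
          change C.Proof (Fz Fx pos (hs t) z) (Nh (hs t)) i ↔ _
          rw [Circuit.proof_conj hi hc]
          simp only [ins, if_neg hi, Finset.mem_map]
          constructor
          · rintro h j ⟨j', hj', rfl⟩
            exact h j' hj'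
          · intro h j hj
            exact h _ ⟨j, hj, rfl⟩
        · right
          intro z
          change C.Proof (Fz Fx pos (hs t) z) (Nh (hs t)) i ↔ _
          rw [Circuit.proof_disj hi hc]
          simp only [ins, if_neg hi, Finset.mem_map]
          constructor
          · rintro ⟨j, hj, h⟩
            exact ⟨_, ⟨j, hj, rfl⟩, h⟩
          · rintro ⟨j, ⟨j', hj', rfl⟩, h⟩
            exact ⟨j', hj', h⟩
    · right; right
      intro z
      simp only [ins, Finset.mem_map]
      constructor
      · rintro ⟨t, h⟩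
        exact ⟨_, ⟨t, Finset.mem_univ _, rfl⟩, h⟩
      · rintro ⟨j, ⟨t, -, rfl⟩, h⟩
        exact ⟨t, h⟩) (Sum.inr (Sum.inr ()))
  have hcJ : Fintype.card J = Fintype.card I + (T * s + 1) := by
    simp only [J, Fintype.card_sum, Fintype.card_prod, Fintype.card_fin, Fintype.card_unit]
  rw [← hcJ]
  refine ⟨C', out', fun z => ?_⟩
  rw [hC']
  change (∃ t : Fin T, C.Proof (Fz Fx pos (hs t) z) (Nh (hs t)) out) ↔ _
  constructor
  · rintro ⟨t, h⟩
    by_contra hz
    exact hrej (hs t) z hz (h.mono (fun e _ => Or.inr (Finset.mem_univ _)))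
  · intro hz
    obtain ⟨t, ht, h⟩ := hgood z hz
    exact ⟨⟨t, ht⟩, h⟩

end Pool.Agent.H29.NW.SC
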