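import Pool.Agent.H13.Sat
import Pool.Agent.H29.NW.SReduce

/-!
Formulas in which every clause of a small formula has many possible copies.
-/

open Finset

namespace Pool.Agent.H29.NW.SC

open H13

variable {n m d k q p u : ℕ}

/-- copies of the variables, two kinds of false variables, and true variables -/
abbrev Vr (m d k q p u : ℕ) :=
  (Fin m × Fin q) ⊕ ((Fin d × Fin q) ⊕ ((Fin (k - d) × Fin p) ⊕ (Fin k × Fin u)))

/-- a clause written as a word -/
theorem exists_word (D : Clause m d) : ∃ φ : Fin d → Option (Fin m × Bool),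
    (∀ l ∈ D.1, ∃ i, φ i = some l) ∧ (∀ i l, φ i = some l → l ∈ D.1) ∧
    ∀ i j l, φ i = some l → φ j = some l → i = j := by
  classical
  obtain ⟨e⟩ : Nonempty (D.1 ↪ Fin d) := by
    apply Function.Embedding.nonempty_of_card_le
    rw [Fintype.card_coe, Fintype.card_fin]
    exact D.2
  refine ⟨fun i => if h : ∃ l : D.1, e l = i then some (Classical.choose h).1 else none,
    ?_, ?_, ?_⟩
  · intro l hl
    refine ⟨e ⟨l, hl⟩, ?_⟩
    have h : ∃ l' : D.1, e l' = e ⟨l, hl⟩ := ⟨⟨l, hl⟩, rfl⟩
    beta_reduce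
    rw [dif_pos h]
    have := e.injective (Classical.choose_spec h)
    rw [this]
  · intro i l h
    beta_reduce at h
    by_cases h1 : ∃ l : D.1, e l = i
    · rw [dif_pos h1, Option.some.injEq] at h
      rw [← h]
      exact (Classical.choose h1).2
    · rw [dif_neg h1] at h
      exact absurd h (by simp)
  · intro i j l hi hj
    beta_reduce at hi hj
    by_cases h1 : ∃ l : D.1, e l = i
    · by_cases h2 : ∃ l : D.1, e l = j
      · rw [dif_pos h1, Option.some.injEq] at hi
        rw [dif_pos h2, Option.some.injEq] at hj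
        have h3 : Classical.choose h1 = Classical.choose h2 := Subtype.ext (hi.trans hj.symm)
        rw [← Classical.choose_spec h1, ← Classical.choose_spec h2, h3]
      · rw [dif_neg h2] at hj
        exact absurd hj (by simp)
    · rw [dif_neg h1] at hi
      exact absurd hi (by simp)

noncomputable def word (D : Clause m d) : Fin d → Option (Fin m × Bool) :=
  Classical.choose (exists_word D)

theorem word_mem {D : Clause m d} {l : Fin m × Bool} (h : l ∈ D.1) : ∃ i, word D i = some l :=
  (Classical.choose_spec (exists_word D)).1 l h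

theorem mem_of_word {D : Clause m d} {l : Fin m × Bool} {i : Fin d} (h : word D i = some l) :
    l ∈ D.1 :=
  (Classical.choose_spec (exists_word D)).2.1 i l h

theorem word_inj {D : Clause m d} {l : Fin m × Bool} {i j : Fin d} (hi : word D i = some l)
    (hj : word D j = some l) : i = j :=
  (Classical.choose_spec (exists_word D)).2.2 i j l hi hj

section emb

variable (emb : Vr m d k q p u ↪ Fin n)

def vX (v : Fin m) (c : Fin q) : Fin n := emb (Sum.inl (v, c))
def vY (i : Fin d) (c : Fin q) : Fin n := emb (Sum.inr (Sum.inl (i, c)))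
def vZ (i : Fin (k - d)) (c : Fin p) : Fin n := emb (Sum.inr (Sum.inr (Sum.inl (i, c))))
def vT (i : Fin k) (c : Fin u) : Fin n := emb (Sum.inr (Sum.inr (Sum.inr (i, c))))

/-- the literal at position `i` of the copy -/
noncomputable def litc (D : Clause m d) (c : Fin d → Fin q) (i : Fin d) : Fin n × Bool :=
  match word D i with
  | some l => (vX emb l.1 (c i), l.2)
  | none => (vY emb i (c i), true)

/-- the copies of a clause -/
noncomputable def cp (hdk : d ≤ k) (D : Clause m d)
    (a : (Fin d → Fin q) × (Fin (k - d) → Fin p)) : Clause n k :=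
  ⟨univ.image (litc emb D a.1) ∪ univ.image (fun i => (vZ emb i (a.2 i), true)), by
    refine (Finset.card_union_le _ _).trans ?_
    have h1 : #(univ.image (litc emb D a.1)) ≤ d := Finset.card_image_le.trans (by simp)
    have h2 : #(univ.image (fun i => ((vZ emb i (a.2 i), true) : Fin n × Bool))) ≤ k - d :=
      Finset.card_image_le.trans (by simp)
    omega⟩

variable {emb}

theorem mem_cp {hdk : d ≤ k} {D : Clause m d} {a : (Fin d → Fin q) × (Fin (k - d) → Fin p)}
    {l : Fin n × Bool} : l ∈ (cp emb hdk D a).1 ↔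
      (∃ i, litc emb D a.1 i = l) ∨ ∃ i, (vZ emb i (a.2 i), true) = l := by
  unfold cp
  simp only [Finset.mem_union, Finset.mem_image, Finset.mem_univ, true_and]

theorem litc_some {D : Clause m d} {c : Fin d → Fin q} {i : Fin d} {l : Fin m × Bool}
    (h : word D i = some l) : litc emb D c i = (vX emb l.1 (c i), l.2) := by
  unfold litc; rw [h]

theorem litc_none {D : Clause m d} {c : Fin d → Fin q} {i : Fin d}
    (h : word D i = none) : litc emb D c i = (vY emb i (c i), true) := by
  unfold litc; rw [h]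

theorem litc_cases (D : Clause m d) (c : Fin d → Fin q) (i : Fin d) :
    (∃ l, word D i = some l ∧ litc emb D c i = (vX emb l.1 (c i), l.2)) ∨
    (word D i = none ∧ litc emb D c i = (vY emb i (c i), true)) := by
  rcases h : word D i with _ | l
  · exact Or.inr ⟨rfl, litc_none h⟩
  · exact Or.inl ⟨l, rfl, litc_some h⟩

theorem sub_of_cp_eq {hdk : d ≤ k} {D D' : Clause m d}
    {a a' : (Fin d → Fin q) × (Fin (k - d) → Fin p)}
    (h : cp emb hdk D a = cp emb hdk D' a') : D.1 ⊆ D'.1 := by
  intro l hl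
  obtain ⟨i, hi⟩ := word_mem hl
  have h1 : (vX emb l.1 (a.1 i), l.2) ∈ (cp emb hdk D' a').1 := by
    rw [← h, mem_cp]
    exact Or.inl ⟨i, litc_some hi⟩
  rw [mem_cp] at h1
  rcases h1 with ⟨j, hj⟩ | ⟨j, hj⟩
  · rcases litc_cases (emb := emb) D' a'.1 j with ⟨l', hl', h2⟩ | ⟨-, h2⟩
    · rw [h2] at hj
      simp only [vX, Prod.mk.injEq, emb.injective.eq_iff, Sum.inl.injEq] at hj
      have : l' = l := Prod.ext hj.1.1 hj.2
      rw [← this]
      exact mem_of_word hl'
    · rw [h2] at hj
      simp [vX, vY, emb.injective.eq_iff] at hj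
  · simp [vX, vZ, emb.injective.eq_iff] at hj

theorem cp_injective (hdk : d ≤ k) :
    Function.Injective (fun x : Clause m d × ((Fin d → Fin q) × (Fin (k - d) → Fin p)) =>
      cp emb hdk x.1 x.2) := by
  rintro ⟨D, a⟩ ⟨D', a'⟩ h
  simp only at h
  have hD : D = D' := Subtype.ext (Finset.Subset.antisymm (sub_of_cp_eq h) (sub_of_cp_eq h.symm))
  subst hD
  have h1 : a.1 = a'.1 := by
    funext i
    rcases litc_cases (emb := emb) D a.1 i with ⟨l, hl, h2⟩ | ⟨hl, h2⟩
    · have h3 : (vX emb l.1 (a.1 i), l.2) ∈ (cp emb hdk D a').1 := by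
        rw [← h, mem_cp]
        exact Or.inl ⟨i, h2⟩
      rw [mem_cp] at h3
      rcases h3 with ⟨j, hj⟩ | ⟨j, hj⟩
      · rcases litc_cases (emb := emb) D a'.1 j with ⟨l', hl', h4⟩ | ⟨-, h4⟩
        · rw [h4] at hj
          simp only [vX, Prod.mk.injEq, emb.injective.eq_iff, Sum.inl.injEq] at hj
          have h5 : l' = l := Prod.ext hj.1.1 hj.2
          rw [h5] at hl'
          have h6 : j = i := word_inj hl' hl
          rw [← hj.1.2, h6]
        · rw [h4] at hj
          simp [vX, vY, emb.injective.eq_iff] at hj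
      · simp [vX, vZ, emb.injective.eq_iff] at hj
    · have h3 : ((vY emb i (a.1 i), true) : Fin n × Bool) ∈ (cp emb hdk D a').1 := by
        rw [← h, mem_cp]
        exact Or.inl ⟨i, h2⟩
      rw [mem_cp] at h3
      rcases h3 with ⟨j, hj⟩ | ⟨j, hj⟩
      · rcases litc_cases (emb := emb) D a'.1 j with ⟨l', hl', h4⟩ | ⟨-, h4⟩
        · rw [h4] at hj
          simp [vX, vY, emb.injective.eq_iff] at hj
        · rw [h4] at hj
          simp only [vY, Prod.mk.injEq, emb.injective.eq_iff, Sum.inr.injEq, Sum.inl.injEq,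
            and_true] at hj
          rw [← hj.2, hj.1]
      · simp [vY, vZ, emb.injective.eq_iff] at hj
  have h2 : a.2 = a'.2 := by
    funext i
    have h3 : ((vZ emb i (a.2 i), true) : Fin n × Bool) ∈ (cp emb hdk D a').1 := by
      rw [← h, mem_cp]
      exact Or.inr ⟨i, rfl⟩
    rw [mem_cp] at h3
    rcases h3 with ⟨j, hj⟩ | ⟨j, hj⟩
    · rcases litc_cases (emb := emb) D a'.1 j with ⟨l', hl', h4⟩ | ⟨-, h4⟩
      · rw [h4] at hj
        simp [vX, vZ, emb.injective.eq_iff] at hj
      · rw [h4] at hj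
        simp [vY, vZ, emb.injective.eq_iff] at hj
    · simp only [vZ, Prod.mk.injEq, emb.injective.eq_iff, Sum.inr.injEq, Sum.inl.injEq,
        and_true] at hj
      rw [← hj.2, hj.1]
  rw [Prod.mk.injEq]
  exact ⟨rfl, Prod.ext h1 h2⟩

end emb

/-- the assignment of the big formula -/
noncomputable def bigA (emb : Vr m d k q p u ↪ Fin n) (α : Fin m → Bool) : Fin n → Bool :=
  Function.extend emb (fun x => match x with
    | Sum.inl (v, _) => α v
    | Sum.inr (Sum.inl _) => false
    | Sum.inr (Sum.inr (Sum.inl _)) => false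
    | Sum.inr (Sum.inr (Sum.inr _)) => true) (fun _ => false)

section emb2

variable {emb : Vr m d k q p u ↪ Fin n} {α : Fin m → Bool}

theorem bigA_X (v : Fin m) (c : Fin q) : bigA emb α (vX emb v c) = α v := by
  unfold bigA vX; rw [emb.injective.extend_apply]

theorem bigA_Y (i : Fin d) (c : Fin q) : bigA emb α (vY emb i c) = false := by
  unfold bigA vY; rw [emb.injective.extend_apply]

theorem bigA_Z (i : Fin (k - d)) (c : Fin p) : bigA emb α (vZ emb i c) = false := by
  unfold bigA vZ; rw [emb.injective.extend_apply]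

theorem bigA_T (i : Fin k) (c : Fin u) : bigA emb α (vT emb i c) = true := by
  unfold bigA vT; rw [emb.injective.extend_apply]

end emb2

/-- the requirements on the fixed clauses -/
structure Frame (emb : Vr m d k q p u ↪ Fin n) (Fx : Finset (Clause n k)) : Prop where
  /-- every fixed clause contains a true variable -/
  hasT : ∀ c ∈ Fx, ∃ l ∈ c.1, ∃ i e, l.1 = vT emb i e
  sat : ∀ α : Fin m → Bool, ∀ c ∈ Fx, ∃ l ∈ c.1, bigA emb α l.1 = l.2
  forceY : ∀ τ : Fin n → Bool, (∀ c ∈ Fx, ∃ l ∈ c.1, τ l.1 = l.2) → ∀ i c, τ (vY emb i c) = false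
  forceZ : ∀ τ : Fin n → Bool, (∀ c ∈ Fx, ∃ l ∈ c.1, τ l.1 = l.2) → ∀ i c, τ (vZ emb i c) = false
  forceX : ∀ τ : Fin n → Bool, (∀ c ∈ Fx, ∃ l ∈ c.1, τ l.1 = l.2) → ∀ v c c',
    τ (vX emb v c) = τ (vX emb v c')

theorem Frame.notMem {emb : Vr m d k q p u ↪ Fin n} {Fx : Finset (Clause n k)}
    (hF : Frame emb Fx) (hdk : d ≤ k) (D : Clause m d)
    (a : (Fin d → Fin q) × (Fin (k - d) → Fin p)) : cp emb hdk D a ∉ Fx := by
  intro h
  obtain ⟨l, hl, i, e, hl1⟩ := hF.hasT _ h
  rw [mem_cp] at hl
  rcases hl with ⟨j, hj⟩ | ⟨j, hj⟩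
  · rcases litc_cases (emb := emb) D a.1 j with ⟨l', hl', h4⟩ | ⟨-, h4⟩
    · rw [h4] at hj
      rw [← hj] at hl1
      simp [vX, vT, emb.injective.eq_iff] at hl1
    · rw [h4] at hj
      rw [← hj] at hl1
      simp [vY, vT, emb.injective.eq_iff] at hl1
  · rw [← hj] at hl1
    simp [vZ, vT, emb.injective.eq_iff] at hl1

/-- the big formula is satisfiable if and only if the small one is -/
theorem Frame.satisfiable_iff {emb : Vr m d k q p u ↪ Fin n} {Fx : Finset (Clause n k)}
    (hF : Frame emb Fx) (hdk : d ≤ k) (hq : 0 < q)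
    (h : Clause m d → (Fin d → Fin q) × (Fin (k - d) → Fin p)) (z : Finset (Clause m d)) :
    Satisfiable (Fz Fx (cp emb hdk) h z) ↔ Satisfiable z := by
  constructor
  · rintro ⟨τ, hτ⟩
    have hfx : ∀ c ∈ Fx, ∃ l ∈ c.1, τ l.1 = l.2 := fun c hc =>
      hτ c (Finset.mem_union_left _ hc)
    refine ⟨fun v => τ (vX emb v ⟨0, hq⟩), fun D hD => ?_⟩
    obtain ⟨l, hl, hl'⟩ := hτ (cp emb hdk D (h D))
      (Finset.mem_union_right _ (Finset.mem_image_of_mem _ hD))
    rw [mem_cp] at hl
    rcases hl with ⟨j, hj⟩ | ⟨j, hj⟩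
    · rcases litc_cases (emb := emb) D (h D).1 j with ⟨l', hw, h4⟩ | ⟨-, h4⟩
      · rw [h4] at hj
        refine ⟨l', mem_of_word hw, ?_⟩
        rw [← hj] at hl'
        simp only at hl' ⊢
        rw [hF.forceX τ hfx _ _ ((h D).1 j)]
        exact hl'
      · rw [h4] at hj
        rw [← hj] at hl'
        simp only at hl'
        rw [hF.forceY τ hfx] at hl'
        exact absurd hl' (by simp)
    · rw [← hj] at hl'
      simp only at hl'
      rw [hF.forceZ τ hfx] at hl'
      exact absurd hl' (by simp)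
  · rintro ⟨α, hα⟩
    refine ⟨bigA emb α, fun c hc => ?_⟩
    rw [Fz, Finset.mem_union, Finset.mem_image] at hc
    rcases hc with hc | ⟨D, hD, rfl⟩
    · exact hF.sat α c hc
    · obtain ⟨l, hl, hl'⟩ := hα D hD
      obtain ⟨i, hi⟩ := word_mem hl
      refine ⟨(vX emb l.1 ((h D).1 i), l.2), ?_, ?_⟩
      · rw [mem_cp]
        exact Or.inl ⟨i, litc_some hi⟩
      · rw [bigA_X]
        exact hl'

/-- Frames with a prescribed number of clauses. -/
theorem exists_frame (emb : Vr m d k q p u ↪ Fin n) (hk : 3 ≤ k) (hu : 0 < u) (a : ℕ)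
    (ha : k * u + d * q + (k - d) * p + m * q * q ≤ a) (hau : a ≤ u ^ k) :
    ∃ Fx : Finset (Clause n k), Frame emb Fx ∧ #Fx = a := by
  classical
  let t0 : Fin n := vT emb ⟨0, by omega⟩ ⟨0, hu⟩
  let cT : Fin k × Fin u → Clause n k := fun x => ⟨{(vT emb x.1 x.2, true)}, by
    rw [Finset.card_singleton]; omega⟩
  let cY : Fin d × Fin q → Clause n k := fun x => ⟨{(vY emb x.1 x.2, false), (t0, false)}, by
    refine Finset.card_le_two.trans (by omega)⟩
  let cZ : Fin (k - d) × Fin p → Clause n k := fun x =>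
    ⟨{(vZ emb x.1 x.2, false), (t0, false)}, by
      refine Finset.card_le_two.trans (by omega)⟩
  let cX : (Fin m × Fin q) × Fin q → Clause n k := fun x =>
    ⟨{(vX emb x.1.1 x.1.2, false), (vX emb x.1.1 x.2, true), (t0, false)}, by
      refine Finset.card_le_three.trans hk⟩
  let cF : (Fin k → Fin u) → Clause n k := fun f =>
    ⟨univ.image (fun i => (vT emb i (f i), true)), Finset.card_image_le.trans (by simp)⟩
  have hcF : Function.Injective cF := by
    intro f f' h
    funext i
    have h1 : ((vT emb i (f i), true) : Fin n × Bool) ∈ (cF f').1 := by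
      rw [← h]
      exact Finset.mem_image_of_mem _ (Finset.mem_univ i)
    obtain ⟨j, -, hj⟩ := Finset.mem_image.1 h1
    simp only [vT, Prod.mk.injEq, emb.injective.eq_iff, Sum.inr.injEq, and_true] at hj
    rw [← hj.2, hj.1]
  let B0 : Finset (Clause n k) := univ.image cT ∪ (univ.image cY ∪ (univ.image cZ ∪ univ.image cX))
  let B1 : Finset (Clause n k) := B0 ∪ univ.image cF
  have hB0 : #B0 ≤ a := by
    refine le_trans ?_ ha
    have h1 : #(univ.image cT) ≤ k * u := Finset.card_image_le.trans (by simp)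
    have h2 : #(univ.image cY) ≤ d * q := Finset.card_image_le.trans (by simp)
    have h3 : #(univ.image cZ) ≤ (k - d) * p := Finset.card_image_le.trans (by simp)
    have h4 : #(univ.image cX) ≤ m * q * q := Finset.card_image_le.trans (by simp)
    have h5 := Finset.card_union_le (univ.image cT) (univ.image cY ∪ (univ.image cZ ∪ univ.image cX))
    have h6 := Finset.card_union_le (univ.image cY) (univ.image cZ ∪ univ.image cX)
    have h7 := Finset.card_union_le (univ.image cZ) (univ.image cX)
    change #(univ.image cT ∪ (univ.image cY ∪ (univ.image cZ ∪ univ.image cX))) ≤ _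
    omega
  have hB1 : a ≤ #B1 := by
    refine hau.trans ?_
    calc u ^ k = #(univ.image cF) := by
          rw [Finset.card_image_of_injective _ hcF, Finset.card_univ, Fintype.card_fun,
            Fintype.card_fin, Fintype.card_fin]
      _ ≤ _ := Finset.card_le_card Finset.subset_union_right
  obtain ⟨Fx, h0, h1, hcard⟩ := Finset.exists_subsuperset_card_eq
    (Finset.subset_union_left : B0 ⊆ B1) hB0 hB1
  have hall : ∀ c ∈ Fx, (∃ x, cT x = c) ∨ (∃ x, cY x = c) ∨ (∃ x, cZ x = c) ∨ (∃ x, cX x = c) ∨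
      ∃ f, cF f = c := by
    intro c hc
    have := h1 hc
    simp only [B1, B0, Finset.mem_union, Finset.mem_image, Finset.mem_univ, true_and] at this
    tauto
  have hT : ∀ τ : Fin n → Bool, (∀ c ∈ Fx, ∃ l ∈ c.1, τ l.1 = l.2) → ∀ i e,
      τ (vT emb i e) = true := by
    intro τ hτ i e
    obtain ⟨l, hl, h2⟩ := hτ (cT (i, e)) (h0 (Finset.mem_union_left _
      (Finset.mem_image_of_mem _ (Finset.mem_univ _))))
    have hl' : l = (vT emb i e, true) := Finset.mem_singleton.1 hl
    rw [hl'] at h2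
    exact h2
  refine ⟨Fx, ⟨?_, ?_, ?_, ?_, ?_⟩, hcard⟩
  · intro c hc
    rcases hall c hc with ⟨x, rfl⟩ | ⟨x, rfl⟩ | ⟨x, rfl⟩ | ⟨x, rfl⟩ | ⟨f, rfl⟩
    · exact ⟨_, Finset.mem_singleton_self _, _, _, rfl⟩
    · exact ⟨(t0, false), by simp [cY], _, _, rfl⟩
    · exact ⟨(t0, false), by simp [cZ], _, _, rfl⟩
    · exact ⟨(t0, false), by simp [cX], _, _, rfl⟩
    · exact ⟨(vT emb ⟨0, by omega⟩ (f ⟨0, by omega⟩), true),
        Finset.mem_image_of_mem _ (Finset.mem_univ _), _, _, rfl⟩
  · intro α c hc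
    rcases hall c hc with ⟨x, rfl⟩ | ⟨x, rfl⟩ | ⟨x, rfl⟩ | ⟨x, rfl⟩ | ⟨f, rfl⟩
    · exact ⟨_, Finset.mem_singleton_self _, bigA_T _ _⟩
    · exact ⟨(vY emb x.1 x.2, false), by simp [cY], bigA_Y _ _⟩
    · exact ⟨(vZ emb x.1 x.2, false), by simp [cZ], bigA_Z _ _⟩
    · by_cases hv : α x.1.1 = true
      · exact ⟨(vX emb x.1.1 x.2, true), by simp [cX], by rw [bigA_X]; exact hv⟩
      · exact ⟨(vX emb x.1.1 x.1.2, false), by simp [cX], by
          rw [bigA_X]; simpa using hv⟩
    · exact ⟨(vT emb ⟨0, by omega⟩ (f ⟨0, by omega⟩), true),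
        Finset.mem_image_of_mem _ (Finset.mem_univ _), bigA_T _ _⟩
  · intro τ hτ i c
    obtain ⟨l, hl, h2⟩ := hτ (cY (i, c)) (h0 (Finset.mem_union_right _ (Finset.mem_union_left _
      (Finset.mem_image_of_mem _ (Finset.mem_univ _)))))
    simp only [cY, Finset.mem_insert, Finset.mem_singleton] at hl
    rcases hl with rfl | rfl
    · exact h2
    · have := hT τ hτ ⟨0, by omega⟩ ⟨0, hu⟩
      simp only [t0] at h2
      rw [this] at h2
      exact absurd h2 (by simp)
  · intro τ hτ i c
    obtain ⟨l, hl, h2⟩ := hτ (cZ (i, c)) (h0 (Finset.mem_union_right _ (Finset.mem_union_right _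
      (Finset.mem_union_left _ (Finset.mem_image_of_mem _ (Finset.mem_univ _))))))
    simp only [cZ, Finset.mem_insert, Finset.mem_singleton] at hl
    rcases hl with rfl | rfl
    · exact h2
    · have := hT τ hτ ⟨0, by omega⟩ ⟨0, hu⟩
      simp only [t0] at h2
      rw [this] at h2
      exact absurd h2 (by simp)
  · intro τ hτ
    have key : ∀ v c c', τ (vX emb v c) = true → τ (vX emb v c') = true := by
      intro v c c' hc
      obtain ⟨l, hl, h2⟩ := hτ (cX ((v, c), c')) (h0 (Finset.mem_union_right _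
        (Finset.mem_union_right _ (Finset.mem_union_right _
          (Finset.mem_image_of_mem _ (Finset.mem_univ _))))))
      simp only [cX, Finset.mem_insert, Finset.mem_singleton] at hl
      rcases hl with rfl | rfl | rfl
      · simp only at h2
        rw [hc] at h2
        exact absurd h2 (by simp)
      · exact h2
      · have := hT τ hτ ⟨0, by omega⟩ ⟨0, hu⟩
        simp only [t0] at h2
        rw [this] at h2
        exact absurd h2 (by simp)
    intro v c c'
    by_cases h3 : τ (vX emb v c) = true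
    · rw [h3, key v c c' h3]
    · have h4 : τ (vX emb v c') ≠ true := fun h => h3 (key v c' c h)
      simp only [Bool.not_eq_true] at h3 h4
      rw [h3, h4]

end Pool.Agent.H29.NW.SC
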