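import Pool.Agent.H29.NW.Circuit

/-!
The upper bound: search for a clique inside every union of k blocks of vertices.
-/

open Finset

namespace Pool.Agent.H29.NW

open Classical in
/-- a disjunction of bottom functions with values 0 and 1 as a circuit -/
theorem or_circuit {n : ℕ} (M : ℕ) (S : Fin M → Set (Sym2 (Fin n)))
    (p : Fin M → SimpleGraph (Fin n) → Prop)
    (hp : ∀ t G G', (∀ e ∈ S t, e ∈ G.edgeSet ↔ e ∈ G'.edgeSet) → (p t G ↔ p t G')) :
    ∃ C : Circuit n (Fin M ⊕ Fin (M + 1)),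
      ∀ Y G, 1 ≤ C.val Y G C.out ↔ ∃ t, S t ⊆ G.edgeSet ∪ Y ∧ p t G := by
  let v : Set (Sym2 (Fin n)) → SimpleGraph (Fin n) → Fin M → ℝ := fun Y G t =>
    if S t ⊆ G.edgeSet ∪ Y then (if p t G then 1 else 0) else 0
  let o : Set (Sym2 (Fin n)) → SimpleGraph (Fin n) → ℕ → ℝ := fun Y G t =>
    if ∃ t' : Fin M, (t' : ℕ) < t ∧ S t' ⊆ G.edgeSet ∪ Y ∧ p t' G then 1 else 0
  refine ⟨⟨fun Y G i => match i with
      | Sum.inl t => v Y G t
      | Sum.inr t => o Y G t,
    fun i => match i with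
      | Sum.inl _ => 0
      | Sum.inr t => t + 1, Sum.inr (Fin.last M), ?_⟩, ?_⟩
  · rintro (t | t)
    · left
      refine ⟨S t, fun G => if p t G then 1 else 0, fun G => by
        change (0 : ℝ) ≤ if p t G then 1 else 0
        split_ifs <;> norm_num, ?_, fun Y G => rfl⟩
      intro G G' h
      simp only [hp t G G' h]
    · rcases Nat.eq_zero_or_pos (t : ℕ) with ht | ht
      · left
        refine ⟨∅, fun _ => 0, fun _ => le_rfl, fun _ _ _ => rfl, fun Y G => ?_⟩
        change o Y G t = _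
        simp only [o, ht]
        simp
      · right
        have htM : (t : ℕ) - 1 < M := by have := t.2; omega
        refine ⟨Sum.inr ⟨(t : ℕ) - 1, by omega⟩, Sum.inl ⟨(t : ℕ) - 1, htM⟩, ?_, ?_, max,
          fun x x' y y' hx hy => max_le_max hx hy, ?_⟩
        · change (t : ℕ) - 1 + 1 < t + 1
          omega
        · change 0 < (t : ℕ) + 1
          omega
        · intro Y G
          change o Y G t = max (o Y G ((t : ℕ) - 1)) (v Y G ⟨(t : ℕ) - 1, htM⟩)
          simp only [o, v]
          by_cases h1 : ∃ t' : Fin M, (t' : ℕ) < (t : ℕ) - 1 ∧ S t' ⊆ G.edgeSet ∪ Y ∧ p t' G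
          · rw [if_pos h1, if_pos]
            · split_ifs <;> simp
            · obtain ⟨t', h2, h3⟩ := h1
              exact ⟨t', by omega, h3⟩
          · rw [if_neg h1]
            by_cases h2 : S ⟨(t : ℕ) - 1, htM⟩ ⊆ G.edgeSet ∪ Y ∧ p ⟨(t : ℕ) - 1, htM⟩ G
            · rw [if_pos, if_pos h2.1, if_pos h2.2]
              · simp
              · exact ⟨⟨(t : ℕ) - 1, htM⟩, by simp only; omega, h2⟩
            · rw [if_neg]
              · split_ifs with h3 h4
                · exact absurd ⟨h3, h4⟩ h2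
                · simp
                · simp
              · rintro ⟨t', h3, h4⟩
                by_cases h5 : (t' : ℕ) < (t : ℕ) - 1
                · exact h1 ⟨t', h5, h4⟩
                · apply h2
                  have h6 : t' = ⟨(t : ℕ) - 1, htM⟩ := Fin.ext (by simp only; omega)
                  rw [← h6]
                  exact h4
  · intro Y G
    change 1 ≤ o Y G (Fin.last M : ℕ) ↔ _
    simp only [o]
    constructor
    · intro h
      split_ifs at h with h1
      · obtain ⟨t', -, h2⟩ := h1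
        exact ⟨t', h2⟩
      · norm_num at h
    · rintro ⟨t, ht⟩
      rw [if_pos]
      exact ⟨t, by simp, ht⟩

open Classical in
/-- The upper bound. -/
theorem upper (k : ℕ) (hk : 1 ≤ k) (n w : ℕ) (hkn : k ^ 2 ≤ n) (hnw : n ≤ w) (hw : w ≤ n ^ 2) :
    ∃ (ι : Type) (_ : Fintype ι) (C : Circuit n ι), (∀ a b, C.Decides k w a b) ∧
      (Fintype.card ι : ℝ) ≤ ((24 * k : ℝ) ^ 2 * n ^ 2 / w) ^ ((k : ℝ) / 2) := by
  have hnpos : 0 < n := lt_of_lt_of_le (by positivity) hkn
  have hwpos : 0 < w := by omega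
  set σ := Nat.sqrt w with hσ
  have hσk : k ≤ σ := Nat.le_sqrt'.2 (hkn.trans hnw)
  have hσn : σ ≤ n := by
    have := Nat.sqrt_le_sqrt hw
    rwa [Nat.sqrt_eq'] at this
  set β := σ / k with hβ
  have hβpos : 0 < β := Nat.div_pos hσk (by omega)
  set g := n / β + 1 with hg
  let U : (Fin k → Fin g) → Finset (Fin n) := fun f =>
    univ.filter (fun v => ∃ i, (v : ℕ) / β = f i)
  have hU : ∀ f, #(U f) ≤ σ := by
    intro f
    have h1 : U f ⊆ univ.biUnion (fun i : Fin k => univ.filter (fun v : Fin n =>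
        (v : ℕ) / β = f i)) := by
      intro v hv
      obtain ⟨i, hi⟩ := (Finset.mem_filter.1 hv).2
      rw [Finset.mem_biUnion]
      exact ⟨i, Finset.mem_univ _, Finset.mem_filter.2 ⟨Finset.mem_univ _, hi⟩⟩
    have h2 : ∀ i : Fin k, #(univ.filter (fun v : Fin n => (v : ℕ) / β = f i)) ≤ β := by
      intro i
      have h3 := Finset.card_le_card_of_injOn (s := univ.filter (fun v : Fin n =>
        (v : ℕ) / β = f i)) (t := Finset.range β) (fun v => (v : ℕ) % β)
        (fun v _ => by simpa using Nat.mod_lt _ hβpos) (by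
          intro v hv v' hv' h
          simp only [Finset.coe_filter, Finset.mem_univ, true_and, Set.mem_ofPred_eq] at hv hv'
          apply Fin.ext
          have e1 := Nat.div_add_mod (v : ℕ) β
          have e2 := Nat.div_add_mod (v' : ℕ) β
          rw [hv] at e1
          rw [hv'] at e2
          simp only at h
          rw [h] at e1
          omega)
      rwa [Finset.card_range] at h3
    calc #(U f) ≤ _ := Finset.card_le_card h1
      _ ≤ ∑ i : Fin k, #(univ.filter (fun v : Fin n => (v : ℕ) / β = f i)) :=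
          Finset.card_biUnion_le
      _ ≤ ∑ i : Fin k, β := Finset.sum_le_sum fun i _ => h2 i
      _ = k * β := by simp
      _ ≤ σ := Nat.mul_div_le _ _
  set M := Fintype.card (Fin k → Fin g) with hM
  let e : Fin M ≃ (Fin k → Fin g) := (Fintype.equivFin _).symm
  let p : Fin M → SimpleGraph (Fin n) → Prop := fun t G =>
    ∃ s : Finset (Fin n), s ⊆ U (e t) ∧ G.IsNClique k s
  obtain ⟨C, hC⟩ := or_circuit (n := n) M (fun t => ((U (e t)).sym2 : Set (Sym2 (Fin n)))) p (by
    intro t G G' h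
    have key : ∀ G G' : SimpleGraph (Fin n),
        (∀ a ∈ U (e t), ∀ b ∈ U (e t), G.Adj a b → G'.Adj a b) → p t G → p t G' := by
      rintro G G' h ⟨s, hs, hcl⟩
      refine ⟨s, hs, ⟨?_, hcl.card_eq⟩⟩
      intro a ha b hb hab
      exact h a (hs ha) b (hs hb) (hcl.isClique ha hb hab)
    have h' : ∀ a ∈ U (e t), ∀ b ∈ U (e t), (G.Adj a b ↔ G'.Adj a b) := by
      intro a ha b hb
      exact h s(a, b) (by rw [Finset.mem_coe, Finset.mk_mem_sym2_iff]; exact ⟨ha, hb⟩)
    exact ⟨key G G' (fun a ha b hb => (h' a ha b hb).1),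
      key G' G (fun a ha b hb => (h' a ha b hb).2)⟩)
  -- every clique lies in one of the unions
  have hcov : ∀ G : SimpleGraph (Fin n), ¬ G.CliqueFree k → ∃ t, p t G := by
    intro G hG
    unfold SimpleGraph.CliqueFree at hG
    push Not at hG
    obtain ⟨s, hs⟩ := hG
    have hcard : Fintype.card s = k := by rw [Fintype.card_coe]; exact hs.card_eq
    let en : Fin k ≃ s := (Fintype.equivFinOfCardEq hcard).symm
    let f : Fin k → Fin g := fun i => ⟨((en i : Fin n) : ℕ) / β, by
      rw [hg]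
      exact Nat.lt_succ_of_le (Nat.div_le_div_right (en i : Fin n).2.le)⟩
    refine ⟨e.symm f, s, ?_, hs⟩
    intro v hv
    rw [Equiv.apply_symm_apply]
    refine Finset.mem_filter.2 ⟨Finset.mem_univ _, en.symm ⟨v, hv⟩, ?_⟩
    simp [f]
  refine ⟨_, inferInstance, C, fun _ _ G _ _ => ⟨?_, ?_⟩, ?_⟩
  · rw [hC]
    constructor
    · rintro ⟨t, -, s, -, hs⟩ hfree
      exact hfree s hs
    · intro hG
      obtain ⟨t, ht⟩ := hcov G hG
      exact ⟨t, by simp, ht⟩
  · intro hG
    obtain ⟨t, ht⟩ := hcov G hG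
    refine ⟨(U (e t)).sym2, ?_, (hC _ _).2 ⟨t, by simp, ht⟩⟩
    rw [Finset.card_sym2]
    have h1 := hU (e t)
    have h2 : (#(U (e t)) + 1).choose 2 ≤ #(U (e t)) * #(U (e t)) := by
      rw [Nat.choose_two_right]
      rcases Nat.eq_zero_or_pos #(U (e t)) with h3 | h3
      · rw [h3]
      · apply Nat.div_le_of_le_mul
        simp only [Nat.add_sub_cancel]
        nlinarith
    exact h2.trans ((Nat.mul_le_mul h1 h1).trans (Nat.sqrt_le w))
  · -- the size
    have hMg : M = g ^ k := by rw [hM]; simp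
    have hkr : (1 : ℝ) ≤ k := by exact_mod_cast hk
    have hwr : (0 : ℝ) < w := by exact_mod_cast hwpos
    have hnr : (0 : ℝ) < n := by exact_mod_cast hnpos
    have hgr : (g : ℝ) ≤ 8 * k * (n / Real.sqrt w) := by
      have hσr : Real.sqrt w ≤ 2 * σ := by
        have h1 : w < (σ + 1) * (σ + 1) := Nat.lt_succ_sqrt w
        have h2 : (w : ℝ) ≤ (σ + 1) ^ 2 := by
          have : ((w : ℕ) : ℝ) ≤ (((σ + 1) * (σ + 1) : ℕ) : ℝ) := by exact_mod_cast h1.le
          push_cast at this
          linarith [sq ((σ : ℝ) + 1)]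
        have h3 : Real.sqrt w ≤ σ + 1 := Real.sqrt_le_iff.2 ⟨by positivity, h2⟩
        have h4 : (1 : ℝ) ≤ σ := by exact_mod_cast (by omega : 1 ≤ σ)
        linarith
      have hβr : (σ : ℝ) ≤ 2 * (k * β) := by
        have h1 := Nat.lt_mul_div_succ σ (show 0 < k by omega)
        rw [← hβ] at h1
        have h2 : k * 1 ≤ k * β := Nat.mul_le_mul_left _ hβpos
        have h3 : k * (β + 1) = k * β + k := by ring
        have h4 : σ ≤ 2 * (k * β) := by omega
        exact_mod_cast h4
      have hβ0 : (0 : ℝ) < β := by exact_mod_cast hβpos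
      have hβn : β ≤ n := (Nat.div_le_self _ _).trans hσn
      have h5 : (g : ℝ) ≤ 2 * (n / β) := by
        rw [hg]
        push_cast
        have h6 : ((n / β : ℕ) : ℝ) ≤ n / β := Nat.cast_div_le
        have h7 : (1 : ℝ) ≤ n / β := by
          rw [one_le_div hβ0]
          exact_mod_cast hβn
        linarith
      refine h5.trans ?_
      have hs0 : 0 < Real.sqrt w := Real.sqrt_pos.2 hwr
      rw [← mul_div_assoc, ← mul_div_assoc, div_le_div_iff₀ hβ0 hs0]
      nlinarith
    have hcard : Fintype.card (Fin M ⊕ Fin (M + 1)) = 2 * g ^ k + 1 := by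
      rw [Fintype.card_sum, Fintype.card_fin, Fintype.card_fin, hMg]; ring
    rw [hcard]
    have hs0 : 0 < Real.sqrt w := Real.sqrt_pos.2 hwr
    have h1 : ((24 * k : ℝ) ^ 2 * n ^ 2 / w) ^ ((k : ℝ) / 2) =
        (24 * k * (n / Real.sqrt w)) ^ k := by
      have h2 : (24 * k : ℝ) ^ 2 * n ^ 2 / w = (24 * k * (n / Real.sqrt w)) ^ (2 : ℝ) := by
        rw [Real.rpow_two, mul_pow (24 * (k : ℝ)), div_pow, Real.sq_sqrt hwr.le]
        ring
      rw [h2, ← Real.rpow_mul (by positivity), ← Real.rpow_natCast]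
      congr 1
      ring
    rw [h1]
    have h3 : (g : ℝ) ^ k ≤ (8 * k * (n / Real.sqrt w)) ^ k :=
      pow_le_pow_left₀ (by positivity) hgr k
    have h4 : (1 : ℝ) ≤ (g : ℝ) ^ k := by
      apply one_le_pow₀
      exact_mod_cast (by rw [hg]; exact Nat.le_add_left _ _ : 1 ≤ g)
    have h5 : (24 * k * (n / Real.sqrt w)) ^ k = 3 ^ k * (8 * k * (n / Real.sqrt w)) ^ k := by
      rw [← mul_pow]; congr 1; ring
    have h6 : (3 : ℝ) ≤ 3 ^ k := by
      calc (3 : ℝ) = 3 ^ 1 := by norm_num
        _ ≤ 3 ^ k := pow_le_pow_right₀ (by norm_num) hk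
    rw [h5]
    push_cast
    have h7 : 0 ≤ (8 * k * (n / Real.sqrt w)) ^ k := by positivity
    nlinarith

end Pool.Agent.H29.NW
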